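import Pool.Agent.H42M.Group
import Pool.Agent.H42M.NoOdd

/-! # No points of odd order over totally real fields: the two curves (helper42) -/

namespace Pool.Agent.H42M

open NumberField WeierstrassCurve WeierstrassCurve.Affine

lemma Full.double {K : Type*} [Field K] [DecidableEq K] {W : Affine K} {e₁ e₂ e₃ : K}
    (H : Full W e₁ e₂ e₃) {x y : K} (h : W.Nonsingular x y) (hy : y ≠ 0) :
    ∃ (x' y' : K) (h' : W.Nonsingular x' y'),
      Point.some x y h + Point.some x y h = Point.some x' y' h' ∧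
      (x' - e₃) * (4 * y ^ 2) = ((x - e₃) ^ 2 - (e₃ - e₁) * (e₃ - e₂)) ^ 2 ∧
      (x' - e₁) * (4 * y ^ 2) = ((x - e₁) ^ 2 - (e₁ - e₂) * (e₁ - e₃)) ^ 2 ∧
      (x' - e₂) * (4 * y ^ 2) = ((x - e₂) ^ 2 - (e₂ - e₁) * (e₂ - e₃)) ^ 2 := by
  have hne : y ≠ W.negY x y := by
    intro h1
    rw [negY, H.a₁, H.a₃] at h1
    have h2 : 2 * y = 0 := by linear_combination h1
    exact hy ((mul_eq_zero.mp h2).resolve_left H.two)
  refine ⟨_, _, _, Point.add_self_of_Y_ne hne, ?_⟩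
  have hy2 : 2 * y ≠ 0 := mul_ne_zero H.two hy
  have hsl : W.slope x x y y * (2 * y) = 3 * x ^ 2 + W.a₄ := by
    rw [slope_of_Y_ne rfl hne, negY, H.a₁, H.a₂, H.a₃]
    have h2 : y - (-y - 0 * x - 0) = 2 * y := by ring
    rw [h2, div_mul_cancel₀ _ hy2]
    ring
  set l := W.slope x x y y with hl
  have hx' : W.addX x x l = l ^ 2 - 2 * x := by rw [addX, H.a₁, H.a₂]; ring
  rw [hx']
  have he := H.eq h
  have hs := H.sum
  have hl2 : l ^ 2 * (4 * y ^ 2) = (3 * x ^ 2 + W.a₄) ^ 2 := by rw [← hsl]; ring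
  have he3 : e₃ = -(e₁ + e₂) := by linear_combination hs
  have h1 : (l ^ 2 - 2 * x - e₃) * (4 * y ^ 2) = (3 * x ^ 2 + W.a₄) ^ 2 -
      (2 * x + e₃) * (4 * ((x - e₁) * (x - e₂) * (x - e₃))) := by
    rw [← he, ← hl2]; ring
  have h2 : (l ^ 2 - 2 * x - e₁) * (4 * y ^ 2) = (3 * x ^ 2 + W.a₄) ^ 2 -
      (2 * x + e₁) * (4 * ((x - e₁) * (x - e₂) * (x - e₃))) := by
    rw [← he, ← hl2]; ring
  have h3 : (l ^ 2 - 2 * x - e₂) * (4 * y ^ 2) = (3 * x ^ 2 + W.a₄) ^ 2 -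
      (2 * x + e₂) * (4 * ((x - e₁) * (x - e₂) * (x - e₃))) := by
    rw [← he, ← hl2]; ring
  rw [h1, h2, h3, H.a₄, he3]
  refine ⟨?_, ?_, ?_⟩ <;> ring

section

variable {F : Type*} [Field F] [NumberField F] [DecidableEq F]

/-- the orbit of a point of odd order under doubling -/
lemma orbit {W : WeierstrassCurve ℚ} {e₁ e₂ e₃ : F} (H : Full (W⁄F) e₁ e₂ e₃)
    {P : (W⁄F).Point} {n : ℕ} (hn : Odd n) (hP : n • P = 0) (hP0 : P ≠ 0) :
    ∃ (x y : ℕ → F) (m : ℕ), 0 < m ∧ (∀ k, y k ≠ 0) ∧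
      (∀ k, y k ^ 2 = (x k - e₁) * (x k - e₂) * (x k - e₃)) ∧
      (∀ k, (x (k + 1) - e₃) * (4 * y k ^ 2) =
        ((x k - e₃) ^ 2 - (e₃ - e₁) * (e₃ - e₂)) ^ 2) ∧
      (∀ k, (x (k + 1) - e₁) * (4 * y k ^ 2) =
        ((x k - e₁) ^ 2 - (e₁ - e₂) * (e₁ - e₃)) ^ 2) ∧
      (∀ k, x (k + m) = x k) ∧ ∀ k, y (k + m) = y k := by
  have hcop : ∀ k : ℕ, Nat.Coprime (2 ^ k) n := fun k =>
    Nat.Coprime.pow_left k (Nat.coprime_two_left.mpr hn)
  have hk0 : ∀ k : ℕ, 2 ^ k • P ≠ 0 := by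
    intro k hk
    have h1 := addOrderOf_dvd_of_nsmul_eq_zero hk
    have h2 := addOrderOf_dvd_of_nsmul_eq_zero hP
    have h3 := Nat.dvd_gcd h1 h2
    rw [hcop k, Nat.dvd_one] at h3
    exact hP0 (AddMonoid.addOrderOf_eq_one_iff.mp h3)
  have hex : ∀ k : ℕ, ∃ (x y : F) (h : (W⁄F).Nonsingular x y), 2 ^ k • P = Point.some x y h := by
    intro k
    rcases h : (2 ^ k • P) with _ | ⟨x, y, h'⟩
    · exact absurd h (hk0 k)
    · exact ⟨x, y, h', rfl⟩
  choose x y h hxy using hex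
  have hdbl : ∀ k, Point.some (x k) (y k) (h k) + Point.some (x k) (y k) (h k) =
      Point.some (x (k + 1)) (y (k + 1)) (h (k + 1)) := by
    intro k
    rw [← hxy, ← hxy, ← add_nsmul]
    congr 1
    rw [pow_succ]; ring
  have hy : ∀ k, y k ≠ 0 := by
    intro k hyk
    have h1 := two_tors H (h k) hyk
    rw [hdbl, ← hxy] at h1
    exact hk0 _ h1
  have hm : 0 < Nat.totient n := Nat.totient_pos.mpr hn.pos
  have hpow : 2 ^ Nat.totient n ≡ 1 [MOD n] :=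
    Nat.ModEq.pow_totient (Nat.coprime_two_left.mpr hn)
  have hper : ∀ k, 2 ^ (k + Nat.totient n) • P = 2 ^ k • P := by
    intro k
    have h1 : 1 ≤ 2 ^ Nat.totient n := Nat.one_le_two_pow
    obtain ⟨j, hj⟩ := (Nat.modEq_iff_dvd' h1).mp hpow.symm
    have h2 : 2 ^ (k + Nat.totient n) = 2 ^ k + 2 ^ k * j * n := by
      rw [pow_add]
      have : 2 ^ Nat.totient n = n * j + 1 := by omega
      rw [this]; ring
    rw [h2, add_nsmul, mul_nsmul P (2 ^ k * j) n]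
    have h3 : n • (2 ^ k * j) • P = 0 := by
      rw [nsmul_left_comm, hP, nsmul_zero]
    have h4 : n • ((2 ^ k * j) • P) = 0 := h3
    rw [h4, add_zero]
  have hsome : ∀ k, Point.some (x (k + Nat.totient n)) (y (k + Nat.totient n))
      (h (k + Nat.totient n)) = Point.some (x k) (y k) (h k) := fun k => by
    rw [← hxy, ← hxy, hper]
  have hrec : ∀ k, (x (k + 1) - e₃) * (4 * y k ^ 2) =
        ((x k - e₃) ^ 2 - (e₃ - e₁) * (e₃ - e₂)) ^ 2 ∧ (x (k + 1) - e₁) * (4 * y k ^ 2) =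
        ((x k - e₁) ^ 2 - (e₁ - e₂) * (e₁ - e₃)) ^ 2 := by
    intro k
    obtain ⟨x', y', h', hadd, h3, h1, -⟩ := H.double (h k) (hy k)
    rw [hdbl, Point.some.injEq] at hadd
    rw [hadd.1]
    exact ⟨h3, h1⟩
  refine ⟨x, y, Nat.totient n, hm, hy, fun k => H.eq (h k), fun k => (hrec k).1,
    fun k => (hrec k).2, fun k => ?_, fun k => ?_⟩
  · have := hsome k
    rw [Point.some.injEq] at this
    exact this.1
  · have := hsome k
    rw [Point.some.injEq] at this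
    exact this.2

theorem odd_E1 [IsTotallyReal F] {P : (E1⁄F).Point} {n : ℕ} (hn : Odd n) (hP : n • P = 0) :
    P = 0 := by
  by_contra hP0
  obtain ⟨x, y, m, hm, hy, he, hrec, -, hper, -⟩ := orbit full_E1 hn hP hP0
  refine no_periodic (F := F) (c := fun k => (x k - 123) / 9) (Y := fun k => y k / 27)
    (fun k => div_ne_zero (hy k) (by norm_num)) (fun k => ?_) (fun k => ?_) hm
    (fun k => by simp only [hper])
  · simp only [div_pow, he]; ring
  · have h1 := hrec k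
    simp only [div_pow]
    have h2 : (x (k + 1) - 123) / 9 * (4 * (y k ^ 2 / 27 ^ 2)) =
        ((x (k + 1) - 123) * (4 * y k ^ 2)) / 6561 := by ring
    rw [h2, h1]
    ring

theorem odd_E2 [IsTotallyReal F] {P : (E2⁄F).Point} {n : ℕ} (hn : Odd n) (hP : n • P = 0) :
    P = 0 := by
  by_contra hP0
  obtain ⟨x, y, m, hm, hy, he, -, hrec, hper, hper'⟩ := orbit full_E2 hn hP hP0
  set X : ℕ → F := fun k => (x k - 51) / 9 with hX
  set Y : ℕ → F := fun k => y k / 27 with hY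
  have hY0 : ∀ k, Y k ≠ 0 := fun k => div_ne_zero (hy k) (by norm_num)
  have hXY : ∀ k, Y k ^ 2 = X k * (X k + 1) * (X k + 16) := by
    intro k
    simp only [hX, hY, div_pow, he]; ring
  have hX0 : ∀ k, X k ≠ 0 := by
    intro k h0
    have := hXY k
    rw [h0, zero_mul, zero_mul] at this
    exact pow_ne_zero 2 (hY0 k) this
  have hXrec : ∀ k, X (k + 1) * (4 * Y k ^ 2) = (X k ^ 2 - 16) ^ 2 := by
    intro k
    have h1 := hrec k
    simp only [hX, hY, div_pow]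
    have h2 : (x (k + 1) - 51) / 9 * (4 * (y k ^ 2 / 27 ^ 2)) =
        ((x (k + 1) - 51) * (4 * y k ^ 2)) / 6561 := by ring
    rw [h2, h1]
    ring
  have hne : ∀ k, X k ^ 2 - 16 ≠ 0 := by
    intro k h0
    have h1 := hXrec k
    rw [h0] at h1
    have h2 : X (k + 1) * (4 * Y k ^ 2) ≠ 0 :=
      mul_ne_zero (hX0 _) (mul_ne_zero (by norm_num) (pow_ne_zero _ (hY0 k)))
    apply h2; rw [h1]; ring
  refine no_periodic (F := F) (c := fun k => (X k - 4) ^ 2 / X k)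
    (Y := fun k => Y k * (X k ^ 2 - 16) / X k ^ 2)
    (fun k => div_ne_zero (mul_ne_zero (hY0 k) (hne k)) (pow_ne_zero _ (hX0 k)))
    (fun k => ?_) (fun k => ?_) hm (fun k => by simp only [hX, hper])
  · have h0 := hX0 k
    simp only [div_pow, mul_pow, hXY]
    field_simp
    ring
  · have h0 := hX0 k
    have h1 := hX0 (k + 1)
    have h2 : X (k + 1) = (X k ^ 2 - 16) ^ 2 / (4 * Y k ^ 2) := by
      rw [← hXrec]
      have := hY0 k
      field_simp
    have h3 := hXY k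
    have h4 := hY0 k
    have h5 := hne k
    rw [h2]
    have h6 : ((X k ^ 2 - 16) ^ 2 / (4 * Y k ^ 2) - 4) ^ 2 / ((X k ^ 2 - 16) ^ 2 / (4 * Y k ^ 2)) *
        (4 * (Y k * (X k ^ 2 - 16) / X k ^ 2) ^ 2) =
        ((X k ^ 2 - 16) ^ 2 - 16 * Y k ^ 2) ^ 2 / X k ^ 4 := by
      field_simp
      ring
    rw [h6, h3]
    field_simp
    ring

end

end Pool.Agent.H42M
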