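import Pool.Agent.H42M.Quad

/-! # Units which are squares modulo 4, if the narrow class number is odd (helper42) -/

namespace Pool.Agent.H42M

open NumberField Module

section real

variable {F : Type*} [Field F] [NumberField F] [IsTotallyReal F]

/-- the real embedding of an infinite place -/
noncomputable def emb (v : InfinitePlace F) : F →+* ℝ :=
  InfinitePlace.embedding_of_isReal (IsTotallyReal.isReal v)

omit [NumberField F] in
lemma emb_coe (v : InfinitePlace F) (x : F) : ((emb v x : ℝ) : ℂ) = v.embedding x :=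
  InfinitePlace.embedding_of_isReal_apply (IsTotallyReal.isReal v) x

lemma exists_emb (φ : F →+* ℝ) : ∃ v : InfinitePlace F, φ = emb v := by
  set ψ : F →+* ℂ := Complex.ofRealHom.comp φ with hψ
  have hreal : ComplexEmbedding.IsReal ψ := by
    ext x
    simp [hψ]
  refine ⟨InfinitePlace.mk ψ, ?_⟩
  ext x
  have h1 := emb_coe (InfinitePlace.mk ψ) x
  rw [InfinitePlace.embedding_mk_eq_of_isReal hreal, hψ] at h1
  exact (Complex.ofReal_injective h1).symm

end real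

section

variable {F L : Type*} [Field F] [NumberField F] [IsTotallyReal F] [Field L] [NumberField L]
  [Algebra F L]

namespace QuadExt

variable (Q : QuadExt F L)

/-- a ramified infinite place is one where `u` is negative -/
lemma neg_of_ramified (v : InfinitePlace F) (hv : ¬ v.IsUnramifiedIn L) :
    emb v ((Q.u : 𝓞 F) : F) < 0 := by
  rw [InfinitePlace.IsUnramifiedIn] at hv
  push Not at hv
  obtain ⟨w, hwv, hw⟩ := hv
  rw [InfinitePlace.not_isUnramified_iff] at hw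
  obtain ⟨hwc, hwr⟩ := hw
  set ψ := w.embedding with hψ
  have hcomp : InfinitePlace.mk (ψ.comp (algebraMap F L)) = v := by
    rw [← InfinitePlace.comap_mk, hψ, InfinitePlace.mk_embedding, hwv]
  have hreal : ComplexEmbedding.IsReal (ψ.comp (algebraMap F L)) := by
    rw [← InfinitePlace.isReal_mk_iff, hcomp]
    exact IsTotallyReal.isReal v
  have hval : ∀ x : F, ψ (algebraMap F L x) = ((emb v x : ℝ) : ℂ) := by
    intro x
    rw [emb_coe, ← hcomp, InfinitePlace.embedding_mk_eq_of_isReal hreal]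
    rfl
  by_contra hneg
  push Not at hneg
  set r : ℝ := Real.sqrt (emb v ((Q.u : 𝓞 F) : F)) with hr
  have hr2 : (r : ℂ) ^ 2 = ψ Q.w ^ 2 := by
    rw [← map_pow, Q.hw, hval, ← Real.sq_sqrt hneg, ← hr]
    push_cast; rfl
  have hwreal : (starRingEnd ℂ) (ψ Q.w) = ψ Q.w := by
    rcases sq_eq_sq_iff_eq_or_eq_neg.mp hr2 with h | h
    · rw [← h]; exact Complex.conj_ofReal r
    · have h2 : ψ Q.w = -(r : ℂ) := by rw [h, neg_neg]
      rw [h2, map_neg, Complex.conj_ofReal]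
  have hψreal : ComplexEmbedding.IsReal ψ := by
    ext x
    obtain ⟨p, q, rfl⟩ := Q.span x
    rw [ComplexEmbedding.conjugate_coe_eq, map_add, map_mul, map_add, map_mul, hwreal, hval, hval,
      Complex.conj_ofReal, Complex.conj_ofReal]
  rw [InfinitePlace.isComplex_iff] at hwc
  exact hwc hψreal

omit [IsTotallyReal F] in
/-- the relative norm of a unit -/
lemma exists_norm (η : (𝓞 L)ˣ) : ∃ n : (𝓞 F)ˣ,
    algebraMap (𝓞 F) (𝓞 L) (n : 𝓞 F) = (η : 𝓞 L) * Q.s (η : 𝓞 L) := by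
  have key : ∀ η : (𝓞 L)ˣ, ∃ n : 𝓞 F,
      algebraMap (𝓞 F) (𝓞 L) n = (η : 𝓞 L) * Q.s (η : 𝓞 L) := by
    intro η
    refine Q.fixed_int ?_
    rw [← Q.s_coe, map_mul, Q.s_s, mul_comm]
  obtain ⟨n, hn⟩ := key η
  obtain ⟨n', hn'⟩ := key η⁻¹
  have h1 : n * n' = 1 := by
    apply FaithfulSMul.algebraMap_injective (𝓞 F) (𝓞 L)
    rw [map_mul, hn, hn', map_one]
    calc (η : 𝓞 L) * Q.s (η : 𝓞 L) * ((η⁻¹ : (𝓞 L)ˣ) * Q.s ((η⁻¹ : (𝓞 L)ˣ) : 𝓞 L))
        = ((η : 𝓞 L) * ((η⁻¹ : (𝓞 L)ˣ) : 𝓞 L)) *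
          (Q.s ((η : 𝓞 L) * ((η⁻¹ : (𝓞 L)ˣ) : 𝓞 L))) := by rw [map_mul]; ring
      _ = 1 := by rw [Units.mul_inv, map_one, one_mul]
  exact ⟨Units.mkOfMulEqOne n n' h1, hn⟩

/-- a relative norm is positive at the ramified places -/
lemma norm_pos {η : (𝓞 L)ˣ} {n : (𝓞 F)ˣ}
    (hn : algebraMap (𝓞 F) (𝓞 L) (n : 𝓞 F) = (η : 𝓞 L) * Q.s (η : 𝓞 L))
    {v : InfinitePlace F} (hv : emb v ((Q.u : 𝓞 F) : F) < 0) : 0 < emb v ((n : 𝓞 F) : F) := by
  obtain ⟨p, q, hpq⟩ := Q.span (algebraMap (𝓞 L) L (η : 𝓞 L))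
  have h1 : algebraMap F L ((n : 𝓞 F) : F) = algebraMap F L (p ^ 2 - ((Q.u : 𝓞 F) : F) * q ^ 2) := by
    have h2 := congrArg (algebraMap (𝓞 L) L) hn
    rw [map_mul, Q.s_coe, hpq, Q.conj_formula] at h2
    have h3 : algebraMap F L ((n : 𝓞 F) : F) =
        algebraMap (𝓞 L) L (algebraMap (𝓞 F) (𝓞 L) (n : 𝓞 F)) := rfl
    rw [h3, h2, map_sub, map_mul, map_pow, map_pow, ← Q.hw]
    ring
  have h4 := (algebraMap F L).injective h1
  have h5 : emb v ((n : 𝓞 F) : F) ≠ 0 := (map_ne_zero _).mpr (by simp)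
  rw [h4, map_sub, map_mul, map_pow, map_pow] at h5 ⊢
  have h6 : 0 ≤ emb v p ^ 2 - emb v ((Q.u : 𝓞 F) : F) * emb v q ^ 2 := by
    nlinarith [sq_nonneg (emb v p), sq_nonneg (emb v q),
      mul_nonneg (neg_nonneg.mpr hv.le) (sq_nonneg (emb v q))]
  exact lt_of_le_of_ne h6 (Ne.symm h5)

/-- conjugation on units -/
noncomputable def su : (𝓞 L)ˣ →* (𝓞 L)ˣ := Units.map (Q.s : 𝓞 L →* 𝓞 L)

omit [IsTotallyReal F] in
lemma su_coe (η : (𝓞 L)ˣ) : ((Q.su η : (𝓞 L)ˣ) : 𝓞 L) = Q.s (η : 𝓞 L) := rfl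

/-- `η ↦ η * s η` -/
noncomputable def nm : (𝓞 L)ˣ →* (𝓞 L)ˣ := MonoidHom.id _ * Q.su

omit [IsTotallyReal F] in
lemma nm_coe (η : (𝓞 L)ˣ) : ((Q.nm η : (𝓞 L)ˣ) : 𝓞 L) = (η : 𝓞 L) * Q.s (η : 𝓞 L) := rfl

/-- the same, as a linear map -/
noncomputable def nmL : Additive (𝓞 L)ˣ →ₗ[ℤ] Additive (𝓞 L)ˣ :=
  (MonoidHom.toAdditive Q.nm).toIntLinearMap

lemma finrank_ker : finrank ℤ (Additive (𝓞 L)ˣ) ≤
    finrank ℤ (LinearMap.ker Q.nmL) + finrank ℤ (Additive (𝓞 F)ˣ) := by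
  set j : Additive (𝓞 F)ˣ →ₗ[ℤ] Additive (𝓞 L)ˣ :=
    (MonoidHom.toAdditive (Units.map (algebraMap (𝓞 F) (𝓞 L) : 𝓞 F →* 𝓞 L))).toIntLinearMap
    with hj
  have h1 := (LinearMap.ker Q.nmL).finrank_quotient_add_finrank
  have h2 : finrank ℤ (Additive (𝓞 L)ˣ ⧸ LinearMap.ker Q.nmL) = finrank ℤ (LinearMap.range Q.nmL) :=
    Q.nmL.quotKerEquivRange.finrank_eq
  have h3 : LinearMap.range Q.nmL ≤ LinearMap.range j := by
    rintro _ ⟨η, rfl⟩
    obtain ⟨n, hn⟩ := Q.exists_norm η.toMul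
    refine ⟨Additive.ofMul n, ?_⟩
    apply Additive.toMul.injective
    apply Units.ext
    exact hn
  have h4 : finrank ℤ (LinearMap.range Q.nmL) ≤ finrank ℤ (LinearMap.range j) :=
    Submodule.finrank_mono h3
  have h5 : finrank ℤ (LinearMap.range j) ≤ finrank ℤ (Additive (𝓞 F)ˣ) :=
    LinearMap.finrank_range_le j
  omega

include Q in
open scoped Classical in
theorem contra (hodd : Odd (classNumber F))
    (hpos : ∀ u : (𝓞 F)ˣ, (∀ φ : F →+* ℝ, 0 < φ ((u : 𝓞 F) : F)) → IsSquare u)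
    (hquad : Algebra.IsQuadraticExtension F L) : False := by
  have hcardL := InfinitePlace.card_eq_card_isUnramifiedIn F L
  rw [Q.rank] at hcardL
  set Φ : Finset (InfinitePlace F) := {w : InfinitePlace F | w.IsUnramifiedIn L} with hΦ
  have hcardF : Φ.card + Φᶜ.card = Fintype.card (InfinitePlace F) := Finset.card_add_card_compl Φ
  have hFpos : 0 < Fintype.card (InfinitePlace F) := Fintype.card_pos
  have hrank : Φ.card ≤ finrank ℤ (LinearMap.ker Q.nmL) := by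
    have h1 := Q.finrank_ker
    rw [Units.finrank_eq, Units.finrank_eq, Units.rank, Units.rank, hcardL] at h1
    omega
  -- minus one
  have hm1 : Q.nmL (Additive.ofMul (-1)) = 0 := by
    apply Additive.toMul.injective
    apply Units.ext
    change ((-1 : (𝓞 L)ˣ) : 𝓞 L) * Q.s (((-1 : (𝓞 L)ˣ)) : 𝓞 L) = 1
    rw [Units.val_neg, Units.val_one, map_neg, map_one]; ring
  set ζ : LinearMap.ker Q.nmL := ⟨Additive.ofMul (-1), hm1⟩ with hζ
  have hζ0 : ζ ≠ 0 := by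
    intro h0
    have h1 : (Additive.ofMul (-1 : (𝓞 L)ˣ)) = Additive.ofMul 1 := congrArg Subtype.val h0
    have h2 : (-1 : (𝓞 L)ˣ) = 1 := Additive.ofMul.injective h1
    have h3 := congrArg (fun x : (𝓞 L)ˣ => (x : 𝓞 L)) h2
    simp only [Units.val_neg, Units.val_one] at h3
    have h4 : (2 : 𝓞 L) = 0 := by linear_combination -h3
    norm_num at h4
  have hζ2 : ζ + ζ = 0 := by
    apply Subtype.ext
    apply Additive.toMul.injective
    change (-1 : (𝓞 L)ˣ) * (-1) = 1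
    simp
  -- the choice of `η`
  have hK : ∀ k : LinearMap.ker Q.nmL, ∃ η : (𝓞 L)ˣ,
      Q.s (η : 𝓞 L) = ((k : Additive (𝓞 L)ˣ).toMul : 𝓞 L) * η := by
    intro k
    refine Q.exists_unit hodd ?_
    have h1 : Q.nmL (k : Additive (𝓞 L)ˣ) = 0 := k.2
    have h2 := congrArg (fun x : Additive (𝓞 L)ˣ => ((x.toMul : (𝓞 L)ˣ) : 𝓞 L)) h1
    exact h2
  choose η hη using hK
  choose n hn using fun k => Q.exists_norm (η k)
  refine count_contra (M := LinearMap.ker Q.nmL) hrank ζ hζ0 hζ2 (S := Φ → Bool) (by simp)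
    (fun k v => decide (0 < emb v.1 ((n k : 𝓞 F) : F))) ?_
  intro k k' hkk
  -- the quotient of the norms is totally positive
  have hnz : ∀ k v, emb v ((n k : 𝓞 F) : F) ≠ 0 := fun k v => (map_ne_zero _).mpr (by simp)
  have hc : IsSquare (n k * (n k')) := by
    refine hpos _ fun φ => ?_
    obtain ⟨v, rfl⟩ := exists_emb φ
    have h0 : (((n k * n k' : (𝓞 F)ˣ) : 𝓞 F) : F) = ((n k : 𝓞 F) : F) * ((n k' : 𝓞 F) : F) := by
      push_cast; rfl
    rw [h0, map_mul]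
    by_cases hv : v ∈ Φ
    · have h1 := congrFun hkk ⟨v, hv⟩
      simp only [decide_eq_decide] at h1
      rcases lt_or_gt_of_ne (hnz k v) with h2 | h2
      · have h3 : emb v ((n k' : 𝓞 F) : F) < 0 :=
          lt_of_le_of_ne (not_lt.mp (fun h => absurd (h1.mpr h) (not_lt.mpr h2.le))) (hnz k' v)
        exact mul_pos_of_neg_of_neg h2 h3
      · exact mul_pos h2 (h1.mp h2)
    · have hv' : ¬ v.IsUnramifiedIn L := by
        intro h; apply hv; rw [hΦ]; simp [h]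
      have hneg := Q.neg_of_ramified v hv'
      exact mul_pos (Q.norm_pos (hn k) hneg) (Q.norm_pos (hn k') hneg)
  obtain ⟨c, hc⟩ := hc
  -- `κ = η k * η k' / c`
  set cL : (𝓞 L)ˣ := Units.map (algebraMap (𝓞 F) (𝓞 L) : 𝓞 F →* 𝓞 L) c with hcL
  have hcL' : (cL : 𝓞 L) = algebraMap (𝓞 F) (𝓞 L) (c : 𝓞 F) := rfl
  have hscL : Q.su cL = cL := by
    apply Units.ext
    rw [Q.su_coe, hcL', Q.s_alg]
  have hnmcL : Q.nm cL = cL * cL := by
    change cL * Q.su cL = cL * cL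
    rw [hscL]
  set a : (𝓞 L)ˣ := (k : Additive (𝓞 L)ˣ).toMul with ha
  set b : (𝓞 L)ˣ := (k' : Additive (𝓞 L)ˣ).toMul with hb
  have hsk : Q.su (η k) = a * η k := Units.ext (hη k)
  have hsk' : Q.su (η k') = b * η k' := Units.ext (hη k')
  have hnk : Q.nm (η k) * Q.nm (η k') = cL * cL := by
    apply Units.ext
    rw [Units.val_mul, Q.nm_coe, Q.nm_coe, ← hn, ← hn, Units.val_mul, hcL', ← map_mul, ← map_mul]
    congr 1
    have := congrArg (fun x : (𝓞 F)ˣ => (x : 𝓞 F)) hc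
    simpa only [Units.val_mul] using this
  set κ : (𝓞 L)ˣ := η k * η k' * cL⁻¹ with hκ
  have hκ1 : Q.nm κ = 1 := by
    rw [hκ, map_mul, map_mul, map_inv, hnmcL, hnk, mul_inv_cancel]
  have hsκ : Q.su κ = a * b * κ := by
    rw [hκ, map_mul, map_mul, map_inv, hscL, hsk, hsk']
    ac_rfl
  have hfin : a * b * (κ * κ) = 1 := by
    have h1 : κ * Q.su κ = 1 := hκ1
    rw [hsκ] at h1
    rw [← h1]; ac_rfl
  have hκker : Q.nmL (Additive.ofMul κ) = 0 := by
    apply Additive.toMul.injective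
    exact hκ1
  refine ⟨-(⟨Additive.ofMul κ, hκker⟩ + k'), ?_⟩
  apply Subtype.ext
  apply Additive.toMul.injective
  change a = b * ((κ * b)⁻¹ * (κ * b)⁻¹)
  have h2 : a = (b * (κ * κ))⁻¹ :=
    eq_inv_of_mul_eq_one_left (by rw [← mul_assoc]; exact hfin)
  have h3 : b * ((κ * b)⁻¹ * (κ * b)⁻¹) = (b * b⁻¹) * (b⁻¹ * (κ⁻¹ * κ⁻¹)) := by
    rw [mul_inv]; ac_rfl
  rw [h2, h3, mul_inv_cancel, one_mul, mul_inv, mul_inv]

end QuadExt

end

section

universe u₀

variable {F : Type u₀} [Field F] [NumberField F]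

open Polynomial

/-- the quadratic extension exists if `u` is not a square -/
theorem exists_quad (u : (𝓞 F)ˣ) (hu : ¬ IsSquare u) (h4 : ∃ a : 𝓞 F, (4 : 𝓞 F) ∣ (u : 𝓞 F) - a ^ 2) :
    ∃ (L : Type u₀) (_ : Field L) (_ : NumberField L) (_ : Algebra F L),
      Algebra.IsQuadraticExtension F L ∧ Nonempty (QuadExt F L) := by
  obtain ⟨a, ha⟩ := h4
  set c : F := ((u : 𝓞 F) : F) with hc
  have hnsq : ∀ b : F, b ^ 2 ≠ c := by
    intro b hb
    apply hu
    have hbi : IsIntegral ℤ b := by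
      refine IsIntegral.of_pow (n := 2) (by norm_num) ?_
      rw [hb]; exact (u : 𝓞 F).2
    obtain ⟨B, hB⟩ : ∃ B : 𝓞 F, algebraMap (𝓞 F) F B = b := ⟨⟨b, hbi⟩, rfl⟩
    have h1 : B ^ 2 = (u : 𝓞 F) := by
      apply RingOfIntegers.coe_injective
      rw [map_pow, hB]; exact hb
    have h2 : IsUnit B := by
      rw [← isUnit_pow_iff two_ne_zero, h1]; exact u.isUnit
    obtain ⟨v, hv⟩ := h2
    refine ⟨v, Units.ext ?_⟩
    rw [Units.val_mul, hv, ← pow_two, h1]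
  have hirr : Irreducible (X ^ 2 - C c : F[X]) := by
    refine X_pow_sub_C_irreducible_of_prime Nat.prime_two fun b => hnsq b
  have hmonic : (X ^ 2 - C c : F[X]).Monic := monic_X_pow_sub_C c two_ne_zero
  have hdeg : (X ^ 2 - C c : F[X]).natDegree = 2 := natDegree_X_pow_sub_C
  have : Fact (Irreducible (X ^ 2 - C c : F[X])) := ⟨hirr⟩
  set L := AdjoinRoot (X ^ 2 - C c : F[X]) with hL
  have hfin : FiniteDimensional F L := (AdjoinRoot.powerBasis hirr.ne_zero).finite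
  have hrank : Module.finrank F L = 2 := by
    rw [(AdjoinRoot.powerBasis hirr.ne_zero).finrank, AdjoinRoot.powerBasis_dim, hdeg]
  have hchar : CharZero L := charZero_of_injective_algebraMap (algebraMap F L).injective
  have hfinQ : FiniteDimensional ℚ L := Module.Finite.trans (R := ℚ) F L
  have hNF : NumberField L := { to_charZero := hchar, to_finiteDimensional := hfinQ }
  set w : L := AdjoinRoot.root _ with hw
  have hw2 : w ^ 2 = algebraMap F L c := by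
    have h1 := AdjoinRoot.eval₂_root (X ^ 2 - C c : F[X])
    rw [eval₂_sub, eval₂_pow, eval₂_X, eval₂_C] at h1
    exact sub_eq_zero.mp h1
  have hspan : ∀ x : L, ∃ p q : F, x = algebraMap F L p + algebraMap F L q * w := by
    intro x
    obtain ⟨f, rfl⟩ := AdjoinRoot.mk_surjective x
    obtain ⟨p, q, hpq⟩ : ∃ p q : F, f %ₘ (X ^ 2 - C c) = C q * X + C p := by
      have h1 : (f %ₘ (X ^ 2 - C c)).degree < 2 := by
        refine (degree_modByMonic_lt f hmonic).trans_le ?_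
        rw [degree_X_pow_sub_C (by norm_num)]; rfl
      have h2 : (f %ₘ (X ^ 2 - C c)).degree ≤ 1 := by
        exact Order.le_of_lt_succ h1
      exact ⟨_, _, eq_X_add_C_of_degree_le_one h2⟩
    refine ⟨p, q, ?_⟩
    have h3 : AdjoinRoot.mk (X ^ 2 - C c) f = AdjoinRoot.mk (X ^ 2 - C c) (f %ₘ (X ^ 2 - C c)) := by
      rw [AdjoinRoot.mk_eq_mk]
      exact ⟨f /ₘ (X ^ 2 - C c), by
        linear_combination (-1 : F[X]) * modByMonic_add_div f (X ^ 2 - C c)⟩
    rw [h3, hpq, map_add, map_mul, AdjoinRoot.mk_C, AdjoinRoot.mk_C, AdjoinRoot.mk_X, add_comm]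
    rfl
  obtain ⟨σ, hσ⟩ : ∃ σ : L ≃ₐ[F] L, σ w = -w := by
    have hev : (-w) ^ 2 = algebraMap F L c := by rw [neg_sq, hw2]
    set f : L →ₐ[F] L := AdjoinRoot.liftAlgHom (X ^ 2 - C c : F[X]) (Algebra.ofId F L) (-w) (by
      rw [eval₂_sub, eval₂_pow, eval₂_X, eval₂_C, hev]
      exact sub_self _) with hf
    have hfw : f w = -w := AdjoinRoot.liftAlgHom_root ..
    exact ⟨AlgEquiv.ofBijective f f.bijective, hfw⟩
  exact ⟨L, inferInstance, hNF, inferInstance, ⟨hrank⟩,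
    ⟨{ u := u, a := a, h4 := ha, w := w, hw := hw2, σ := σ, hσ := hσ, span := hspan,
       rank := hrank }⟩⟩

/-- if the class number of a totally real field is odd and all totally positive units are
squares then all units which are squares modulo 4 are squares -/
theorem isSquare_of_primary [IsTotallyReal F] (hodd : Odd (classNumber F))
    (hpos : ∀ u : (𝓞 F)ˣ, (∀ φ : F →+* ℝ, 0 < φ ((u : 𝓞 F) : F)) → IsSquare u)
    (u : (𝓞 F)ˣ) (h4 : ∃ a : 𝓞 F, (4 : 𝓞 F) ∣ (u : 𝓞 F) - a ^ 2) : IsSquare u := by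
  by_contra hu
  obtain ⟨L, i1, i2, i3, hq, ⟨Q⟩⟩ := exists_quad u hu h4
  exact Q.contra hodd hpos hq

end

end Pool.Agent.H42M
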