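import Pool.Agent.H42M.Main
import Pool.Agent.H42M.OddGroup
import Pool.Agent.H42M.Prim

/-! # The points of the two curves (helper42) -/

namespace Pool.Agent.H42M

open NumberField WeierstrassCurve WeierstrassCurve.Affine

variable {F : Type*} [Field F] [NumberField F] [IsTotallyReal F]

lemma exists_real (F : Type*) [Field F] [NumberField F] [IsTotallyReal F] :
    Nonempty (F →+* ℝ) := by
  obtain ⟨v⟩ : Nonempty (InfinitePlace F) := inferInstance
  exact ⟨emb v⟩

lemma hyp_mk (hodd : Odd (classNumber F))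
    (hpos : ∀ u : (𝓞 F)ˣ, (∀ φ : F →+* ℝ, 0 < φ ((u : 𝓞 F) : F)) → IsSquare u)
    (h3 : Good3 F) (h5 : Nonsplit F 5) : Hyp F :=
  { odd := hodd
    pos := hpos
    prim := isSquare_of_primary hodd hpos
    three := h3
    five := h5
    real := exists_real F }

variable [DecidableEq F]

lemma four_smul {G : Type*} [AddCommGroup G] {P : G} {n : ℕ} (hn : Odd n)
    (h : (4 : ℤ) • (n • P) = 0) (hodd : ∀ Q : G, n • Q = 0 → Q = 0) : (4 : ℤ) • P = 0 := by
  apply hodd
  rw [← h]
  simp only [← natCast_zsmul, smul_smul, mul_comm]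

/-- all points have order dividing 4 -/
theorem four_E1 (H : Hyp F) (P : (E1⁄F).Point) : (4 : ℤ) • P = 0 := by
  obtain ⟨-, h2⟩ := finite_of_step E1 (step_E1 H)
  obtain ⟨n, hn, hP⟩ := h2 P
  exact four_smul hn (mem_G0.mp hP).2 fun Q hQ => odd_E1 hn hQ

theorem four_E2 (H : Hyp F) (P : (E2⁄F).Point) : (4 : ℤ) • P = 0 := by
  obtain ⟨-, h2⟩ := finite_of_step E2 (step_E2 H)
  obtain ⟨n, hn, hP⟩ := h2 P
  exact four_smul hn (mem_G0.mp hP).2 fun Q hQ => odd_E2 hn hQ

omit [IsTotallyReal F] in
/-- halves of the points of order 2 -/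
lemma halves {W : Affine F} {e₁ e₂ e₃ : F} (H : Full W e₁ e₂ e₃) {x y : F}
    (h : W.Nonsingular x y) (h4 : (4 : ℤ) • Point.some x y h = 0) :
    y = 0 ∨ (x - e₁) ^ 2 = (e₁ - e₂) * (e₁ - e₃) ∨ (x - e₂) ^ 2 = (e₂ - e₁) * (e₂ - e₃) ∨
      (x - e₃) ^ 2 = (e₃ - e₁) * (e₃ - e₂) := by
  by_cases hy : y = 0
  · exact Or.inl hy
  right
  obtain ⟨x', y', h', hadd, h3, h1, h2⟩ := H.double h hy
  have hdd : Point.some x' y' h' + Point.some x' y' h' = 0 := by
    rw [← hadd, ← h4, show (4 : ℤ) = 2 + 2 by norm_num, add_zsmul, two_zsmul]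
  have hy' : y' = 0 := by
    by_contra hy'
    obtain ⟨x'', y'', h'', hadd', -⟩ := H.double h' hy'
    rw [hadd'] at hdd
    exact absurd hdd (Point.some_ne_zero _)
  have he := H.eq h'
  rw [hy', zero_pow two_ne_zero] at he
  rcases mul_eq_zero.mp he.symm with h4 | h4
  · rcases mul_eq_zero.mp h4 with h4 | h4
    · left
      rw [h4, zero_mul] at h1
      have := pow_eq_zero_iff (two_ne_zero) |>.mp h1.symm
      linear_combination this
    · right; left
      rw [h4, zero_mul] at h2
      have := pow_eq_zero_iff (two_ne_zero) |>.mp h2.symm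
      linear_combination this
  · right; right
    rw [h4, zero_mul] at h3
    have := pow_eq_zero_iff (two_ne_zero) |>.mp h3.symm
    linear_combination this

/-- the points of `E1` -/
theorem points_E1 (H : Hyp F) {x y : F}
    (hxy : y ^ 2 = (x + 102) * (x + 21) * (x - 123)) :
    (x = -102 ∧ y = 0) ∨ (x = -21 ∧ y = 0) ∨ (x = 123 ∧ y = 0) ∨
      (x = 303 ∧ (y = 4860 ∨ y = -4860)) ∨ (x = -57 ∧ (y = 540 ∨ y = -540)) := by
  have h : (E1⁄F).Nonsingular x y := full_E1.nonsingular (by rw [hxy]; ring)
  have hnsq := not_isSquare_neg_one H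
  have hsq : ∀ a : F, a ^ 2 ≠ -1 := fun a ha => hnsq ⟨a, by rw [← ha]; ring⟩
  rcases halves full_E1 h (four_E1 H _) with hy | h1 | h2 | h3
  · rw [hy, zero_pow two_ne_zero] at hxy
    rcases mul_eq_zero.mp hxy.symm with h4 | h4
    · rcases mul_eq_zero.mp h4 with h4 | h4
      · exact Or.inl ⟨by linear_combination h4, hy⟩
      · exact Or.inr (Or.inl ⟨by linear_combination h4, hy⟩)
    · exact Or.inr (Or.inr (Or.inl ⟨by linear_combination h4, hy⟩))
  · exfalso
    have h4 : (x - 33) * (x + 237) = 0 := by linear_combination h1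
    rcases mul_eq_zero.mp h4 with h5 | h5
    · have hx : x = 33 := by linear_combination h5
      rw [hx] at hxy
      apply hsq (y / 810)
      rw [div_pow, hxy]; norm_num
    · have hx : x = -237 := by linear_combination h5
      rw [hx] at hxy
      apply hsq (y / 3240)
      rw [div_pow, hxy]; norm_num
  · exfalso
    apply hsq ((x + 21) / 108)
    have h4 : (x + 21) ^ 2 = -11664 := by linear_combination h2
    rw [div_pow, h4]; norm_num
  · have h4 : (x - 303) * (x + 57) = 0 := by linear_combination h3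
    rcases mul_eq_zero.mp h4 with h5 | h5
    · have hx : x = 303 := by linear_combination h5
      refine Or.inr (Or.inr (Or.inr (Or.inl ⟨hx, ?_⟩)))
      rw [hx] at hxy
      have h6 : (y - 4860) * (y + 4860) = 0 := by linear_combination hxy
      rcases mul_eq_zero.mp h6 with h7 | h7
      · exact Or.inl (by linear_combination h7)
      · exact Or.inr (by linear_combination h7)
    · have hx : x = -57 := by linear_combination h5
      refine Or.inr (Or.inr (Or.inr (Or.inr ⟨hx, ?_⟩)))
      rw [hx] at hxy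
      have h6 : (y - 540) * (y + 540) = 0 := by linear_combination hxy
      rcases mul_eq_zero.mp h6 with h7 | h7
      · exact Or.inl (by linear_combination h7)
      · exact Or.inr (by linear_combination h7)

/-- the points of `E2` -/
theorem points_E2 (H : Hyp F) {x y : F}
    (hxy : y ^ 2 = (x - 51) * (x - 42) * (x + 93)) :
    (x = 51 ∧ y = 0) ∨ (x = 42 ∧ y = 0) ∨ (x = -93 ∧ y = 0) ∨
      (x = 87 ∧ (y = 540 ∨ y = -540)) ∨ (x = 15 ∧ (y = 324 ∨ y = -324)) := by
  have h : (E2⁄F).Nonsingular x y := full_E2.nonsingular (by rw [hxy]; ring)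
  rcases halves full_E2 h (four_E2 H _) with hy | h1 | h2 | h3
  · rw [hy, zero_pow two_ne_zero] at hxy
    rcases mul_eq_zero.mp hxy.symm with h4 | h4
    · rcases mul_eq_zero.mp h4 with h4 | h4
      · exact Or.inl ⟨by linear_combination h4, hy⟩
      · exact Or.inr (Or.inl ⟨by linear_combination h4, hy⟩)
    · exact Or.inr (Or.inr (Or.inl ⟨by linear_combination h4, hy⟩))
  · have h4 : (x - 87) * (x - 15) = 0 := by linear_combination h1
    rcases mul_eq_zero.mp h4 with h5 | h5
    · have hx : x = 87 := by linear_combination h5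
      refine Or.inr (Or.inr (Or.inr (Or.inl ⟨hx, ?_⟩)))
      rw [hx] at hxy
      have h6 : (y - 540) * (y + 540) = 0 := by linear_combination hxy
      rcases mul_eq_zero.mp h6 with h7 | h7
      · exact Or.inl (by linear_combination h7)
      · exact Or.inr (by linear_combination h7)
    · have hx : x = 15 := by linear_combination h5
      refine Or.inr (Or.inr (Or.inr (Or.inr ⟨hx, ?_⟩)))
      rw [hx] at hxy
      have h6 : (y - 324) * (y + 324) = 0 := by linear_combination hxy
      rcases mul_eq_zero.mp h6 with h7 | h7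
      · exact Or.inl (by linear_combination h7)
      · exact Or.inr (by linear_combination h7)
  · exfalso
    obtain ⟨φ⟩ := H.real
    have h4 : (x - 42) ^ 2 = -1215 := by linear_combination h2
    have h5 := congrArg φ h4
    rw [map_pow, map_neg, map_ofNat] at h5
    nlinarith [sq_nonneg (φ (x - 42))]
  · exfalso
    obtain ⟨φ⟩ := H.real
    have h4 : (x + 93) ^ 2 = 19440 := by linear_combination h3
    have h5 := congrArg φ h4
    rw [map_pow, map_ofNat] at h5
    set t := φ (x + 93) with ht
    have h6 := congrArg φ hxy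
    have h7 : (x - 51) * (x - 42) * (x + 93) = 38880 * (x + 93) - 5423760 := by
      linear_combination (x + 93 - 279) * h4
    rw [h7, map_sub, map_mul, map_pow, map_ofNat, map_ofNat, ← ht] at h6
    have h8 : t < 139.5 := by
      by_contra hge
      push Not at hge
      nlinarith
    nlinarith [sq_nonneg (φ y)]

end Pool.Agent.H42M
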