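import Mathlib

/-! # A complex conjugation on an algebraic closure of a real field (helper42) -/

namespace Pool.Agent.H42M

/-- complex conjugation -/
theorem exists_conj {F K : Type*} [Field F] [Field K] [Algebra F K] [Normal F K]
    (φ : F →+* ℝ) : ∃ c : K ≃ₐ[F] K, (∀ z, c (c z) = z) ∧ ∀ z : K, z ^ 2 = -3 → c z = -z := by
  let iF : Algebra F ℂ := (Complex.ofRealHom.comp φ).toAlgebra
  have halg : Algebra.IsAlgebraic F K := Normal.toIsAlgebraic
  let ι : K →ₐ[F] ℂ := IsAlgClosed.lift
  let iK : Algebra K ℂ := ι.toRingHom.toAlgebra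
  have htow : IsScalarTower F K ℂ := IsScalarTower.of_algebraMap_eq fun x => (ι.commutes x).symm
  let χ : ℂ ≃ₐ[F] ℂ := AlgEquiv.ofRingEquiv (f := (starRingAut : ℂ ≃+* ℂ)) (by
    intro x
    change (starRingEnd ℂ) ((φ x : ℝ) : ℂ) = ((φ x : ℝ) : ℂ)
    exact Complex.conj_ofReal _)
  have hχ : ∀ z, χ z = (starRingEnd ℂ) z := fun z => rfl
  let c : K ≃ₐ[F] K := χ.restrictNormal K
  have hc : ∀ z : K, algebraMap K ℂ (c z) = (starRingEnd ℂ) (algebraMap K ℂ z) := fun z =>
    χ.restrictNormal_commutes K z
  refine ⟨c, fun z => ?_, fun z hz => ?_⟩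
  · apply (algebraMap K ℂ).injective
    rw [hc, hc, Complex.conj_conj]
  · apply (algebraMap K ℂ).injective
    rw [hc, map_neg]
    set w := algebraMap K ℂ z with hw
    have hw2 : w ^ 2 = -3 := by
      rw [hw, ← map_pow, hz, map_neg, map_ofNat]
    have hre : w.re = 0 := by
      have h1 := congrArg Complex.re hw2
      have h2 := congrArg Complex.im hw2
      simp only [pow_two, Complex.mul_re, Complex.mul_im, Complex.neg_re, Complex.neg_im,
        Complex.re_ofNat, Complex.im_ofNat] at h1 h2
      have h3 : w.re * w.im = 0 := by linarith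
      rcases mul_eq_zero.mp h3 with h3 | h3
      · exact h3
      · rw [h3] at h1
        nlinarith [mul_self_nonneg w.re]
    apply Complex.ext
    · simp [hre]
    · simp

end Pool.Agent.H42M
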