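import Pool.Agent.H42M.ModTor
import Pool.Agent.H42M.ModConj

/-! # Abelian image on the 3-torsion (helper42) -/

namespace Pool.Agent.H42M

open WeierstrassCurve WeierstrassCurve.Affine

section Abstract

variable {M : Type*} [AddCommGroup M]

lemma coords {P Q R : M} (h : R = P ∨ R = -P ∨ R = Q ∨ R = -Q ∨ R = P + Q ∨ R = -(P + Q) ∨
    R = P - Q ∨ R = -(P - Q)) :
    ∃ a c : ℤ, (a = 0 ∨ Pm a) ∧ (c = 0 ∨ Pm c) ∧ R = a • P + c • Q := by
  have p0 : (0 : ℤ) = 0 ∨ Pm 0 := Or.inl rfl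
  have p1 : (1 : ℤ) = 0 ∨ Pm 1 := Or.inr (Or.inl rfl)
  have p2 : (-1 : ℤ) = 0 ∨ Pm (-1) := Or.inr (Or.inr rfl)
  rcases h with rfl | rfl | rfl | rfl | rfl | rfl | rfl | rfl
  · exact ⟨1, 0, p1, p0, by module⟩
  · exact ⟨-1, 0, p2, p0, by module⟩
  · exact ⟨0, 1, p0, p1, by module⟩
  · exact ⟨0, -1, p0, p2, by module⟩
  · exact ⟨1, 1, p1, p1, by module⟩
  · exact ⟨-1, -1, p2, p2, by module⟩
  · exact ⟨1, -1, p1, p2, by module⟩
  · exact ⟨-1, 1, p2, p1, by module⟩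

lemma smul_mod {P : M} (h3 : P + P = -P) (a : ℤ) : a • P = (a % 3) • P := by
  conv_lhs => rw [← Int.emod_add_mul_ediv a 3]
  have h : (3 : ℤ) • P = 0 := by
    have : (3 : ℤ) • P = P + P + P := by module
    rw [this, h3, neg_add_cancel]
  rw [add_zsmul, mul_comm, mul_zsmul, h, zsmul_zero, add_zero]

lemma indep {P Q : M} (hP : P ≠ 0) (hQ : Q ≠ 0) (hP3 : P + P = -P) (hQ3 : Q + Q = -Q)
    (h1 : P ≠ Q) (h2 : P ≠ -Q) (x y : ℤ) (h : x • P + y • Q = 0) : 3 ∣ x ∧ 3 ∣ y := by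
  rw [smul_mod hP3, smul_mod hQ3] at h
  have hx := Int.emod_nonneg x (show (3 : ℤ) ≠ 0 by norm_num)
  have hx' := Int.emod_lt_of_pos x (show (0 : ℤ) < 3 by norm_num)
  have hy := Int.emod_nonneg y (show (3 : ℤ) ≠ 0 by norm_num)
  have hy' := Int.emod_lt_of_pos y (show (0 : ℤ) < 3 by norm_num)
  have t2 : ∀ R : M, (2 : ℤ) • R = R + R := fun R => two_zsmul R
  rcases (show x % 3 = 0 ∨ x % 3 = 1 ∨ x % 3 = 2 by omega) with hx1 | hx1 | hx1 <;>
  rcases (show y % 3 = 0 ∨ y % 3 = 1 ∨ y % 3 = 2 by omega) with hy1 | hy1 | hy1 <;>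
  rw [hx1, hy1] at h <;>
  simp only [zero_zsmul, one_zsmul, t2, hP3, hQ3, zero_add, add_zero, neg_eq_zero] at h
  · exact ⟨Int.dvd_of_emod_eq_zero hx1, Int.dvd_of_emod_eq_zero hy1⟩
  · exact absurd h hQ
  · exact absurd h hQ
  · exact absurd h hP
  · exact absurd (eq_neg_of_add_eq_zero_left h) h2
  · exact absurd (add_neg_eq_zero.mp h) h1
  · exact absurd h hP
  · exact absurd (neg_add_eq_zero.mp h) h1
  · exfalso
    apply h2
    have : P = -(-P + -Q) - Q := by abel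
    rw [this, h]; abel

end Abstract

section Gal

variable {F K : Type*} [Field F] [Field K] [DecidableEq K] [Algebra F K] {W : WeierstrassCurve F}

lemma act_mul (σ τ : K ≃ₐ[F] K) (R : (WeierstrassCurve.Affine.baseChange W K).Point) :
    act W (σ * τ) R = act W σ (act W τ R) := by
  rw [act, act, act, Point.map_map]
  rfl

lemma act_Xof (σ : K ≃ₐ[F] K) {R : (WeierstrassCurve.Affine.baseChange W K).Point} {X : K}
    (h : Xof R X) : Xof (act W σ R) (σ X) := by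
  obtain ⟨x, y, h, rfl, rfl⟩ := h
  refine ⟨σ x, σ y, _, Point.map_some (W' := W) (σ : K →ₐ[F] K) h, ?_⟩
  have hb : (WeierstrassCurve.Affine.baseChange W K).b₂ = algebraMap F K W.b₂ := W.map_b₂ _
  rw [hb, map_add, map_mul, map_mul, map_ofNat, map_ofNat, AlgEquiv.commutes]

lemma act_X_eq (σ : K ≃ₐ[F] K) {R R' : (WeierstrassCurve.Affine.baseChange W K).Point} {X X' : K}
    (h : Xof R X) (h' : Xof R' X') (he : act W σ R = R' ∨ act W σ R = -R') : σ X = X' := by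
  rcases he with he | he
  · have := act_Xof σ h
    rw [he] at this
    exact this.unique h'
  · have := act_Xof σ h
    rw [he] at this
    exact this.unique h'.neg

lemma act_one (R : (WeierstrassCurve.Affine.baseChange W K).Point) :
    act W (1 : K ≃ₐ[F] K) R = R := by
  rcases R with _ | ⟨x, y, h⟩ <;> rfl

lemma act_injective (σ : K ≃ₐ[F] K) : Function.Injective (act W σ) :=
  Point.map_injective (W' := W) (σ : K →ₐ[F] K)

lemma pm_smul {M : Type*} [AddCommGroup M] {n : ℤ} (hn : Pm n) {R R' : M} (h : R = n • R') :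
    R = R' ∨ R = -R' := by
  rcases hn with rfl | rfl
  · left; rw [h, one_zsmul]
  · right; rw [h, neg_one_zsmul]

theorem abelian_cases [CharZero K] [IsAlgClosed K]
    [(WeierstrassCurve.Affine.baseChange W K).IsElliptic]
    (hdisc : 4 * (-27 * W.c₄) ^ 3 + 27 * (-54 * W.c₆) ^ 2 ≠ 0)
    (c : K ≃ₐ[F] K) (hcc : ∀ z, c (c z) = z) (hc3 : ∀ z : K, z ^ 2 = -3 → c z = -z)
    (hab : ∀ σ τ : K ≃ₐ[F] K, (∀ z : K, z ^ 2 = -3 → σ z = z ∧ τ z = z) →
      ∀ R : (WeierstrassCurve.Affine.baseChange W K).Point, R + R = -R →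
        act W σ (act W τ R) = act W τ (act W σ R)) :
    ∃ X₁ X₂ : K, X₁ ≠ X₂ ∧ Psi (WeierstrassCurve.Affine.baseChange W K) X₁ ∧
      Psi (WeierstrassCurve.Affine.baseChange W K) X₂ ∧
      ((∀ σ : K ≃ₐ[F] K, σ X₁ = X₁) ∨ (∀ σ : K ≃ₐ[F] K, σ X₂ = X₂) ∨
        ∀ σ : K ≃ₐ[F] K, (σ X₁ = X₁ ∧ σ X₂ = X₂) ∨ (σ X₁ = X₂ ∧ σ X₂ = X₁)) := by
  have hc4 : (WeierstrassCurve.Affine.baseChange W K).c₄ = algebraMap F K W.c₄ := W.map_c₄ _
  have hc6 : (WeierstrassCurve.Affine.baseChange W K).c₆ = algebraMap F K W.c₆ := W.map_c₆ _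
  set κ : F := 4 * (-27 * W.c₄) ^ 3 + 27 * (-54 * W.c₆) ^ 2 with hκ
  have hκK : 4 * (-27 * (WeierstrassCurve.Affine.baseChange W K).c₄) ^ 3 +
      27 * (-54 * (WeierstrassCurve.Affine.baseChange W K).c₆) ^ 2 = algebraMap F K κ := by
    rw [hκ, hc4, hc6]
    simp only [map_add, map_mul, map_pow, map_neg, map_ofNat]
  have hκ0 : algebraMap F K κ ≠ 0 := by
    intro h0
    exact hdisc ((map_eq_zero _).mp h0)
  obtain ⟨s, hs⟩ := IsAlgClosed.exists_pow_nat_eq (-3 : K) (n := 2) two_pos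
  -- the sign
  have hsign : ∀ {X₁ X₂ X₃ X₄ : K}, dlt X₁ X₂ X₃ X₄ ≠ 0 → 27 * dlt X₁ X₂ X₃ X₄ ^ 2 =
      -256 * (4 * (-27 * (WeierstrassCurve.Affine.baseChange W K).c₄) ^ 3 +
      27 * (-54 * (WeierstrassCurve.Affine.baseChange W K).c₆) ^ 2) ^ 2 →
      (∀ σ : K ≃ₐ[F] K, σ s = s → σ (dlt X₁ X₂ X₃ X₄) = dlt X₁ X₂ X₃ X₄) ∧
      c (dlt X₁ X₂ X₃ X₄) = -dlt X₁ X₂ X₃ X₄ := by
    intro X₁ X₂ X₃ X₄ h0 h1
    rw [hκK] at h1
    have h2 : (9 * dlt X₁ X₂ X₃ X₄ - 16 * algebraMap F K κ * s) *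
        (9 * dlt X₁ X₂ X₃ X₄ + 16 * algebraMap F K κ * s) = 0 := by
      linear_combination 3 * h1 - 256 * algebraMap F K κ ^ 2 * hs
    obtain ⟨q, hq⟩ : ∃ q : F, dlt X₁ X₂ X₃ X₄ = algebraMap F K q * s := by
      rcases mul_eq_zero.mp h2 with h2 | h2
      · refine ⟨16 * κ / 9, ?_⟩
        rw [map_div₀, map_mul, map_ofNat, map_ofNat]
        linear_combination h2 / 9
      · refine ⟨-(16 * κ / 9), ?_⟩
        rw [map_neg, map_div₀, map_mul, map_ofNat, map_ofNat]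
        linear_combination h2 / 9
    constructor
    · intro σ hσ
      rw [hq, map_mul, AlgEquiv.commutes, hσ]
    · rw [hq, map_mul, AlgEquiv.commutes, hc3 s hs]
      ring
  have hdisc' : 4 * (-27 * (WeierstrassCurve.Affine.baseChange W K).c₄) ^ 3 +
      27 * (-54 * (WeierstrassCurve.Affine.baseChange W K).c₆) ^ 2 ≠ 0 := by
    rw [hκK]; exact hκ0
  have hcc' : ∀ R : (WeierstrassCurve.Affine.baseChange W K).Point, act W c (act W c R) = R := by
    intro R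
    rw [← act_mul, show c * c = 1 from AlgEquiv.ext hcc, act_one]
  obtain ⟨R₁, R₂, hR₁, hR₂, hR₁3, hR₂3, hn1, hn2⟩ :=
    exists_pair (W := WeierstrassCurve.Affine.baseChange W K) hdisc'
  obtain ⟨Y₁, Y₂, Y₃, Y₄, hY₁, hY₂, hY₃, hY₄, hd0, hd2, -⟩ := frame hR₁ hR₂ hR₁3 hR₂3 hn1 hn2
  have htor : ∀ {R R' : (WeierstrassCurve.Affine.baseChange W K).Point}, R + R = -R →
      R' + R' = -R' → (R + R') + (R + R') = -(R + R') := by
    intro R R' h h'
    rw [neg_add, ← h, ← h']; abel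
  have htorn : ∀ {R R' : (WeierstrassCurve.Affine.baseChange W K).Point}, R + R = -R →
      R' + R' = -R' → (R - R') + (R - R') = -(R - R') := by
    intro R R' h h'
    have : -(R - R') = -R - (-R') := by abel
    rw [this, ← h, ← h']; abel
  have htora : ∀ (σ : K ≃ₐ[F] K) {R : (WeierstrassCurve.Affine.baseChange W K).Point},
      R + R = -R → act W σ R + act W σ R = -act W σ R := by
    intro σ R h
    rw [← map_add, h, map_neg]
  have hnofix : ¬ (c Y₁ = Y₁ ∧ c Y₂ = Y₂ ∧ c Y₃ = Y₃ ∧ c Y₄ = Y₄) := by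
    rintro ⟨h1, h2, h3, h4⟩
    have h5 := (hsign hd0 hd2).2
    have h6 : c (dlt Y₁ Y₂ Y₃ Y₄) = dlt Y₁ Y₂ Y₃ Y₄ := by
      simp only [dlt, map_mul, map_sub, h1, h2, h3, h4]
    rw [h6] at h5
    apply hd0
    linear_combination h5 / 2
  obtain ⟨R, hR3, hR⟩ : ∃ R : (WeierstrassCurve.Affine.baseChange W K).Point,
      R + R = -R ∧ R + act W c R ≠ 0 := by
    by_contra hcon
    push Not at hcon
    have key : ∀ {R : (WeierstrassCurve.Affine.baseChange W K).Point} {X : K}, R + R = -R →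
        Xof R X → c X = X := by
      intro R X h3 hX
      exact act_X_eq c hX hX (Or.inr (eq_neg_of_add_eq_zero_right (hcon R h3)))
    exact hnofix ⟨key hR₁3 hY₁, key hR₂3 hY₂, key (htor hR₁3 hR₂3) hY₃, key (htorn hR₁3 hR₂3) hY₄⟩
  obtain ⟨R', hR'3, hR'⟩ : ∃ R : (WeierstrassCurve.Affine.baseChange W K).Point,
      R + R = -R ∧ R - act W c R ≠ 0 := by
    by_contra hcon
    push Not at hcon
    have key : ∀ {R : (WeierstrassCurve.Affine.baseChange W K).Point} {X : K}, R + R = -R →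
        Xof R X → c X = X := by
      intro R X h3 hX
      exact act_X_eq c hX hX (Or.inl (sub_eq_zero.mp (hcon R h3)).symm)
    exact hnofix ⟨key hR₁3 hY₁, key hR₂3 hY₂, key (htor hR₁3 hR₂3) hY₃, key (htorn hR₁3 hR₂3) hY₄⟩
  obtain ⟨P, hPdef⟩ : ∃ P, P = R + act W c R := ⟨_, rfl⟩
  obtain ⟨Q, hQdef⟩ : ∃ Q, Q = R' - act W c R' := ⟨_, rfl⟩
  rw [← hPdef] at hR
  rw [← hQdef] at hR'
  have hP3 : P + P = -P := by rw [hPdef]; exact htor hR3 (htora c hR3)
  have hQ3 : Q + Q = -Q := by rw [hQdef]; exact htorn hR'3 (htora c hR'3)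
  have hcP : act W c P = P := by rw [hPdef, map_add, hcc', add_comm]
  have hcQ : act W c Q = -Q := by rw [hQdef, map_sub, hcc', neg_sub]
  have hPQ : P ≠ Q := by
    rintro rfl
    rw [hcP] at hcQ
    have h1 : P + P = 0 := by nth_rewrite 1 [hcQ]; exact neg_add_cancel P
    rw [hP3] at h1
    exact hR (neg_eq_zero.mp h1)
  have hPQ' : P ≠ -Q := by
    intro h
    rw [h, map_neg, hcQ, neg_neg] at hcP
    have h1 : Q + Q = 0 := by nth_rewrite 1 [hcP]; exact neg_add_cancel Q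
    rw [hQ3] at h1
    exact hR' (neg_eq_zero.mp h1)
  obtain ⟨X₁, X₂, X₃, X₄, hX₁, hX₂, hX₃, hX₄, hD0, hD2, hspan⟩ := frame hR hR' hP3 hQ3 hPQ hPQ'
  obtain ⟨hsg, -⟩ := hsign hD0 hD2
  have hX12 : X₁ ≠ X₂ := by
    rintro rfl
    rcases hX₁.eq_or hX₂ with h | h
    · exact hPQ h
    · exact hPQ' h
  have hcX₁ : c X₁ = X₁ := act_X_eq c hX₁ hX₁ (Or.inl hcP)
  have hcX₂ : c X₂ = X₂ := act_X_eq c hX₂ hX₂ (Or.inr hcQ)
  have hind := indep hR hR' hP3 hQ3 hPQ hPQ'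
  refine ⟨X₁, X₂, hX12, hX₁.psi hP3, hX₂.psi hQ3, ?_⟩
  have hcs : c s = -s := hc3 s hs
  have hs' : ∀ z : K, z ^ 2 = -3 → z = s ∨ z = -s := by
    intro z hz
    have : (z - s) * (z + s) = 0 := by linear_combination hz - hs
    rcases mul_eq_zero.mp this with h | h
    · left; exact sub_eq_zero.mp h
    · right; exact eq_neg_of_add_eq_zero_left h
  have hab' : ∀ σ τ : K ≃ₐ[F] K, σ s = s → τ s = s →
      ∀ R : (WeierstrassCurve.Affine.baseChange W K).Point, R + R = -R →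
        act W σ (act W τ R) = act W τ (act W σ R) := by
    intro σ τ h1 h2 R h3
    refine hab σ τ (fun z hz => ?_) R h3
    rcases hs' z hz with rfl | rfl
    · exact ⟨h1, h2⟩
    · rw [map_neg, map_neg, h1, h2]
      exact ⟨rfl, rfl⟩
  -- classification of the elements fixing the square root of -3
  have hcl : ∀ σ : K ≃ₐ[F] K, σ s = s → TD P Q (act W σ) ∨ TB P Q (act W σ) ∨
      TC P Q (act W σ) ∨ TR P Q (act W σ) := by
    intro σ hσ
    have hσP0 : act W σ P ≠ 0 := fun h0 => hR ((map_eq_zero_iff _ (act_injective σ)).mp h0)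
    have hσQ0 : act W σ Q ≠ 0 := fun h0 => hR' ((map_eq_zero_iff _ (act_injective σ)).mp h0)
    obtain ⟨a, c', ha, hc', hfP⟩ := coords (hspan _ hσP0 (htora σ hP3))
    obtain ⟨b, d, hb, hd, hfQ⟩ := coords (hspan _ hσQ0 (htora σ hQ3))
    have hτs : (c * σ * c) s = s := by
      rw [AlgEquiv.mul_apply, AlgEquiv.mul_apply, hcs, map_neg, hσ, map_neg, hcs, neg_neg]
    have hgP : act W (c * σ * c) P = a • P - c' • Q := by
      rw [act_mul, act_mul, hcP, hfP, map_add, map_zsmul, map_zsmul, hcP, hcQ]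
      module
    have hgQ : act W (c * σ * c) Q = -(b • P) + d • Q := by
      rw [act_mul, act_mul, hcQ, map_neg, hfQ, map_neg, map_add, map_zsmul, map_zsmul, hcP, hcQ]
      module
    refine classify hind (fun x y h => ?_) ha hb hc' hd hfP hfQ hgP hgQ
      (hab' _ _ hσ hτs P hP3) (hab' _ _ hσ hτs Q hQ3) ?_ ?_
    · exact hind x y ((map_eq_zero_iff _ (act_injective σ)).mp h)
    · rintro ⟨n, hn, h1, h2⟩
      have e1 : σ X₁ = X₂ := act_X_eq σ hX₁ hX₂ (pm_smul hn h1)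
      have e2 : σ X₂ = X₁ := act_X_eq σ hX₂ hX₁ (pm_smul hn h2)
      have e3 : σ X₃ = X₃ := act_X_eq σ hX₃ hX₃ (pm_smul hn (by rw [map_add, h1, h2]; module))
      have hn' : Pm (-n) := by
        rcases hn with rfl | rfl
        · right; rfl
        · left; norm_num
      have e4 : σ X₄ = X₄ := act_X_eq σ hX₄ hX₄ (pm_smul hn' (by rw [map_sub, h1, h2]; module))
      have h3 := hsg σ hσ
      simp only [dlt, map_mul, map_sub, e1, e2, e3, e4] at h3
      apply hD0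
      rw [dlt]
      linear_combination -h3 / 2
    · rintro ⟨e, n, he, hn, h1, h2⟩
      have h3 := hsg σ hσ
      have hP2 : (2 : ℤ) • P = -P := by rw [two_zsmul, hP3]
      have hQ2 : (2 : ℤ) • Q = -Q := by rw [two_zsmul, hQ3]
      apply hD0
      rcases he with rfl | rfl <;> rcases hn with rfl | rfl
      · have e1 : σ X₁ = X₄ := act_X_eq σ hX₁ hX₄ (Or.inl (by rw [h1]; module))
        have e2 : σ X₂ = X₃ := act_X_eq σ hX₂ hX₃ (Or.inl (by rw [h2]; module))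
        have e3 : σ X₃ = X₁ := act_X_eq σ hX₃ hX₁ (Or.inr (by
          rw [map_add, h1, h2]
          refine Eq.trans (b := (2 : ℤ) • P) (by module) ?_
          rw [hP2]))
        have e4 : σ X₄ = X₂ := act_X_eq σ hX₄ hX₂ (Or.inl (by
          rw [map_sub, h1, h2]
          refine Eq.trans (b := -((2 : ℤ) • Q)) (by module) ?_
          rw [hQ2, neg_neg]))
        simp only [dlt, map_mul, map_sub, e1, e2, e3, e4] at h3
        rw [dlt]
        linear_combination -h3 / 2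
      · have e1 : σ X₁ = X₃ := act_X_eq σ hX₁ hX₃ (Or.inl (by rw [h1]; module))
        have e2 : σ X₂ = X₄ := act_X_eq σ hX₂ hX₄ (Or.inr (by rw [h2]; module))
        have e3 : σ X₃ = X₂ := act_X_eq σ hX₃ hX₂ (Or.inr (by
          rw [map_add, h1, h2]
          refine Eq.trans (b := (2 : ℤ) • Q) (by module) ?_
          rw [hQ2]))
        have e4 : σ X₄ = X₁ := act_X_eq σ hX₄ hX₁ (Or.inr (by
          rw [map_sub, h1, h2]
          refine Eq.trans (b := (2 : ℤ) • P) (by module) ?_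
          rw [hP2]))
        simp only [dlt, map_mul, map_sub, e1, e2, e3, e4] at h3
        rw [dlt]
        linear_combination -h3 / 2
      · have e1 : σ X₁ = X₃ := act_X_eq σ hX₁ hX₃ (Or.inr (by rw [h1]; module))
        have e2 : σ X₂ = X₄ := act_X_eq σ hX₂ hX₄ (Or.inl (by rw [h2]; module))
        have e3 : σ X₃ = X₂ := act_X_eq σ hX₃ hX₂ (Or.inl (by
          rw [map_add, h1, h2]
          refine Eq.trans (b := -((2 : ℤ) • Q)) (by module) ?_
          rw [hQ2, neg_neg]))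
        have e4 : σ X₄ = X₁ := act_X_eq σ hX₄ hX₁ (Or.inl (by
          rw [map_sub, h1, h2]
          refine Eq.trans (b := -((2 : ℤ) • P)) (by module) ?_
          rw [hP2, neg_neg]))
        simp only [dlt, map_mul, map_sub, e1, e2, e3, e4] at h3
        rw [dlt]
        linear_combination -h3 / 2
      · have e1 : σ X₁ = X₄ := act_X_eq σ hX₁ hX₄ (Or.inr (by rw [h1]; module))
        have e2 : σ X₂ = X₃ := act_X_eq σ hX₂ hX₃ (Or.inr (by rw [h2]; module))
        have e3 : σ X₃ = X₁ := act_X_eq σ hX₃ hX₁ (Or.inl (by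
          rw [map_add, h1, h2]
          refine Eq.trans (b := -((2 : ℤ) • P)) (by module) ?_
          rw [hP2, neg_neg]))
        have e4 : σ X₄ = X₂ := act_X_eq σ hX₄ hX₂ (Or.inr (by
          rw [map_sub, h1, h2]
          refine Eq.trans (b := (2 : ℤ) • Q) (by module) ?_
          rw [hQ2]))
        simp only [dlt, map_mul, map_sub, e1, e2, e3, e4] at h3
        rw [dlt]
        linear_combination -h3 / 2
  -- reduction to the elements fixing the square root of -3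
  have hred : ∀ σ : K ≃ₐ[F] K, ∃ τ : K ≃ₐ[F] K, τ s = s ∧ σ X₁ = τ X₁ ∧ σ X₂ = τ X₂ := by
    intro σ
    have h1 : (σ s) ^ 2 = -3 := by rw [← map_pow, hs, map_neg, map_ofNat]
    rcases hs' _ h1 with h2 | h2
    · exact ⟨σ, h2, rfl, rfl⟩
    · refine ⟨σ * c, ?_, ?_, ?_⟩
      · rw [AlgEquiv.mul_apply, hcs, map_neg, h2, neg_neg]
      · rw [AlgEquiv.mul_apply, hcX₁]
      · rw [AlgEquiv.mul_apply, hcX₂]
  have hxD : ∀ σ : K ≃ₐ[F] K, TD P Q (act W σ) → σ X₁ = X₁ ∧ σ X₂ = X₂ := by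
    rintro σ ⟨e, d, he, hd, h1, h2⟩
    exact ⟨act_X_eq σ hX₁ hX₁ (pm_smul he h1), act_X_eq σ hX₂ hX₂ (pm_smul hd h2)⟩
  by_cases hR0 : ∃ ρ : K ≃ₐ[F] K, ρ s = s ∧ TR P Q (act W ρ)
  · obtain ⟨ρ, hρ, hρR⟩ := hR0
    right; right
    intro σ
    obtain ⟨τ, hτ, h1, h2⟩ := hred σ
    rw [h1, h2]
    rcases hcl τ hτ with h | h | h | h
    · exact Or.inl (hxD τ h)
    · exact (not_TR_TB hind hρR h (hab' _ _ hρ hτ P hP3)).elim
    · exact (not_TR_TC hind hρR h (hab' _ _ hρ hτ Q hQ3)).elim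
    · obtain ⟨n, hn, h3, h4⟩ := h
      have hn' : Pm (-n) := by
        rcases hn with rfl | rfl
        · right; rfl
        · left; norm_num
      exact Or.inr ⟨act_X_eq τ hX₁ hX₂ (pm_smul hn h3),
        act_X_eq τ hX₂ hX₁ (pm_smul hn' (by rw [h4, neg_zsmul]))⟩
  · push Not at hR0
    by_cases hB0 : ∃ ρ : K ≃ₐ[F] K, ρ s = s ∧ TB P Q (act W ρ)
    · obtain ⟨ρ, hρ, hρB⟩ := hB0
      left
      intro σ
      obtain ⟨τ, hτ, h1, -⟩ := hred σ
      rw [h1]
      rcases hcl τ hτ with h | h | h | h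
      · exact (hxD τ h).1
      · obtain ⟨e, n, he, -, h3, -⟩ := h
        exact act_X_eq τ hX₁ hX₁ (pm_smul he h3)
      · exact (not_TB_TC hind hρB h (hab' _ _ hρ hτ P hP3)).elim
      · exact absurd h (hR0 τ hτ)
    · push Not at hB0
      right; left
      intro σ
      obtain ⟨τ, hτ, -, h2⟩ := hred σ
      rw [h2]
      rcases hcl τ hτ with h | h | h | h
      · exact (hxD τ h).2
      · exact absurd h (hB0 τ hτ)
      · obtain ⟨e, n, he, -, -, h4⟩ := h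
        exact act_X_eq τ hX₂ hX₂ (pm_smul he h4)
      · exact absurd h (hR0 τ hτ)

end Gal

end Pool.Agent.H42M
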