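import Pool.Agent.H42M.ModMain
import Pool.Agent.H42M.Points

/-! # The moduli form over totally real fields of odd narrow class number (helper42) -/

namespace Pool.Agent.H42M

open NumberField WeierstrassCurve WeierstrassCurve.Affine

variable {F : Type*} [Field F] [NumberField F]

open UniqueFactorizationMonoid in
lemma sq_ne_five (h5 : Nonsplit F 5) (t : F) : t ^ 2 ≠ 5 := by
  classical
  intro ht
  obtain ⟨P, hP, k, hk, he⟩ := h5
  have hint : IsIntegral ℤ t := by
    refine IsIntegral.of_pow (n := 2) two_pos ?_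
    rw [ht]
    have h := isIntegral_algebraMap (R := ℤ) (A := F) (x := (5 : ℤ))
    simpa using h
  obtain ⟨a, ha⟩ : ∃ a : 𝓞 F, algebraMap (𝓞 F) F a = t := ⟨⟨t, hint⟩, rfl⟩
  have ha2 : a ^ 2 = (5 : ℕ) := by
    apply RingOfIntegers.coe_injective
    rw [map_pow, map_natCast, ha, ht]
    norm_num
  have hI : Ideal.span {a} ^ 2 = P ^ k := by
    rw [Ideal.span_singleton_pow, ha2, he]
  have hP0 : P ≠ ⊥ := by
    rintro rfl
    rw [← Ideal.zero_eq_bot, zero_pow hk.pos.ne', Ideal.zero_eq_bot,
      Ideal.span_singleton_eq_bot] at he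
    exact absurd he (by norm_num)
  have hirr : Irreducible P := (Ideal.prime_of_isPrime hP0 hP).irreducible
  have hc := congrArg (fun I => Multiset.card (normalizedFactors I)) hI
  simp only [normalizedFactors_pow, Multiset.card_nsmul, normalizedFactors_irreducible hirr,
    Multiset.card_singleton, mul_one] at hc
  rcases hk with ⟨m, hm⟩
  omega

variable [IsTotallyReal F]

lemma sum_ne_zero_of_real (m : F) : m ^ 2 + 12 * m + 144 ≠ 0 := by
  obtain ⟨φ⟩ := exists_real F
  intro h0
  have h1 := congrArg φ h0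
  simp only [map_add, map_mul, map_pow, map_ofNat, map_zero] at h1
  nlinarith [sq_nonneg (φ m + 6)]

variable [DecidableEq F]

lemma seven1 (H : Hyp F) : Seven1 F := by
  intro x y h
  have h1 := points_E1 H (x := 36 * x + 15) (y := 108 * (2 * y + x + 1)) (by
    linear_combination (46656 : F) * h)
  rcases h1 with ⟨h1, h2⟩ | ⟨h1, h2⟩ | ⟨h1, h2⟩ | ⟨h1, h2⟩ | ⟨h1, h2⟩
  · have hx : x = -13 / 4 := by linear_combination h1 / 36
    refine Or.inr (Or.inr (Or.inl ⟨hx, ?_⟩))
    rw [hx] at h2
    linear_combination h2 / 216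
  · have hx : x = -1 := by linear_combination h1 / 36
    refine Or.inl ⟨hx, ?_⟩
    rw [hx] at h2
    linear_combination h2 / 216
  · have hx : x = 3 := by linear_combination h1 / 36
    refine Or.inr (Or.inl ⟨hx, ?_⟩)
    rw [hx] at h2
    linear_combination h2 / 216
  · have hx : x = 8 := by linear_combination h1 / 36
    refine Or.inr (Or.inr (Or.inr (Or.inl ⟨hx, ?_⟩)))
    rw [hx] at h2
    rcases h2 with h2 | h2
    · exact Or.inl (by linear_combination h2 / 216)
    · exact Or.inr (by linear_combination h2 / 216)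
  · have hx : x = -2 := by linear_combination h1 / 36
    refine Or.inr (Or.inr (Or.inr (Or.inr ⟨hx, ?_⟩)))
    rw [hx] at h2
    rcases h2 with h2 | h2
    · exact Or.inl (by linear_combination h2 / 216)
    · exact Or.inr (by linear_combination h2 / 216)

lemma seven2 (H : Hyp F) : Seven2 F := by
  intro x y h
  have h1 := points_E2 H (x := 36 * x + 15) (y := 108 * (2 * y + x + 1)) (by
    linear_combination (46656 : F) * h)
  rcases h1 with ⟨h1, h2⟩ | ⟨h1, h2⟩ | ⟨h1, h2⟩ | ⟨h1, h2⟩ | ⟨h1, h2⟩
  · have hx : x = 1 := by linear_combination h1 / 36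
    refine Or.inl ⟨hx, ?_⟩
    rw [hx] at h2
    linear_combination h2 / 216
  · have hx : x = 3 / 4 := by linear_combination h1 / 36
    refine Or.inr (Or.inr (Or.inl ⟨hx, ?_⟩))
    rw [hx] at h2
    linear_combination h2 / 216
  · have hx : x = -3 := by linear_combination h1 / 36
    refine Or.inr (Or.inl ⟨hx, ?_⟩)
    rw [hx] at h2
    linear_combination h2 / 216
  · have hx : x = 2 := by linear_combination h1 / 36
    refine Or.inr (Or.inr (Or.inr (Or.inl ⟨hx, ?_⟩)))
    rw [hx] at h2
    rcases h2 with h2 | h2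
    · exact Or.inl (by linear_combination h2 / 216)
    · exact Or.inr (by linear_combination h2 / 216)
  · have hx : x = 0 := by linear_combination h1 / 36
    refine Or.inr (Or.inr (Or.inr (Or.inr ⟨hx, ?_⟩)))
    rw [hx] at h2
    rcases h2 with h2 | h2
    · exact Or.inl (by linear_combination h2 / 216)
    · exact Or.inr (by linear_combination h2 / 216)

end Pool.Agent.H42M
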