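import Mathlib

/-! # Counting modulo squares in a finitely generated abelian group (helper42) -/

namespace Pool.Agent.H42M

open Module Submodule

/-- a finitely generated abelian group of rank at least `m` with an element of order 2 has more
than `2 ^ m` classes modulo 2 -/
theorem count_contra {M : Type*} [AddCommGroup M] [Module.Finite ℤ M] {m : ℕ}
    (hrank : m ≤ finrank ℤ M) (ζ : M) (hζ : ζ ≠ 0) (hζ2 : ζ + ζ = 0) {S : Type*} [Fintype S]
    (hS : Fintype.card S ≤ 2 ^ m) (f : M → S) (hf : ∀ a b, f a = f b → ∃ c, a = b + (c + c)) :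
    False := by
  classical
  set T := torsion ℤ M with hT
  -- the torsion is finite
  have hTfin : Finite T := by
    have : Module.IsTorsion ℤ T := torsion_isTorsion
    exact Module.finite_of_fg_torsion T this
  have memT : ∀ {a : M} {n : ℤ}, n ≠ 0 → n • a = 0 → a ∈ T := by
    intro a n hn ha
    rw [hT, mem_torsion_iff]
    exact ⟨⟨n, mem_nonZeroDivisors_of_ne_zero hn⟩, ha⟩
  -- an element of the torsion which is not divisible by two
  obtain ⟨t, ht, ht2⟩ : ∃ t ∈ T, ∀ c : M, c + c ≠ t := by
    by_contra hcon
    push Not at hcon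
    have hsurj : Function.Surjective fun a : T => a + a := by
      rintro ⟨t, ht⟩
      obtain ⟨c, hc⟩ := hcon t ht
      have hcT : c ∈ T := by
        rw [hT, mem_torsion_iff] at ht ⊢
        obtain ⟨⟨n, hn⟩, hnt⟩ := ht
        refine ⟨⟨n * 2, mul_mem hn (mem_nonZeroDivisors_of_ne_zero two_ne_zero)⟩, ?_⟩
        change (n * 2) • c = 0
        rw [mul_smul, two_smul, hc]
        exact hnt
      exact ⟨⟨c, hcT⟩, Subtype.ext hc⟩
    have hinj := Finite.injective_iff_surjective.mpr hsurj
    have hζT : ζ ∈ T := memT (n := 2) two_ne_zero (by rw [two_smul, hζ2])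
    have h1 : (⟨ζ, hζT⟩ : T) = 0 := hinj (Subtype.ext (by simpa using hζ2))
    exact hζ (congrArg Subtype.val h1)
  -- the free quotient
  set N := M ⧸ T with hN
  have hfree : Module.Free ℤ N := inferInstance
  have hfr : finrank ℤ N = finrank ℤ M := finrank_quotient_eq_of_le_torsion le_rfl
  set b := Module.finBasis ℤ N with hb
  set ρ := finrank ℤ N with hρ
  have hlift : ∀ z : Fin ρ → Bool, ∃ a : M, (mkQ T a : N) = ∑ i, (if z i then (1 : ℤ) else 0) • b i :=
    fun z => mkQ_surjective T _
  choose e he using hlift
  set g : Option (Fin ρ → Bool) → M := fun o => match o with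
    | none => e (fun _ => false) + t
    | some z => e z with hg
  have hmkt : mkQ T t = 0 := by
    rw [mkQ_apply, Quotient.mk_eq_zero]; exact ht
  have hval : ∀ z z' : Fin ρ → Bool, (∃ c : M, mkQ T (e z) = mkQ T (e z') + (mkQ T c + mkQ T c)) →
      z = z' := by
    rintro z z' ⟨c, hc⟩
    rw [he, he] at hc
    funext i
    have h1 := congrArg (fun x => b.repr x i) hc
    simp only [map_sum, map_add, map_smul, Finsupp.coe_finsetSum, Finsupp.coe_smul,
      Finset.sum_apply, Pi.smul_apply, Finsupp.add_apply, Basis.repr_self,
      Finsupp.single_apply, smul_eq_mul, mul_ite, mul_one, mul_zero, Finset.sum_ite_eq',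
      Finset.mem_univ, if_true] at h1
    cases hz : z i <;> cases hz' : z' i <;> simp [hz, hz'] at h1 ⊢
    · omega
    · omega
  have hinj : Function.Injective (f ∘ g) := by
    intro o o' hoo
    obtain ⟨c, hc⟩ := hf _ _ hoo
    rcases o with _ | z <;> rcases o' with _ | z'
    · rfl
    · exfalso
      have h1 : e (fun _ => false) + t = e z' + (c + c) := hc
      have h2 : (fun _ => false) = z' := hval _ _ ⟨c, by
        have := congrArg (mkQ T) h1
        rw [map_add, map_add, map_add, hmkt, add_zero] at this
        exact this⟩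
      rw [← h2] at h1
      exact ht2 c (add_left_cancel h1).symm
    · exfalso
      have h1 : e z = e (fun _ => false) + t + (c + c) := hc
      have h2 : z = (fun _ => false) := hval _ _ ⟨c, by
        have := congrArg (mkQ T) h1
        rw [map_add, map_add, map_add, hmkt, add_zero] at this
        exact this⟩
      rw [h2, add_assoc, left_eq_add] at h1
      refine ht2 (-c) ?_
      rw [← neg_add]
      exact (eq_neg_of_add_eq_zero_left h1).symm
    · have h1 : e z = e z' + (c + c) := hc
      have h2 : z = z' := hval _ _ ⟨c, by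
        have := congrArg (mkQ T) h1
        rw [map_add, map_add] at this
        exact this⟩
      rw [h2]
  have hcard := Fintype.card_le_of_injective _ hinj
  rw [Fintype.card_option, Fintype.card_fun, Fintype.card_bool, Fintype.card_fin] at hcard
  have h1 : 2 ^ m ≤ 2 ^ ρ := Nat.pow_le_pow_right (by norm_num) (by omega)
  omega

end Pool.Agent.H42M
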