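import Pool.Agent.H42M.Three

/-! # Two-descent on two elliptic curves of conductor 15: field elements (helper42) -/

namespace Pool.Agent.H42M

open NumberField IsDedekindDomain WithZero

section local_

variable {K : Type*} [Field K] (V : Valuation K ℤᵐ⁰)

/-- on `Y ^ 2 = X (X + 1) (X + 16)` the valuation of `X` is always even -/
lemma even_X_of_point {X Y : K} (hY : Y ≠ 0) (e : Y ^ 2 = X * (X + 1) * (X + 16))
    (h20 : V (2 : K) ≠ 0) : IsSquare (V X) := by
  by_cases h2 : V (2 : K) < 1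
  · rcases lt_trichotomy (V X) 1 with h | h | h
    · have h1 : V (X + 1) = 1 := add_left V (map_one V) h
      obtain ⟨t, ht⟩ := even_two V hY e h2 h20
      have hX16 : X + 16 ≠ 0 := by
        intro h; apply hY; rw [h] at e; simpa using e
      have hV : V X * V (X + 1) * V (X + 16) = V Y ^ 2 := by
        rw [← map_mul, ← map_mul, ← e, map_pow]
      rw [h1, mul_one, ht] at hV
      refine isSquare_of_mul (b := t) (y := V Y) ?_ (by rw [pow_two, hV])
      rintro rfl
      rw [mul_zero] at ht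
      exact hX16 ((V.zero_iff).mp ht)
    · rw [h]; exact ⟨1, by simp⟩
    · have h16 : V (16 : K) ≤ 1 := by exact_mod_cast V_int_le V 16
      have h1 : V (X + 16) = V X := add_right V rfl (h16.trans_lt h)
      have h3 : V (X + 1) = V X := add_right V rfl (by rwa [map_one])
      have hV : V X * V (X + 1) * V (X + 16) = V Y ^ 2 := by
        rw [← map_mul, ← map_mul, ← e, map_pow]
      rw [h1, h3] at hV
      refine isSquare_of_pow_three (g := V X) (h := V Y) ?_ ?_
      · intro h0; rw [h0] at h; exact absurd h (by simp)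
      · rw [← hV, pow_succ, pow_two]
  · have h21 : V (2 : K) = 1 := le_antisymm (by exact_mod_cast V_int_le V 2) (not_lt.mp h2)
    refine even_of_units V (c := X) (d₂ := 1) (d₃ := 16) (y := Y) (map_one V) ?_ e.symm
    rw [V_sixteen_eq, h21, one_pow]

/-- the class of `X` modulo 4 on `Y ^ 2 = X (X + 1) (X + 16)` -/
lemma sqMod_E2' {X r s δ ε : K} (hX : X ≠ 0) (hX1 : X + 1 ≠ 0) (hr0 : r ≠ 0)
    (hr : X + 16 = δ * r ^ 2) (hs : X * (X + 1) = δ * s ^ 2) (hδ : V δ = 1)
    (hδε : V (δ - ε) ≤ V 4) (hε : ε * ε = 1) (h2 : V (2 : K) < 1) : SqModFour V (ε * X) := by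
  have hs0 : s ≠ 0 := by
    rintro rfl
    have : X * (X + 1) = 0 := by rw [hs]; ring
    rcases mul_eq_zero.mp this with h | h
    · exact hX h
    · exact hX1 h
  have hVr : V r ≠ 0 := (V.ne_zero_iff).mpr hr0
  have hVε : V ε = 1 := by
    have h1 : V ε ^ 2 = 1 := by rw [← map_pow, pow_two, hε, map_one]
    exact eq_one_of_sq h1
  have hVεδ : V (ε * δ - 1) ≤ V 4 := by
    have h1 : ε * δ - 1 = ε * (δ - ε) := by linear_combination (1 : K) * hε
    rw [h1, map_mul, hVε, one_mul]; exact hδε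
  by_cases h : V 2 < V r
  · refine ⟨r, hr0, ?_⟩
    have h1 : ε * X / r ^ 2 - 1 = (ε * δ - 1) + -(ε * (16 / r ^ 2)) := by
      have : X = δ * r ^ 2 - 16 := by linear_combination hr
      rw [this]; field_simp; ring
    rw [h1]
    refine (V.map_add _ _).trans (max_le hVεδ ?_)
    rw [Valuation.map_neg, map_mul, hVε, one_mul, map_div₀, map_pow, V_sixteen_eq, V_four_eq]
    rw [div_le_iff₀ (pow_pos (zero_lt_iff.mpr hVr) 2)]
    calc V (2 : K) ^ 4 = V 2 ^ 2 * V 2 ^ 2 := by rw [← pow_add]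
      _ ≤ V 2 ^ 2 * V r ^ 2 := by gcongr
  · push Not at h
    have hVX : V X ≤ V 4 := by
      have : X = δ * r ^ 2 - 16 := by linear_combination hr
      rw [this]
      refine (V.map_sub _ _).trans (max_le ?_ ?_)
      · rw [map_mul, hδ, one_mul, map_pow, V_four_eq]; gcongr
      · rw [V_sixteen_eq, V_four_eq]
        exact pow_le_pow_of_le_one zero_le h2.le (by norm_num)
    refine ⟨s / (X + 1), div_ne_zero hs0 hX1, ?_⟩
    have hδ0 : δ ≠ 0 := by
      rintro rfl; rw [map_zero] at hδ; exact zero_ne_one hδ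
    have h1 : ε * X / (s / (X + 1)) ^ 2 - 1 = (ε * δ - 1) + ε * δ * X := by
      have h3 : ε * X / (s / (X + 1)) ^ 2 = ε * (X * (X + 1)) * (X + 1) / s ^ 2 := by
        field_simp
      rw [h3, hs]
      field_simp
      ring
    rw [h1]
    refine (V.map_add _ _).trans (max_le hVεδ ?_)
    rw [map_mul, map_mul, hVε, hδ, one_mul, one_mul]
    exact hVX

end local_

section global_

variable {F : Type*} [Field F] [NumberField F]

/-- the four arithmetic hypotheses -/
structure Hyp (F : Type*) [Field F] [NumberField F] : Prop where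
  odd : Odd (classNumber F)
  pos : ∀ u : (𝓞 F)ˣ, (∀ φ : F →+* ℝ, 0 < φ ((u : 𝓞 F) : F)) → IsSquare u
  prim : ∀ u : (𝓞 F)ˣ, (∃ a : 𝓞 F, (4 : 𝓞 F) ∣ (u : 𝓞 F) - a ^ 2) → IsSquare u
  three : Good3 F
  five : Nonsplit F 5
  real : Nonempty (F →+* ℝ)

lemma V_two_ne (v : HeightOneSpectrum (𝓞 F)) : v.valuation F (2 : F) ≠ 0 :=
  (Valuation.ne_zero_iff _).mpr (by norm_num)

lemma E2_class (H : Hyp F) {X Y : F} (hY : Y ≠ 0) (e : Y ^ 2 = X * (X + 1) * (X + 16)) :
    ∃ δ : F, (δ = 1 ∨ δ = 3 ∨ δ = 5 ∨ δ = 15) ∧ IsSquare (δ * (X + 16)) := by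
  have hX16 : X + 16 ≠ 0 := by
    intro h; apply hY; rw [h] at e; simpa using e
  obtain ⟨δ, hδ, hev⟩ := class_fifteen' H.three H.five hX16 (fun v h3e h5 => by
    by_cases h2 : v.valuation F (2 : F) < 1
    · exact even_two _ hY e h2 (V_two_ne v)
    · by_cases h3 : v.valuation F (3 : F) = 1
      swap
      · have h3' : v.valuation F (3 : F) < 1 := lt_of_le_of_ne
          (by exact_mod_cast V_int_le (v.valuation F) 3) h3
        exact even_three_E2 _ hY e h3' h3e.1 ((Valuation.ne_zero_iff _).mpr (by norm_num)) h5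
          (h3e.2 h3')
      have h21 : v.valuation F (2 : F) = 1 :=
        le_antisymm (by exact_mod_cast V_int_le (v.valuation F) 2) (not_lt.mp h2)
      refine even_of_units _ (c := X + 16) (d₂ := -16) (d₃ := -15) (y := Y) ?_ ?_
        (by rw [e]; ring)
      · rw [Valuation.map_neg, V_sixteen_eq, h21, one_pow]
      · rw [Valuation.map_neg, show (15 : F) = 3 * 5 by norm_num, map_mul, h3, h5, one_mul])
  have hδpos : ∀ φ : F →+* ℝ, 0 < φ δ := by
    intro φ
    rcases hδ with rfl | rfl | rfl | rfl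
    · rw [map_one]; norm_num
    · rw [map_ofNat]; norm_num
    · rw [map_ofNat]; norm_num
    · rw [map_ofNat]; norm_num
  refine ⟨δ, hδ, isSquare_of_pos H.odd H.pos (mul_ne_zero ?_ hX16) hev ?_⟩
  · obtain ⟨φ⟩ := H.real
    intro h0
    have := hδpos φ
    rw [h0, map_zero] at this
    exact lt_irrefl _ this
  · intro φ
    rw [map_mul]
    refine mul_pos (hδpos φ) ?_
    have h1 : (φ Y) ^ 2 = φ X * (φ X + 1) * (φ X + 16) := by
      rw [← map_pow, e, map_mul, map_mul, map_add, map_add, map_one, map_ofNat]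
    have h2 : 0 < (φ Y) ^ 2 := by
      have : φ Y ≠ 0 := (map_ne_zero φ).mpr hY
      positivity
    rw [map_add, map_ofNat]
    by_contra h3
    push Not at h3
    rw [h1] at h2
    nlinarith [mul_nonneg (show 0 ≤ -(φ X) by linarith) (show 0 ≤ -(φ X + 1) by linarith)]

lemma E2_X (H : Hyp F) {X Y : F} (hY : Y ≠ 0) (e : Y ^ 2 = X * (X + 1) * (X + 16))
    {d ε : ℤ} (hd : Odd d) (hdε : (4 : ℤ) ∣ d - ε) (hε : ε * ε = 1) {r : F}
    (hr : X + 16 = (d : F) * r ^ 2) : IsSquare ((ε : F) * X) := by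
  have hX0 : X ≠ 0 := by rintro rfl; apply hY; simpa using e
  have hX1 : X + 1 ≠ 0 := by
    intro h; apply hY; rw [h] at e; simpa using e
  have hX16 : X + 16 ≠ 0 := by
    intro h; apply hY; rw [h] at e; simpa using e
  have hr0 : r ≠ 0 := by
    rintro rfl; apply hX16; rw [hr]; ring
  have hd0 : (d : F) ≠ 0 := by
    intro h; apply hX16; rw [hr, h]; ring
  have hεF : (ε : F) * ε = 1 := by exact_mod_cast congrArg (fun z : ℤ => (z : F)) hε
  have hε0 : (ε : F) ≠ 0 := left_ne_zero_of_mul_eq_one hεF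
  have hs : X * (X + 1) = (d : F) * (Y / (r * d)) ^ 2 := by
    rw [div_pow, e, hr]; field_simp
  refine isSquare_of_sqMod H.odd H.prim (mul_ne_zero hε0 hX0) (fun v => ?_) (fun v hv => ?_)
  · rw [map_mul]
    have h1 : v.valuation F (ε : F) = 1 := by
      apply eq_one_of_sq
      rw [← map_pow, pow_two, hεF, map_one]
    rw [h1, one_mul]
    exact even_X_of_point _ hY e (V_two_ne v)
  · refine sqMod_E2' _ hX0 hX1 hr0 hr hs (V_odd _ hd hv) ?_ hεF hv
    obtain ⟨k, hk⟩ := hdε
    have hk' : (d : F) - ε = 4 * (k : F) := by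
      exact_mod_cast congrArg (fun z : ℤ => (z : F)) hk
    rw [hk', map_mul]
    calc v.valuation F (4 : F) * v.valuation F (k : F) ≤ v.valuation F 4 * 1 := by
          gcongr; exact V_int_le _ k
      _ = v.valuation F 4 := mul_one _

/-- the class of `X` is `± 1` -/
lemma E2_pm (H : Hyp F) {X Y : F} (hY : Y ≠ 0) (e : Y ^ 2 = X * (X + 1) * (X + 16)) :
    IsSquare X ∨ IsSquare (-X) := by
  obtain ⟨δ, hδ, t, ht⟩ := E2_class H hY e
  rcases hδ with rfl | rfl | rfl | rfl
  · left
    have := E2_X H hY e (d := 1) (ε := 1) (by decide) (by decide) (by decide) (r := t)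
      (by push_cast; linear_combination ht)
    simpa using this
  · right
    have := E2_X H hY e (d := 3) (ε := -1) (by decide) (by decide) (by decide) (r := t / 3)
      (by push_cast; field_simp; linear_combination ht)
    simpa using this
  · left
    have := E2_X H hY e (d := 5) (ε := 1) (by decide) (by decide) (by decide) (r := t / 5)
      (by push_cast; field_simp; linear_combination ht)
    simpa using this
  · right
    have := E2_X H hY e (d := 15) (ε := -1) (by decide) (by decide) (by decide) (r := t / 15)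
      (by push_cast; field_simp; linear_combination ht)
    simpa using this

lemma not_isSquare_neg_one (H : Hyp F) : ¬ IsSquare (-1 : F) := by
  rintro ⟨t, ht⟩
  obtain ⟨φ⟩ := H.real
  have h1 : (-1 : ℝ) = φ t * φ t := by rw [← map_mul, ← ht]; simp
  nlinarith [mul_self_nonneg (φ t)]

lemma E1_class (H : Hyp F) {X Y : F} (hY : Y ≠ 0) (e : Y ^ 2 = X * (X - 9) * (X - 25)) :
    IsSquare X ∨ IsSquare (5 * X) := by
  have hX0 : X ≠ 0 := by rintro rfl; apply hY; simpa using e
  obtain ⟨δ, hδ, hev⟩ := class_fifteen' H.three H.five hX0 (fun v h3e h5 => by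
    by_cases h3 : v.valuation F (3 : F) = 1
    swap
    · have h3' : v.valuation F (3 : F) < 1 := lt_of_le_of_ne
        (by exact_mod_cast V_int_le (v.valuation F) 3) h3
      exact even_three_E1 _ hY e h3' ((Valuation.ne_zero_iff _).mpr (by norm_num)) h5 (h3e.2 h3')
    refine even_of_units _ (c := X) (d₂ := -9) (d₃ := -25) (y := Y) ?_ ?_ (by rw [e]; ring)
    · rw [Valuation.map_neg, show (9 : F) = 3 * 3 by norm_num, map_mul, h3, one_mul]
    · rw [Valuation.map_neg, show (25 : F) = 5 * 5 by norm_num, map_mul, h5, one_mul])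
  have hδpos : ∀ φ : F →+* ℝ, 0 < φ δ := by
    intro φ
    rcases hδ with rfl | rfl | rfl | rfl
    · rw [map_one]; norm_num
    · rw [map_ofNat]; norm_num
    · rw [map_ofNat]; norm_num
    · rw [map_ofNat]; norm_num
  have hδ0 : δ ≠ 0 := by
    obtain ⟨φ⟩ := H.real
    intro h0
    have := hδpos φ
    rw [h0, map_zero] at this
    exact lt_irrefl _ this
  have hsq : IsSquare (δ * X) := by
    refine isSquare_of_pos H.odd H.pos (mul_ne_zero hδ0 hX0) hev fun φ => ?_
    rw [map_mul]
    refine mul_pos (hδpos φ) ?_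
    have h1 : (φ Y) ^ 2 = φ X * (φ X - 9) * (φ X - 25) := by
      rw [← map_pow, e, map_mul, map_mul, map_sub, map_sub, map_ofNat, map_ofNat]
    have h2 : 0 < (φ Y) ^ 2 := by
      have : φ Y ≠ 0 := (map_ne_zero φ).mpr hY
      positivity
    by_contra h3
    push Not at h3
    rw [h1] at h2
    nlinarith [mul_nonneg (show 0 ≤ -(φ X - 9) by linarith) (show 0 ≤ -(φ X - 25) by linarith)]
  have hno : ∀ n : ℤ, (4 : ℤ) ∣ n + 1 → ∀ γ : F, γ ≠ 0 → X = (n : F) * γ ^ 2 → False := by
    intro n hn γ hγ hX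
    apply not_isSquare_neg_one H
    refine isSquare_of_sqMod H.odd H.prim (by norm_num) (fun v => ?_) (fun v hv => ?_)
    · rw [Valuation.map_neg, map_one]; exact ⟨1, by simp⟩
    · refine sqMod_neg_one _ hn hγ hv ?_
      rw [← hX]
      exact sqMod_E1 _ hY e hv (V_two_ne v)
  obtain ⟨t, ht⟩ := hsq
  have ht0 : t ≠ 0 := by
    rintro rfl; rw [mul_zero] at ht; exact mul_ne_zero hδ0 hX0 ht
  rcases hδ with rfl | rfl | rfl | rfl
  · left; exact ⟨t, by rw [← ht, one_mul]⟩
  · exfalso
    refine hno 3 (by decide) (t / 3) (div_ne_zero ht0 (by norm_num)) ?_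
    push_cast; field_simp; linear_combination ht
  · right; exact ⟨t, ht⟩
  · exfalso
    refine hno 15 (by decide) (t / 15) (div_ne_zero ht0 (by norm_num)) ?_
    push_cast; field_simp; linear_combination ht

lemma E1_second (H : Hyp F) {X Y : F} (hY : Y ≠ 0) (e : Y ^ 2 = X * (X - 9) * (X - 25))
    (hX : IsSquare X) : IsSquare (X - 25) ∨ IsSquare (-(X - 25)) := by
  obtain ⟨r, hr⟩ := hX
  have hX0 : X ≠ 0 := by rintro rfl; apply hY; simpa using e
  have hr0 : r ≠ 0 := by rintro rfl; apply hX0; rw [hr]; ring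
  set s : F := Y / r with hs
  have hs2 : s ^ 2 = (r ^ 2 - 9) * (r ^ 2 - 25) := by
    rw [hs, div_pow, e, hr]; field_simp
  set Z : F := (r ^ 2 - 17 + s) / 2 with hZ
  have hZZ : Z * ((r ^ 2 - 17 - s) / 2) = 16 := by
    rw [hZ]; field_simp; linear_combination -hs2
  have hZ0 : Z ≠ 0 := by
    intro h0; rw [h0, zero_mul] at hZZ; norm_num at hZZ
  have hZ2 : Z ^ 2 + 16 = (r ^ 2 - 17) * Z := by
    have h1 : (r ^ 2 - 17 - s) / 2 = r ^ 2 - 17 - Z := by rw [hZ]; ring
    rw [h1] at hZZ
    linear_combination -hZZ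
  have hcurve : (r * Z) ^ 2 = Z * (Z + 1) * (Z + 16) := by
    linear_combination (-Z) * hZ2
  have h25 : (X - 25) * Z = (Z - 4) ^ 2 := by
    rw [hr]; linear_combination -hZ2
  rcases E2_pm H (mul_ne_zero hr0 hZ0) hcurve with ⟨w, hw⟩ | ⟨w, hw⟩
  · left
    have hw0 : w ≠ 0 := by rintro rfl; apply hZ0; rw [hw]; ring
    refine ⟨(Z - 4) / w, ?_⟩
    have h1 : X - 25 = (Z - 4) ^ 2 / Z := by rw [← h25]; field_simp
    rw [h1, div_mul_div_comm, ← hw, pow_two]
  · right
    have hw0 : w ≠ 0 := by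
      rintro rfl; apply hZ0; linear_combination -hw
    refine ⟨(Z - 4) / w, ?_⟩
    have h1 : -(X - 25) = (Z - 4) ^ 2 / (-Z) := by
      rw [← h25]; field_simp
    rw [h1, div_mul_div_comm, ← hw, pow_two]

end global_

end Pool.Agent.H42M
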