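import Pool.Agent.H42M.Val2

/-! # Two-descent on two elliptic curves of conductor 15: global lemmas (helper42) -/

namespace Pool.Agent.H42M

open NumberField IsDedekindDomain WithZero

lemma even_of_isSquare_exp {n : ℤ} (h : IsSquare (exp n : ℤᵐ⁰)) : Even n := by
  obtain ⟨z, hz⟩ := h
  have hz0 : z ≠ 0 := by rintro rfl; simp at hz
  rw [← exp_log hz0, ← exp_add, exp_inj] at hz
  exact ⟨_, hz⟩

lemma eq_one_of_sq {g : ℤᵐ⁰} (h : g ^ 2 = 1) : g = 1 := by
  rcases lt_trichotomy g 1 with h1 | h1 | h1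
  · exact absurd h (pow_lt_one₀ zero_le h1 (by norm_num)).ne
  · exact h1
  · exact absurd h (one_lt_pow₀ h1 (by norm_num)).ne'

lemma exists_ideal_sq {R : Type*} [CommRing R] [IsDedekindDomain R] {a : R} (ha : a ≠ 0)
    (h : ∀ v : HeightOneSpectrum R, IsSquare (v.intValuation a)) :
    ∃ I : Ideal R, I ^ 2 = Ideal.span {a} := by
  classical
  have hI : (Ideal.span {a} : Ideal R) ≠ 0 := by
    rw [Ne, Ideal.zero_eq_bot, Ideal.span_singleton_eq_bot]; exact ha
  have hk : ∀ v : HeightOneSpectrum R, ∃ k : ℕ,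
      (Associates.mk v.asIdeal).count (Associates.mk (Ideal.span {a} : Ideal R)).factors
        = k * 2 := by
    intro v
    have h1 := h v
    rw [v.intValuation_if_neg ha] at h1
    have h2 := even_of_isSquare_exp h1
    rw [even_neg, Int.even_coe_nat] at h2
    obtain ⟨k, hk⟩ := h2
    exact ⟨k, by omega⟩
  choose k hk using hk
  refine ⟨∏ᶠ v : HeightOneSpectrum R, v.asIdeal ^ (k v), ?_⟩
  have hsup : Function.HasFiniteMulSupport fun v : HeightOneSpectrum R => v.asIdeal ^ (k v) := by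
    refine Set.Finite.subset (Ideal.hasFiniteMulSupport hI) ?_
    intro v hv
    simp only [Function.mem_mulSupport] at hv ⊢
    intro h1
    apply hv
    rw [HeightOneSpectrum.maxPowDividing, hk v] at h1
    have h2 : k v = 0 := by
      by_contra h3
      have h4 : v.asIdeal ^ (k v * 2) ≤ v.asIdeal := Ideal.pow_le_self (by omega)
      rw [h1, Ideal.one_eq_top, top_le_iff] at h4
      exact v.isPrime.ne_top h4
    rw [h2, pow_zero]
  rw [finprod_pow hsup, ← Ideal.finprod_heightOneSpectrum_factorization hI]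
  refine finprod_congr fun v => ?_
  rw [← pow_mul, HeightOneSpectrum.maxPowDividing, hk v]

variable {F : Type*} [Field F] [NumberField F]

lemma unit_mul_sq (hodd : Odd (classNumber F)) {c : F} (hc : c ≠ 0)
    (h : ∀ v : HeightOneSpectrum (𝓞 F), IsSquare (v.valuation F c)) :
    ∃ (u : (𝓞 F)ˣ) (β : F), β ≠ 0 ∧ c = ((u : 𝓞 F) : F) * β ^ 2 := by
  classical
  obtain ⟨x, y, hy, rfl⟩ := IsFractionRing.div_surjective (A := 𝓞 F) c
  have hy0 : y ≠ 0 := nonZeroDivisors.ne_zero hy
  have hyF : (algebraMap (𝓞 F) F y) ≠ 0 := by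
    simpa using hy0
  have hx0 : x ≠ 0 := by
    rintro rfl; simp at hc
  set a : 𝓞 F := x * y with ha
  have ha0 : a ≠ 0 := mul_ne_zero hx0 hy0
  have haF : (algebraMap (𝓞 F) F a) ≠ 0 := by
    simpa using ha0
  have hev : ∀ v : HeightOneSpectrum (𝓞 F), IsSquare (v.intValuation a) := by
    intro v
    rw [← v.valuation_of_algebraMap (K := F)]
    have h1 : algebraMap (𝓞 F) F a =
        (algebraMap (𝓞 F) F x / algebraMap (𝓞 F) F y) * (algebraMap (𝓞 F) F y) ^ 2 := by
      rw [ha, map_mul]; field_simp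
    change IsSquare (v.valuation F (algebraMap (𝓞 F) F a))
    rw [h1, map_mul, map_pow]
    exact (h v).mul (IsSquare.sq _)
  obtain ⟨I, hI⟩ := exists_ideal_sq ha0 hev
  have hI0 : I ≠ 0 := by
    rintro rfl
    rw [zero_pow two_ne_zero] at hI
    have : (Ideal.span {a} : Ideal (𝓞 F)) = ⊥ := hI.symm
    rw [Ideal.span_singleton_eq_bot] at this
    exact ha0 this
  obtain ⟨k, hk⟩ := hodd
  have hpr : (I ^ (2 * k + 1)).IsPrincipal := by
    have h1 : (ClassGroup.mk0 ⟨I, mem_nonZeroDivisors_of_ne_zero hI0⟩) ^ (2 * k + 1) = 1 := by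
      rw [← hk]
      exact pow_card_eq_one
    rw [← map_pow, ClassGroup.mk0_eq_one_iff] at h1
    simpa using h1
  obtain ⟨α, hα⟩ := hpr
  have h2 : (Ideal.span {a ^ (2 * k + 1)} : Ideal (𝓞 F)) = Ideal.span {α ^ 2} := by
    rw [← Ideal.span_singleton_pow, ← Ideal.span_singleton_pow, ← hI, ← Ideal.submodule_span_eq,
      ← hα, ← pow_mul, ← pow_mul, mul_comm]
  rw [Ideal.span_singleton_eq_span_singleton] at h2
  obtain ⟨u, hu⟩ := h2.symm
  -- α ^ 2 * u = a ^ (2 k + 1)
  have hα0 : α ≠ 0 := by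
    rintro rfl
    rw [zero_pow two_ne_zero, zero_mul] at hu
    exact pow_ne_zero _ ha0 hu.symm
  have hαF : (algebraMap (𝓞 F) F α) ≠ 0 := by simpa using hα0
  refine ⟨u, algebraMap (𝓞 F) F α / (algebraMap (𝓞 F) F a ^ k * algebraMap (𝓞 F) F y),
    div_ne_zero hαF (mul_ne_zero (pow_ne_zero _ haF) hyF), ?_⟩
  have hu' : (algebraMap (𝓞 F) F α) ^ 2 * algebraMap (𝓞 F) F u
      = (algebraMap (𝓞 F) F a) ^ (2 * k + 1) := by
    rw [← map_pow, ← map_mul, hu, map_pow]
  have h3 : algebraMap (𝓞 F) F x / algebraMap (𝓞 F) F y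
      = algebraMap (𝓞 F) F a / (algebraMap (𝓞 F) F y) ^ 2 := by
    rw [ha, map_mul]; field_simp
  rw [h3]
  have h4 : algebraMap (𝓞 F) F a = (algebraMap (𝓞 F) F α) ^ 2 * algebraMap (𝓞 F) F u /
      (algebraMap (𝓞 F) F a ^ k) ^ 2 := by
    rw [hu', eq_div_iff (pow_ne_zero _ (pow_ne_zero _ haF))]; ring
  have h5 : algebraMap (𝓞 F) F a / (algebraMap (𝓞 F) F y) ^ 2 =
      ((algebraMap (𝓞 F) F α) ^ 2 * algebraMap (𝓞 F) F u /
      (algebraMap (𝓞 F) F a ^ k) ^ 2) / (algebraMap (𝓞 F) F y) ^ 2 := by rw [← h4]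
  rw [h5]
  field_simp

/-- totally positive elements with even valuations are squares if the narrow class number is
odd -/
lemma isSquare_of_pos (hodd : Odd (classNumber F))
    (hpos : ∀ u : (𝓞 F)ˣ, (∀ φ : F →+* ℝ, 0 < φ ((u : 𝓞 F) : F)) → IsSquare u)
    {c : F} (hc : c ≠ 0) (h : ∀ v : HeightOneSpectrum (𝓞 F), IsSquare (v.valuation F c))
    (hp : ∀ φ : F →+* ℝ, 0 < φ c) : IsSquare c := by
  obtain ⟨u, β, hβ, rfl⟩ := unit_mul_sq hodd hc h
  obtain ⟨w, hw⟩ := hpos u (fun φ => by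
    have h1 := hp φ
    rw [map_mul, map_pow] at h1
    exact (pos_iff_pos_of_mul_pos h1).mpr (by
      have : φ β ≠ 0 := (map_ne_zero φ).mpr hβ
      positivity))
  refine ⟨((w : 𝓞 F) : F) * β, ?_⟩
  rw [hw]
  push_cast
  ring

/-- the ideal `(n)` is an odd power of a prime ideal -/
def Nonsplit (F : Type*) [Field F] [NumberField F] (n : ℕ) : Prop :=
  ∃ P : Ideal (𝓞 F), P.IsPrime ∧ ∃ k : ℕ, Odd k ∧ Ideal.span {(n : 𝓞 F)} = P ^ k

lemma parity_fix {n : ℕ} (hn : n ≠ 0) (hns : Nonsplit F n) {c : F} (hc : c ≠ 0) :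
    ∃ δ : F, (δ = 1 ∨ δ = n) ∧
      (∀ v : HeightOneSpectrum (𝓞 F), v.valuation F (n : F) < 1 →
        IsSquare (v.valuation F (δ * c))) ∧
      ∀ v : HeightOneSpectrum (𝓞 F), v.valuation F (n : F) = 1 → v.valuation F δ = 1 := by
  classical
  obtain ⟨P, hP, k, hk, hspan⟩ := hns
  have hn0 : (n : 𝓞 F) ≠ 0 := by exact_mod_cast hn
  have hspan0 : (Ideal.span {(n : 𝓞 F)} : Ideal (𝓞 F)) ≠ ⊥ := by
    rw [Ne, Ideal.span_singleton_eq_bot]; exact hn0
  have hPb : P ≠ ⊥ := by
    rintro rfl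
    rw [hspan] at hspan0
    apply hspan0
    obtain ⟨m, rfl⟩ := hk
    rw [← Ideal.zero_eq_bot, zero_pow (by omega)]
  set w : HeightOneSpectrum (𝓞 F) := ⟨P, hP, hPb⟩ with hw
  have hval : ∀ v : HeightOneSpectrum (𝓞 F), v.valuation F (n : F) = v.intValuation (n : 𝓞 F) := by
    intro v
    have h1 : (n : F) = algebraMap (𝓞 F) F (n : 𝓞 F) := by simp
    rw [h1]; exact v.valuation_of_algebraMap (K := F) _
  have huniq : ∀ v : HeightOneSpectrum (𝓞 F), v.valuation F (n : F) < 1 → v = w := by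
    intro v hv
    rw [hval, HeightOneSpectrum.intValuation_lt_one_iff_dvd, hspan] at hv
    have h1 := v.prime.dvd_of_dvd_pow hv
    have h2 : P = v.asIdeal :=
      (hP.isMaximal hPb).eq_of_le v.isPrime.ne_top (Ideal.dvd_iff_le.mp h1)
    exact HeightOneSpectrum.ext h2.symm
  have hwval : w.valuation F (n : F) = exp (-(k : ℤ)) := by
    rw [hval, w.intValuation_if_neg hn0, hspan]
    congr 2
    rw [Associates.mk_pow, Associates.count_pow (Associates.mk_ne_zero.mpr hPb)
      w.associates_irreducible]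
    have h1 : (Associates.mk w.asIdeal).count (Associates.mk P).factors = 1 :=
      Associates.count_self w.associates_irreducible
    rw [h1, mul_one]
  by_cases h : IsSquare (w.valuation F c)
  · refine ⟨1, Or.inl rfl, fun v hv => ?_, fun v _ => map_one _⟩
    rw [huniq v hv, one_mul]; exact h
  · refine ⟨n, Or.inr rfl, fun v hv => ?_, fun v hv => hv⟩
    rw [huniq v hv, map_mul, hwval]
    have hc' : w.valuation F c ≠ 0 := (Valuation.ne_zero_iff _).mpr hc
    rw [← exp_log hc', ← exp_add]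
    have h1 : ¬ Even (log (w.valuation F c)) := by
      rintro ⟨m, hm⟩
      apply h
      rw [← exp_log hc', hm, exp_add]
      exact ⟨_, rfl⟩
    have h2 : Even (-(k : ℤ) + log (w.valuation F c)) := by
      rw [Int.not_even_iff_odd] at h1
      have h3 : Odd (-(k : ℤ)) := by
        rw [odd_neg]; exact_mod_cast hk
      exact h3.add_odd h1
    obtain ⟨m, hm⟩ := h2
    rw [hm, exp_add]
    exact ⟨_, rfl⟩

lemma class_fifteen (h3 : Nonsplit F 3) (h5 : Nonsplit F 5) {c : F} (hc : c ≠ 0)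
    (hev : ∀ v : HeightOneSpectrum (𝓞 F), v.valuation F 3 = 1 → v.valuation F 5 = 1 →
      IsSquare (v.valuation F c)) :
    ∃ δ : F, (δ = 1 ∨ δ = 3 ∨ δ = 5 ∨ δ = 15) ∧
      ∀ v : HeightOneSpectrum (𝓞 F), IsSquare (v.valuation F (δ * c)) := by
  obtain ⟨δ₃, hδ₃, h31, h32⟩ := parity_fix (n := 3) (by norm_num) h3 hc
  obtain ⟨δ₅, hδ₅, h51, h52⟩ := parity_fix (n := 5) (by norm_num) h5 hc
  push_cast at hδ₃ hδ₅ h31 h32 h51 h52
  have hne : ∀ v : HeightOneSpectrum (𝓞 F), v.valuation F 3 < 1 → v.valuation F 5 = 1 := by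
    intro v hv
    by_contra h
    have h5' : v.valuation F (5 : F) < 1 := lt_of_le_of_ne
      (by exact_mod_cast V_int_le (v.valuation F) 5) h
    have h1 : v.valuation F ((2 : F) * 3 - 5) < 1 := by
      refine lt_of_le_of_lt (Valuation.map_sub _ _ _) (max_lt ?_ h5')
      rw [map_mul]
      calc v.valuation F 2 * v.valuation F 3 ≤ 1 * v.valuation F 3 := by
            gcongr; exact_mod_cast V_int_le (v.valuation F) 2
        _ < 1 := by rwa [one_mul]
    norm_num at h1
  refine ⟨δ₃ * δ₅, ?_, fun v => ?_⟩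
  · rcases hδ₃ with rfl | rfl <;> rcases hδ₅ with rfl | rfl <;> norm_num
  · by_cases hv3 : v.valuation F 3 = 1
    · by_cases hv5 : v.valuation F 5 = 1
      · rw [map_mul, map_mul, h32 v hv3, h52 v hv5, one_mul, one_mul]
        exact hev v hv3 hv5
      · have hv5' : v.valuation F (5 : F) < 1 := lt_of_le_of_ne
          (by exact_mod_cast V_int_le (v.valuation F) 5) hv5
        rw [mul_assoc, map_mul, h32 v hv3, one_mul]
        exact h51 v hv5'
    · have hv3' : v.valuation F (3 : F) < 1 := lt_of_le_of_ne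
        (by exact_mod_cast V_int_le (v.valuation F) 3) hv3
      rw [mul_comm δ₃, mul_assoc, map_mul, h52 v (hne v hv3'), one_mul]
      exact h31 v hv3'

/-- a unit which is locally a square modulo 4 is a square modulo 4 -/
lemma exists_sub_sq {u : (𝓞 F)ˣ} {β : F} (hβ : β ≠ 0)
    (h : ∀ v : HeightOneSpectrum (𝓞 F), v.valuation F 2 < 1 →
      SqModFour (v.valuation F) (((u : 𝓞 F) : F) * β ^ 2)) :
    ∃ a : 𝓞 F, (4 : 𝓞 F) ∣ (u : 𝓞 F) - a ^ 2 := by
  classical
  have h4F : (4 : 𝓞 F) ≠ 0 := by norm_num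
  have h4 : (Ideal.span {(4 : 𝓞 F)} : Ideal (𝓞 F)) ≠ 0 := by
    rw [Ne, Ideal.zero_eq_bot, Ideal.span_singleton_eq_bot]; exact h4F
  set S : Finset (HeightOneSpectrum (𝓞 F)) := (Ideal.finite_factors h4).toFinset with hS
  have hval : ∀ v : HeightOneSpectrum (𝓞 F), v.valuation F (4 : F) = v.intValuation (4 : 𝓞 F) := by
    intro v
    have h1 : (4 : F) = algebraMap (𝓞 F) F (4 : 𝓞 F) :=
      (map_ofNat (algebraMap (𝓞 F) F) 4).symm
    rw [h1]; exact v.valuation_of_algebraMap (K := F) _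
  have hmem : ∀ v : HeightOneSpectrum (𝓞 F), v ∈ S ↔ v.valuation F 2 < 1 := by
    intro v
    rw [hS, Set.Finite.mem_toFinset, Set.mem_ofPred_eq,
      ← HeightOneSpectrum.intValuation_lt_one_iff_dvd, ← hval, V_four_eq]
    constructor
    · intro h1
      by_contra h2
      push Not at h2
      exact absurd h1 (not_lt.mpr (one_le_pow_of_one_le' h2 2))
    · intro h1
      exact pow_lt_one₀ zero_le h1 (by norm_num)
  have hu1 : ∀ v : HeightOneSpectrum (𝓞 F), v.valuation F ((u : 𝓞 F) : F) = 1 := by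
    intro v
    refine (v.valuation_eq_one_iff_notMem (K := F)).mpr ?_
    intro hmem
    exact v.isPrime.ne_top (Ideal.eq_top_of_isUnit_mem _ hmem u.isUnit)
  have hloc : ∀ v : HeightOneSpectrum (𝓞 F), v.valuation F 2 < 1 →
      ∃ a : 𝓞 F, ∃ t : F, v.valuation F t = 1 ∧
        v.valuation F (((u : 𝓞 F) : F) / t ^ 2 - 1) ≤ v.valuation F 4 ∧
        v.valuation F (algebraMap (𝓞 F) F a - t) ≤ v.valuation F 4 := by
    intro v hv
    obtain ⟨s, hs, h1⟩ := h v hv
    have ht0 : s / β ≠ 0 := div_ne_zero hs hβ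
    have h2 : ((u : 𝓞 F) : F) * β ^ 2 / s ^ 2 = ((u : 𝓞 F) : F) / (s / β) ^ 2 := by
      rw [div_pow]; field_simp
    rw [h2] at h1
    have h3 : v.valuation F (((u : 𝓞 F) : F) / (s / β) ^ 2) = 1 := by
      have h4 : ((u : 𝓞 F) : F) / (s / β) ^ 2 = (((u : 𝓞 F) : F) / (s / β) ^ 2 - 1) + 1 := by
        ring
      rw [h4]
      exact add_left _ (map_one _) (h1.trans_lt (V_four_lt _ hv))
    have h5 : v.valuation F (s / β) = 1 := by
      rw [map_div₀, hu1, one_div, map_pow] at h3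
      have h6 : v.valuation F (s / β) ^ 2 = 1 := by
        rw [← inv_inv (v.valuation F (s / β) ^ 2), h3, inv_one]
      exact eq_one_of_sq h6
    have h40 : v.valuation F (4 : F) ≠ 0 := (Valuation.ne_zero_iff _).mpr (by norm_num)
    obtain ⟨a, ha⟩ := v.exists_valuation_sub_lt_of_integer (K := F) h5.le (Units.mk0 _ h40)
    exact ⟨a, s / β, h5, h1, ha.le⟩
  choose! a t ht1 ht2 ht3 using hloc
  obtain ⟨y, hy⟩ := IsDedekindDomain.exists_forall_sub_mem_ideal (s := S)
    (fun v : HeightOneSpectrum (𝓞 F) => v.asIdeal)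
    (fun v => (Associates.mk v.asIdeal).count (Associates.mk (Ideal.span {(4 : 𝓞 F)})).factors)
    (fun v _ => v.prime) (fun v _ w _ hvw he => hvw (HeightOneSpectrum.ext he))
    (fun v => a v.1)
  refine ⟨y, ?_⟩
  have hall : ∀ v : HeightOneSpectrum (𝓞 F),
      v.valuation F ((((u : 𝓞 F) : F) - (y : F) ^ 2) / 4) ≤ 1 := by
    intro v
    have h40 : 0 < v.valuation F (4 : F) :=
      zero_lt_iff.mpr ((Valuation.ne_zero_iff _).mpr (by norm_num))
    rw [map_div₀, div_le_iff₀ h40, one_mul]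
    by_cases hv : v.valuation F 2 < 1
    · have h1 : v.valuation F ((y : F) - algebraMap (𝓞 F) F (a v)) ≤ v.valuation F 4 := by
        have h2 := hy v ((hmem v).mpr hv)
        rw [← HeightOneSpectrum.intValuation_le_pow_iff_mem, ← v.intValuation_if_neg h4F,
          ← hval, ← v.valuation_of_algebraMap (K := F)] at h2
        rw [← map_sub]
        exact h2
      have h2 : v.valuation F ((y : F) - t v) ≤ v.valuation F 4 := by
        have h3 : (y : F) - t v = ((y : F) - algebraMap (𝓞 F) F (a v)) +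
          (algebraMap (𝓞 F) F (a v) - t v) := by ring
        rw [h3]
        exact (Valuation.map_add _ _ _).trans (max_le h1 (ht3 v hv))
      have h4 : ((u : 𝓞 F) : F) - (y : F) ^ 2 =
          (((u : 𝓞 F) : F) / (t v) ^ 2 - 1) * (t v) ^ 2 + -(((y : F) - t v) * (y + t v)) := by
        have ht0 : t v ≠ 0 := by
          intro h0
          have := ht1 v hv
          rw [h0, map_zero] at this
          exact zero_ne_one this
        field_simp
        ring
      rw [h4]
      refine (Valuation.map_add _ _ _).trans (max_le ?_ ?_)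
      · rw [map_mul, map_pow, ht1 v hv, one_pow, mul_one]
        exact ht2 v hv
      · rw [Valuation.map_neg, map_mul]
        have h5 : v.valuation F ((y : F) + t v) ≤ 1 :=
          (Valuation.map_add _ _ _).trans (max_le (v.valuation_le_one y) (ht1 v hv).le)
        calc v.valuation F ((y : F) - t v) * v.valuation F ((y : F) + t v)
            ≤ v.valuation F 4 * 1 := by gcongr
          _ = v.valuation F 4 := mul_one _
    · have h2 : v.valuation F (2 : F) = 1 := le_antisymm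
        (by exact_mod_cast V_int_le (v.valuation F) 2) (not_lt.mp hv)
      rw [V_four_eq, h2, one_pow]
      refine (Valuation.map_sub _ _ _).trans (max_le (hu1 v).le ?_)
      rw [map_pow]
      exact pow_le_one₀ zero_le (v.valuation_le_one y)
  obtain ⟨z, hz⟩ := HeightOneSpectrum.mem_integers_of_valuation_le_one F _ hall
  refine ⟨z, ?_⟩
  apply NumberField.RingOfIntegers.coe_injective
  rw [map_sub, map_mul, map_pow, map_ofNat, hz]
  field_simp

lemma isSquare_of_sqMod (hodd : Odd (classNumber F))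
    (hprim : ∀ u : (𝓞 F)ˣ, (∃ a : 𝓞 F, (4 : 𝓞 F) ∣ (u : 𝓞 F) - a ^ 2) → IsSquare u)
    {c : F} (hc : c ≠ 0) (h : ∀ v : HeightOneSpectrum (𝓞 F), IsSquare (v.valuation F c))
    (h2 : ∀ v : HeightOneSpectrum (𝓞 F), v.valuation F 2 < 1 → SqModFour (v.valuation F) c) :
    IsSquare c := by
  obtain ⟨u, β, hβ, rfl⟩ := unit_mul_sq hodd hc h
  obtain ⟨w, hw⟩ := hprim u (exists_sub_sq hβ h2)
  refine ⟨((w : 𝓞 F) : F) * β, ?_⟩
  rw [hw]
  push_cast
  ring

end Pool.Agent.H42M
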