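import Mathlib

/-! # Addition and halving on curves with full rational 2-torsion (helper42) -/

namespace Pool.Agent.H42M

open WeierstrassCurve WeierstrassCurve.Affine

variable {K : Type*} [Field K]

/-- `W` is the curve `y ^ 2 = (x - e₁) (x - e₂) (x - e₃)` with `e₁ + e₂ + e₃ = 0` -/
structure Full (W : Affine K) (e₁ e₂ e₃ : K) : Prop where
  a₁ : W.a₁ = 0
  a₂ : W.a₂ = 0
  a₃ : W.a₃ = 0
  sum : e₁ + e₂ + e₃ = 0
  a₄ : W.a₄ = e₁ * e₂ + e₁ * e₃ + e₂ * e₃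
  a₆ : W.a₆ = -(e₁ * e₂ * e₃)
  ne₁₂ : e₁ ≠ e₂
  ne₁₃ : e₁ ≠ e₃
  ne₂₃ : e₂ ≠ e₃
  two : (2 : K) ≠ 0

lemma Full.eq {W : Affine K} {e₁ e₂ e₃ : K} (H : Full W e₁ e₂ e₃) {x y : K}
    (h : W.Nonsingular x y) : y ^ 2 = (x - e₁) * (x - e₂) * (x - e₃) := by
  have h1 := (W.equation_iff x y).mp h.1
  rw [H.a₁, H.a₂, H.a₃, H.a₄, H.a₆] at h1
  linear_combination h1 + x ^ 2 * H.sum

lemma Full.nonsingular {W : Affine K} {e₁ e₂ e₃ : K} (H : Full W e₁ e₂ e₃) {x y : K}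
    (h : y ^ 2 = (x - e₁) * (x - e₂) * (x - e₃)) : W.Nonsingular x y := by
  rw [W.nonsingular_iff, W.equation_iff, H.a₁, H.a₂, H.a₃, H.a₄, H.a₆]
  refine ⟨by linear_combination h - x ^ 2 * H.sum, ?_⟩
  by_cases hy : y = 0
  · left
    intro h0
    rw [hy] at h h0
    have h1 : (x - e₁) * (x - e₂) * (x - e₃) = 0 := by rw [← h]; ring
    have h2 : (x - e₁) * (x - e₂) + (x - e₁) * (x - e₃) + (x - e₂) * (x - e₃) = 0 := by
      linear_combination -h0 - (2 * x) * H.sum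
    rcases mul_eq_zero.mp h1 with h1 | h1
    · rcases mul_eq_zero.mp h1 with h1 | h1
      · rw [h1] at h2
        have h3 : (x - e₂) * (x - e₃) = 0 := by linear_combination h2
        rcases mul_eq_zero.mp h3 with h3 | h3
        · exact H.ne₁₂ (by linear_combination h3 - h1)
        · exact H.ne₁₃ (by linear_combination h3 - h1)
      · rw [h1] at h2
        have h3 : (x - e₁) * (x - e₃) = 0 := by linear_combination h2
        rcases mul_eq_zero.mp h3 with h3 | h3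
        · exact H.ne₁₂ (by linear_combination h1 - h3)
        · exact H.ne₂₃ (by linear_combination h3 - h1)
    · rw [h1] at h2
      have h3 : (x - e₁) * (x - e₂) = 0 := by linear_combination h2
      rcases mul_eq_zero.mp h3 with h3 | h3
      · exact H.ne₁₃ (by linear_combination h1 - h3)
      · exact H.ne₂₃ (by linear_combination h1 - h3)
  · right
    intro h0
    apply hy
    have h1 : 2 * y = 0 := by linear_combination h0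
    exact (mul_eq_zero.mp h1).resolve_left H.two

variable [DecidableEq K]

lemma Full.add {W : Affine K} {e₁ e₂ e₃ : K} (H : Full W e₁ e₂ e₃) {x₁ y₁ x₂ y₂ : K}
    (h₁ : W.Nonsingular x₁ y₁) (h₂ : W.Nonsingular x₂ y₂) (hx : x₁ ≠ x₂) :
    ∃ (x₃ y₃ : K) (h₃ : W.Nonsingular x₃ y₃),
      Point.some x₁ y₁ h₁ + Point.some x₂ y₂ h₂ = Point.some x₃ y₃ h₃ ∧
      ∀ e, (e = e₁ ∨ e = e₂ ∨ e = e₃) → IsSquare ((x₁ - e) * (x₂ - e) * (x₃ - e)) := by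
  refine ⟨_, _, _, Point.add_of_X_ne hx, fun e he => ?_⟩
  have hroot : (e - e₁) * (e - e₂) * (e - e₃) = 0 := by
    rcases he with rfl | rfl | rfl <;> ring
  have hD : x₁ - x₂ ≠ 0 := sub_ne_zero.mpr hx
  have hsl : W.slope x₁ x₂ y₁ y₂ = (y₁ - y₂) / (x₁ - x₂) := slope_of_X_ne hx
  set l := W.slope x₁ x₂ y₁ y₂ with hl
  have hlD : l * (x₁ - x₂) = y₁ - y₂ := by rw [hsl]; field_simp
  have hx3 : W.addX x₁ x₂ l = l ^ 2 - x₁ - x₂ := by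
    rw [addX, H.a₁, H.a₂]; ring
  rw [hx3]
  have e1 := H.eq h₁
  have e2 := H.eq h₂
  have hs := H.sum
  set A := e₁ * e₂ + e₁ * e₃ + e₂ * e₃ with hA
  have key : l ^ 2 * (x₁ - x₂) - 2 * l * y₁ + x₁ ^ 2 + x₁ * x₂ + x₂ ^ 2 + A = 0 := by
    have h3 : (x₁ - x₂) * (l ^ 2 * (x₁ - x₂) - 2 * l * y₁ + x₁ ^ 2 + x₁ * x₂ + x₂ ^ 2 + A)
        = 0 := by
      have h4 : (x₁ - x₂) * (x₁ ^ 2 + x₁ * x₂ + x₂ ^ 2 + A) = y₁ ^ 2 - y₂ ^ 2 := by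
        rw [e1, e2, hA]; linear_combination (x₁ ^ 2 - x₂ ^ 2) * hs
      have h5 : (x₁ - x₂) * (l ^ 2 * (x₁ - x₂) - 2 * l * y₁ + x₁ ^ 2 + x₁ * x₂ + x₂ ^ 2 + A)
          = (l * (x₁ - x₂)) ^ 2 - 2 * (l * (x₁ - x₂)) * y₁
            + (x₁ - x₂) * (x₁ ^ 2 + x₁ * x₂ + x₂ ^ 2 + A) := by ring
      rw [h5, h4, hlD]; ring
    exact (mul_eq_zero.mp h3).resolve_left hD
  refine ⟨l * (e - x₁) + y₁, ?_⟩
  have e1' : y₁ ^ 2 = x₁ ^ 3 + A * x₁ - e₁ * e₂ * e₃ := by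
    rw [e1, hA]; linear_combination (-x₁ ^ 2) * hs
  have hroot' : e ^ 3 + A * e - e₁ * e₂ * e₃ = 0 := by
    rw [hA]; linear_combination hroot + e ^ 2 * hs
  linear_combination (-1 : K) * e1' - hroot' + (e - x₁) * key

lemma Full.half {W : Affine K} {e₁ e₂ e₃ : K} (H : Full W e₁ e₂ e₃) {x y : K}
    (h : W.Nonsingular x y) (h₁ : IsSquare (x - e₁)) (h₂ : IsSquare (x - e₂))
    (h₃ : IsSquare (x - e₃)) : ∃ Q : W.Point, Point.some x y h = Q + Q := by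
  obtain ⟨r₁, hr₁⟩ := h₁
  obtain ⟨r₂, hr₂⟩ := h₂
  obtain ⟨s₃, hs₃⟩ := h₃
  have hy2 : y ^ 2 = (r₁ * r₂ * s₃) ^ 2 := by
    rw [H.eq h, hr₁, hr₂, hs₃]; ring
  obtain ⟨r₃, hr₃, hy⟩ : ∃ r₃, x - e₃ = r₃ * r₃ ∧ y = r₁ * r₂ * r₃ := by
    rcases sq_eq_sq_iff_eq_or_eq_neg.mp hy2 with h4 | h4
    · exact ⟨s₃, hs₃, h4⟩
    · exact ⟨-s₃, by rw [hs₃]; ring, by rw [h4]; ring⟩
  clear hs₃ hy2
  have hs := H.sum
  set x₀ := x + r₁ * r₂ + r₁ * r₃ + r₂ * r₃ with hx₀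
  set y₀ := (r₁ + r₂) * (r₁ + r₃) * (r₂ + r₃) with hy₀
  have f1 : x₀ - e₁ = (r₁ + r₂) * (r₁ + r₃) := by rw [hx₀]; linear_combination hr₁
  have f2 : x₀ - e₂ = (r₁ + r₂) * (r₂ + r₃) := by rw [hx₀]; linear_combination hr₂
  have f3 : x₀ - e₃ = (r₁ + r₃) * (r₂ + r₃) := by rw [hx₀]; linear_combination hr₃
  have h0 : W.Nonsingular x₀ y₀ := H.nonsingular (by rw [f1, f2, f3, hy₀]; ring)
  have hy0 : y₀ ≠ 0 := by
    intro h0
    rcases mul_eq_zero.mp h0 with h0 | h0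
    · rcases mul_eq_zero.mp h0 with h0 | h0
      · exact H.ne₁₂ (by linear_combination hr₂ - hr₁ - (r₁ - r₂) * h0)
      · exact H.ne₁₃ (by linear_combination hr₃ - hr₁ - (r₁ - r₃) * h0)
    · exact H.ne₂₃ (by linear_combination hr₃ - hr₂ - (r₂ - r₃) * h0)
  have hne : y₀ ≠ W.negY x₀ y₀ := by
    intro h1
    rw [negY, H.a₁, H.a₃] at h1
    have h2 : 2 * y₀ = 0 := by linear_combination h1
    exact hy0 ((mul_eq_zero.mp h2).resolve_left H.two)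
  have hsl : W.slope x₀ x₀ y₀ y₀ = r₁ + r₂ + r₃ := by
    rw [slope_of_Y_ne rfl hne, negY, H.a₁, H.a₂, H.a₃, H.a₄]
    have h2 : y₀ - (-y₀ - 0 * x₀ - 0) = 2 * y₀ := by ring
    rw [h2, div_eq_iff (mul_ne_zero H.two hy0)]
    have h3 : 3 * x₀ ^ 2 + 2 * 0 * x₀ + (e₁ * e₂ + e₁ * e₃ + e₂ * e₃) - 0 * y₀ =
        (x₀ - e₁) * (x₀ - e₂) + (x₀ - e₁) * (x₀ - e₃) + (x₀ - e₂) * (x₀ - e₃) := by
      linear_combination (2 * x₀) * hs
    rw [h3, f1, f2, f3, hy₀]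
    ring
  have hX : W.addX x₀ x₀ (W.slope x₀ x₀ y₀ y₀) = x := by
    rw [hsl, addX, H.a₁, H.a₂, hx₀]
    linear_combination (-1 : K) * hr₁ - hr₂ - hr₃ - hs
  have hY : W.addY x₀ x₀ y₀ (W.slope x₀ x₀ y₀ y₀) = y := by
    rw [addY, negAddY, hX, hsl, negY, H.a₁, H.a₃, hy, hx₀, hy₀]
    ring
  refine ⟨Point.some x₀ y₀ h0, ?_⟩
  rw [Point.add_self_of_Y_ne hne, Point.some.injEq]
  exact ⟨hX.symm, hY.symm⟩

end Pool.Agent.H42M
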