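import Pool.Agent.H42M.Desc
import Pool.Agent.H42M.Law
import Pool.Agent.H42M.Abs

/-! # Two-descent on two elliptic curves of conductor 15: the group of points (helper42) -/

namespace Pool.Agent.H42M

open NumberField WeierstrassCurve WeierstrassCurve.Affine

/-- Cremona's curve 15a1 in short Weierstrass form -/
def E1 : WeierstrassCurve ℚ := ⟨0, 0, 0, -12987, -263466⟩

/-- Cremona's curve 15a3 in short Weierstrass form -/
def E2 : WeierstrassCurve ℚ := ⟨0, 0, 0, -6507, 199206⟩

section general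

variable {F : Type*} [Field F] [NumberField F] [DecidableEq F]

/-- the rational points killed by 4 -/
noncomputable def G0 (W : WeierstrassCurve ℚ) (F : Type*) [Field F] [NumberField F]
    [DecidableEq F] : AddSubgroup (W⁄F).Point :=
  (Point.map (W' := W) (Algebra.ofId ℚ F)).range ⊓ (zsmulAddGroupHom (α := (W⁄F).Point) 4).ker

lemma mem_G0 {W : WeierstrassCurve ℚ} {P : (W⁄F).Point} : P ∈ G0 W F ↔
    (∃ Q, Point.map (W' := W) (Algebra.ofId ℚ F) Q = P) ∧ (4 : ℤ) • P = 0 := by
  rw [G0, AddSubgroup.mem_inf, AddMonoidHom.mem_range, AddMonoidHom.mem_ker]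
  rfl

lemma mem_G0_some {W : WeierstrassCurve ℚ} {a b : ℚ} {x y : F} (hx : x = (a : F))
    (hy : y = (b : F)) (h : (W⁄F).Nonsingular x y) (h4 : (4 : ℤ) • Point.some x y h = 0) :
    Point.some x y h ∈ G0 W F := by
  rw [mem_G0]
  refine ⟨?_, h4⟩
  have hax : x = Algebra.ofId ℚ F a := by rw [hx]; simp
  have hay : y = Algebra.ofId ℚ F b := by rw [hy]; simp
  subst hax
  subst hay
  have h1 : (W⁄ℚ).Nonsingular a b :=
    (Affine.baseChange_nonsingular W (f := Algebra.ofId ℚ F) (Algebra.ofId ℚ F).injective a b).mp h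
  exact ⟨Point.some a b h1, rfl⟩

omit [NumberField F] in
lemma two_tors {W : Affine F} {e₁ e₂ e₃ : F} (H : Full W e₁ e₂ e₃) {x y : F}
    (h : W.Nonsingular x y) (hy : y = 0) : Point.some x y h + Point.some x y h = 0 := by
  refine Point.add_self_of_Y_eq ?_
  rw [negY, H.a₁, H.a₃, hy]; ring

omit [NumberField F] in
lemma four_tors {W : Affine F} {e₁ e₂ e₃ : F} (H : Full W e₁ e₂ e₃) {x y m : F}
    (h : W.Nonsingular x y) (hy : y ≠ 0) (hm : m * (2 * y) = 3 * x ^ 2 + W.a₄)
    (hy' : m * (m ^ 2 - 3 * x) + y = 0) : (4 : ℤ) • Point.some x y h = 0 := by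
  have hne : y ≠ W.negY x y := by
    intro h1
    rw [negY, H.a₁, H.a₃] at h1
    have h2 : 2 * y = 0 := by linear_combination h1
    exact hy ((mul_eq_zero.mp h2).resolve_left H.two)
  have hsl : W.slope x x y y = m := by
    rw [slope_of_Y_ne rfl hne, negY, H.a₁, H.a₂, H.a₃]
    have h2 : y - (-y - 0 * x - 0) = 2 * y := by ring
    rw [h2, div_eq_iff (mul_ne_zero H.two hy), hm]
    ring
  have hY : W.addY x x y (W.slope x x y y) = 0 := by
    rw [addY, negAddY, addX, hsl, negY, H.a₁, H.a₂, H.a₃]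
    linear_combination (-1 : F) * hy'
  have h4 : (4 : ℤ) • Point.some x y h =
      (Point.some x y h + Point.some x y h) + (Point.some x y h + Point.some x y h) := by
    rw [show (4 : ℤ) = 2 + 2 by norm_num, add_zsmul, two_zsmul]
  rw [h4, Point.add_self_of_Y_ne hne]
  exact two_tors H _ hY

lemma mem_G0_two {W : WeierstrassCurve ℚ} {e₁ e₂ e₃ : F} (H : Full (W⁄F) e₁ e₂ e₃)
    (h₁ : ∃ a : ℚ, e₁ = a) (h₂ : ∃ a : ℚ, e₂ = a) (h₃ : ∃ a : ℚ, e₃ = a) {x y : F}
    (h : (W⁄F).Nonsingular x y) (hy : y = 0) : Point.some x y h ∈ G0 W F := by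
  have h1 := H.eq h
  have h4 : (4 : ℤ) • Point.some x y h = 0 := by
    have h5 : (4 : ℤ) • Point.some x y h =
        (Point.some x y h + Point.some x y h) + (Point.some x y h + Point.some x y h) := by
      rw [show (4 : ℤ) = 2 + 2 by norm_num, add_zsmul, two_zsmul]
    rw [h5, two_tors H h hy, add_zero]
  have hx : (x - e₁) * (x - e₂) * (x - e₃) = 0 := by rw [← h1, hy]; ring
  have key : ∃ a : ℚ, x = a := by
    rcases mul_eq_zero.mp hx with hx | hx
    · rcases mul_eq_zero.mp hx with hx | hx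
      · obtain ⟨a, ha⟩ := h₁
        exact ⟨a, by rw [← ha]; linear_combination hx⟩
      · obtain ⟨a, ha⟩ := h₂
        exact ⟨a, by rw [← ha]; linear_combination hx⟩
    · obtain ⟨a, ha⟩ := h₃
      exact ⟨a, by rw [← ha]; linear_combination hx⟩
  obtain ⟨a, ha⟩ := key
  exact mem_G0_some (a := a) (b := 0) ha (by rw [hy]; simp) h h4

/-- translation by a rational point of order dividing 4 -/
lemma translate {W : WeierstrassCurve ℚ} {e₁ e₂ e₃ : F} (H : Full (W⁄F) e₁ e₂ e₃)
    {x y : F} {h : (W⁄F).Nonsingular x y} (hP : Point.some x y h ∉ G0 W F)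
    {a b : F} {h' : (W⁄F).Nonsingular a b} (hT : Point.some a b h' ∈ G0 W F) :
    ∃ (x₃ y₃ : F) (h₃ : (W⁄F).Nonsingular x₃ y₃),
      Point.some x y h + Point.some a b h' = Point.some x₃ y₃ h₃ ∧
      Point.some x₃ y₃ h₃ ∉ G0 W F ∧
      ∀ e, (e = e₁ ∨ e = e₂ ∨ e = e₃) → IsSquare ((x - e) * (a - e) * (x₃ - e)) := by
  have hx : x ≠ a := by
    intro hx
    rcases (Point.X_eq_iff (h₁ := h) (h₂ := h')).mp hx with h1 | h1
    · rw [h1] at hP; exact hP hT
    · rw [h1] at hP; exact hP (neg_mem hT)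
  obtain ⟨x₃, y₃, h₃, hadd, hcl⟩ := H.add h h' hx
  refine ⟨x₃, y₃, h₃, hadd, ?_, hcl⟩
  rw [← hadd]
  intro h4
  exact hP ((AddSubgroup.add_mem_cancel_right _ hT).mp h4)

omit [NumberField F] [DecidableEq F] in
lemma isSquare_of_mul_sq {a c : F} (hc : c ≠ 0) (h : IsSquare (c ^ 2 * a)) : IsSquare a := by
  obtain ⟨t, ht⟩ := h
  exact ⟨t / c, by rw [div_mul_div_comm, ← ht]; field_simp⟩

omit [NumberField F] [DecidableEq F] in
/-- if `x a z` and `a x` are squares then `z` is a square -/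
lemma isSquare_third {x a z : F} (hxa : IsSquare (x * a)) (h0 : x * a ≠ 0)
    (h : IsSquare (x * a * z)) : IsSquare z := by
  obtain ⟨t, ht⟩ := hxa
  obtain ⟨s, hs⟩ := h
  have ht0 : t ≠ 0 := by rintro rfl; apply h0; rw [ht]; ring
  refine isSquare_of_mul_sq ht0 ⟨s, ?_⟩
  rw [← hs, ht]; ring

end general

section curves

variable {F : Type*} [Field F] [NumberField F]

lemma full_E2 : Full (E2⁄F) 51 42 (-93) where
  a₁ := by simp [E2]
  a₂ := by simp [E2]
  a₃ := by simp [E2]
  sum := by norm_num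
  a₄ := by simp [E2]; norm_num
  a₆ := by simp [E2]; norm_num
  ne₁₂ := by norm_num
  ne₁₃ := by norm_num
  ne₂₃ := by norm_num
  two := by norm_num

lemma full_E1 : Full (E1⁄F) (-102) (-21) 123 where
  a₁ := by simp [E1]
  a₂ := by simp [E1]
  a₃ := by simp [E1]
  sum := by norm_num
  a₄ := by simp [E1]; norm_num
  a₆ := by simp [E1]; norm_num
  ne₁₂ := by norm_num
  ne₁₃ := by norm_num
  ne₂₃ := by norm_num
  two := by norm_num

variable [DecidableEq F]

/-- points of `E2` with `x + 93` a square are divisible by 2 -/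
lemma half_E2 (H : Hyp F) {x y : F} {h : (E2⁄F).Nonsingular x y}
    (hP : Point.some x y h ∉ G0 E2 F) (hsq : IsSquare (x + 93)) :
    ∃ Q : (E2⁄F).Point, Point.some x y h = Q + Q := by
  have hy : y ≠ 0 := fun hy => hP (mem_G0_two full_E2 ⟨51, by simp⟩ ⟨42, by simp⟩
    ⟨-93, by simp⟩ h hy)
  have he := (full_E2 (F := F)).eq h
  set X : F := (x - 51) / 9 with hX
  set Y : F := y / 27 with hY
  have hY0 : Y ≠ 0 := div_ne_zero hy (by norm_num)
  have e : Y ^ 2 = X * (X + 1) * (X + 16) := by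
    rw [hY, div_pow, he, hX]; ring
  obtain ⟨t, ht⟩ := hsq
  have ht0 : t ≠ 0 := by
    rintro rfl
    apply hY0
    have h1 : X + 16 = 0 := by rw [hX]; linear_combination ht / 9
    rw [h1, mul_zero] at e
    exact pow_eq_zero_iff (two_ne_zero) |>.mp e
  obtain ⟨s, hs⟩ : IsSquare X := by
    have := E2_X H hY0 e (d := 1) (ε := 1) (by decide) (by decide) (by decide) (r := t / 3)
      (by push_cast; rw [hX]; linear_combination ht / 9)
    simpa using this
  have hs0 : s ≠ 0 := by
    rintro rfl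
    apply hY0
    rw [hs, mul_zero, zero_mul, zero_mul] at e
    exact pow_eq_zero_iff (two_ne_zero) |>.mp e
  refine full_E2.half h ⟨3 * s, ?_⟩ ⟨y / (3 * s * t), ?_⟩ ⟨t, ?_⟩
  · rw [hX] at hs; linear_combination 9 * hs
  · rw [div_mul_div_comm, eq_div_iff (mul_ne_zero (mul_ne_zero (mul_ne_zero (by norm_num) hs0) ht0)
      (mul_ne_zero (mul_ne_zero (by norm_num) hs0) ht0))]
    have h1 : 3 * s * t * (3 * s * t) = (x - 51) * (x - -93) := by
      have h2 : x - 51 = 9 * (s * s) := by rw [← hs, hX]; field_simp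
      rw [h2]; linear_combination (-9 * s * s) * ht
    rw [h1]; linear_combination -he
  · linear_combination ht

theorem step_E2 (H : Hyp F) (P : (E2⁄F).Point) : ∃ T ∈ G0 E2 F, ∃ Q, P + T = Q + Q := by
  by_cases hP : P ∈ G0 E2 F
  · exact ⟨-P, neg_mem hP, 0, by rw [add_neg_cancel, add_zero]⟩
  rcases P with _ | ⟨x, y, h⟩
  · exact absurd (zero_mem _) hP
  have hy : y ≠ 0 := fun hy => hP (mem_G0_two full_E2 ⟨51, by simp⟩ ⟨42, by simp⟩
    ⟨-93, by simp⟩ h hy)
  have he := (full_E2 (F := F)).eq h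
  set X : F := (x - 51) / 9 with hX
  set Y : F := y / 27 with hY
  have hY0 : Y ≠ 0 := div_ne_zero hy (by norm_num)
  have e : Y ^ 2 = X * (X + 1) * (X + 16) := by
    rw [hY, div_pow, he, hX]; ring
  obtain ⟨δ, hδ, t, ht⟩ := E2_class H hY0 e
  have hxX : x + 93 = 9 * (X + 16) := by rw [hX]; ring
  have hx0 : x + 93 ≠ 0 := by
    intro h0
    apply hy
    have h1 : x - -93 = 0 := by linear_combination h0
    rw [h1, mul_zero] at he
    exact pow_eq_zero_iff (two_ne_zero) |>.mp he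
  have main : ∀ (a b : F) (h' : (E2⁄F).Nonsingular a b), Point.some a b h' ∈ G0 E2 F →
      a + 93 ≠ 0 → IsSquare ((x + 93) * (a + 93)) →
      ∃ T ∈ G0 E2 F, ∃ Q, Point.some x y h + T = Q + Q := by
    intro a b h' hT ha hsq
    obtain ⟨x₃, y₃, h₃, hadd, hP₃, hcl⟩ := translate full_E2 hP hT
    refine ⟨_, hT, ?_⟩
    rw [hadd]
    refine half_E2 H hP₃ ?_
    refine isSquare_third hsq (mul_ne_zero hx0 ha) ?_
    have := hcl (-93) (Or.inr (Or.inr rfl))
    rwa [sub_neg_eq_add, sub_neg_eq_add, sub_neg_eq_add] at this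
  rcases hδ with rfl | rfl | rfl | rfl
  · refine ⟨0, zero_mem _, ?_⟩
    rw [add_zero]
    exact half_E2 H hP ⟨3 * t, by rw [hxX]; linear_combination 9 * ht⟩
  · have h' : (E2⁄F).Nonsingular (15 : F) 324 := full_E2.nonsingular (by norm_num)
    refine main 15 324 h' (mem_G0_some (a := 15) (b := 324) (by simp) (by simp) h' ?_)
      (by norm_num) ⟨18 * t, ?_⟩
    · refine four_tors full_E2 h' (m := -9) (by norm_num) ?_ (by norm_num)
      simp [E2]; norm_num
    · rw [hxX]; linear_combination 324 * ht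
  · have h' : (E2⁄F).Nonsingular (87 : F) 540 := full_E2.nonsingular (by norm_num)
    refine main 87 540 h' (mem_G0_some (a := 87) (b := 540) (by simp) (by simp) h' ?_)
      (by norm_num) ⟨18 * t, ?_⟩
    · refine four_tors full_E2 h' (m := 15) (by norm_num) ?_ (by norm_num)
      simp [E2]; norm_num
    · rw [hxX]; linear_combination 324 * ht
  · have h' : (E2⁄F).Nonsingular (42 : F) 0 := full_E2.nonsingular (by norm_num)
    refine main 42 0 h' (mem_G0_two full_E2 ⟨51, by simp⟩ ⟨42, by simp⟩ ⟨-93, by simp⟩ h' rfl)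
      (by norm_num) ⟨9 * t, ?_⟩
    rw [hxX]; linear_combination 81 * ht

/-- points of `E1` with `x + 102` a square -/
lemma half_E1 (H : Hyp F) {x y : F} {h : (E1⁄F).Nonsingular x y}
    (hP : Point.some x y h ∉ G0 E1 F) (hsq : IsSquare (x + 102)) :
    ∃ T ∈ G0 E1 F, ∃ Q : (E1⁄F).Point, Point.some x y h + T = Q + Q := by
  -- the two squares give the third
  have third : ∀ {x y : F} {h : (E1⁄F).Nonsingular x y}, Point.some x y h ∉ G0 E1 F →
      IsSquare (x + 102) → IsSquare (x - 123) → ∃ Q : (E1⁄F).Point, Point.some x y h = Q + Q := by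
    intro x y h hP h1 h3
    have hy : y ≠ 0 := fun hy => hP (mem_G0_two full_E1 ⟨-102, by simp⟩ ⟨-21, by simp⟩
      ⟨123, by simp⟩ h hy)
    have he := (full_E1 (F := F)).eq h
    obtain ⟨s, hs⟩ := h1
    obtain ⟨t, ht⟩ := h3
    have hs0 : s ≠ 0 := by
      rintro rfl
      apply hy
      have h1 : x - -102 = 0 := by linear_combination hs
      rw [h1, zero_mul, zero_mul] at he
      exact pow_eq_zero_iff (two_ne_zero) |>.mp he
    have ht0 : t ≠ 0 := by
      rintro rfl
      apply hy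
      have h1 : x - 123 = 0 := by linear_combination ht
      rw [h1, mul_zero] at he
      exact pow_eq_zero_iff (two_ne_zero) |>.mp he
    refine full_E1.half h ⟨s, by linear_combination hs⟩ ⟨y / (s * t), ?_⟩ ⟨t, ht⟩
    rw [div_mul_div_comm, eq_div_iff (mul_ne_zero (mul_ne_zero hs0 ht0) (mul_ne_zero hs0 ht0))]
    have h1 : s * t * (s * t) = (x - -102) * (x - 123) := by
      rw [ht]; linear_combination (-(t * t)) * hs
    rw [h1]; linear_combination -he
  have hy : y ≠ 0 := fun hy => hP (mem_G0_two full_E1 ⟨-102, by simp⟩ ⟨-21, by simp⟩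
    ⟨123, by simp⟩ h hy)
  have he := (full_E1 (F := F)).eq h
  set X : F := (x + 102) / 9 with hX
  set Y : F := y / 27 with hY
  have hY0 : Y ≠ 0 := div_ne_zero hy (by norm_num)
  have e : Y ^ 2 = X * (X - 9) * (X - 25) := by
    rw [hY, div_pow, he, hX]; ring
  have hXsq : IsSquare X := by
    obtain ⟨t, ht⟩ := hsq
    exact ⟨t / 3, by rw [hX]; linear_combination ht / 9⟩
  rcases E1_second H hY0 e hXsq with ⟨w, hw⟩ | ⟨w, hw⟩
  · refine ⟨0, zero_mem _, ?_⟩
    rw [add_zero]
    refine third hP hsq ⟨3 * w, ?_⟩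
    rw [hX] at hw; linear_combination 9 * hw
  · have h' : (E1⁄F).Nonsingular (-21 : F) 0 := full_E1.nonsingular (by norm_num)
    have hT : Point.some (-21 : F) 0 h' ∈ G0 E1 F :=
      mem_G0_two full_E1 ⟨-102, by simp⟩ ⟨-21, by simp⟩ ⟨123, by simp⟩ h' rfl
    obtain ⟨x₃, y₃, h₃, hadd, hP₃, hcl⟩ := translate full_E1 hP hT
    refine ⟨_, hT, ?_⟩
    rw [hadd]
    have hx1 : x + 102 ≠ 0 := by
      intro h0
      apply hy
      have h1 : x - -102 = 0 := by linear_combination h0
      rw [h1, zero_mul, zero_mul] at he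
      exact pow_eq_zero_iff (two_ne_zero) |>.mp he
    have hx3 : x - 123 ≠ 0 := by
      intro h0
      apply hy
      rw [h0, mul_zero] at he
      exact pow_eq_zero_iff (two_ne_zero) |>.mp he
    refine third hP₃ ?_ ?_
    · have h1 := hcl (-102) (Or.inl rfl)
      obtain ⟨t, ht⟩ := hsq
      refine isSquare_third (x := x + 102) (a := 81) ⟨9 * t, ?_⟩ (mul_ne_zero hx1 (by norm_num)) ?_
      · linear_combination 81 * ht
      · obtain ⟨u, hu⟩ := h1
        exact ⟨u, by linear_combination hu⟩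
    · have h1 := hcl 123 (Or.inr (Or.inr rfl))
      refine isSquare_third (x := x - 123) (a := -144) ⟨36 * w, ?_⟩
        (mul_ne_zero hx3 (by norm_num)) ?_
      · rw [hX] at hw; linear_combination 1296 * hw
      · obtain ⟨u, hu⟩ := h1
        exact ⟨u, by linear_combination hu⟩

theorem step_E1 (H : Hyp F) (P : (E1⁄F).Point) : ∃ T ∈ G0 E1 F, ∃ Q, P + T = Q + Q := by
  by_cases hP : P ∈ G0 E1 F
  · exact ⟨-P, neg_mem hP, 0, by rw [add_neg_cancel, add_zero]⟩
  rcases P with _ | ⟨x, y, h⟩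
  · exact absurd (zero_mem _) hP
  have hy : y ≠ 0 := fun hy => hP (mem_G0_two full_E1 ⟨-102, by simp⟩ ⟨-21, by simp⟩
    ⟨123, by simp⟩ h hy)
  have he := (full_E1 (F := F)).eq h
  set X : F := (x + 102) / 9 with hX
  set Y : F := y / 27 with hY
  have hY0 : Y ≠ 0 := div_ne_zero hy (by norm_num)
  have e : Y ^ 2 = X * (X - 9) * (X - 25) := by
    rw [hY, div_pow, he, hX]; ring
  rcases E1_class H hY0 e with ⟨t, ht⟩ | ⟨t, ht⟩
  · exact half_E1 H hP ⟨3 * t, by rw [hX] at ht; linear_combination 9 * ht⟩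
  · have h' : (E1⁄F).Nonsingular (303 : F) 4860 := full_E1.nonsingular (by norm_num)
    have hT : Point.some (303 : F) 4860 h' ∈ G0 E1 F := by
      refine mem_G0_some (a := 303) (b := 4860) (by simp) (by simp) h' ?_
      refine four_tors full_E1 h' (m := 27) (by norm_num) ?_ (by norm_num)
      simp [E1]; norm_num
    obtain ⟨x₃, y₃, h₃, hadd, hP₃, hcl⟩ := translate full_E1 hP hT
    have hx1 : x + 102 ≠ 0 := by
      intro h0
      apply hy
      have h1 : x - -102 = 0 := by linear_combination h0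
      rw [h1, zero_mul, zero_mul] at he
      exact pow_eq_zero_iff (two_ne_zero) |>.mp he
    obtain ⟨T', hT', Q, hQ⟩ := half_E1 H hP₃ (by
      have h1 := hcl (-102) (Or.inl rfl)
      refine isSquare_third (x := x + 102) (a := 405) ⟨27 * t, ?_⟩
        (mul_ne_zero hx1 (by norm_num)) ?_
      · rw [hX] at ht; linear_combination 729 * ht
      · obtain ⟨u, hu⟩ := h1
        exact ⟨u, by linear_combination hu⟩)
    refine ⟨_, add_mem hT hT', Q, ?_⟩
    rw [← add_assoc, hadd, hQ]

end curves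

end Pool.Agent.H42M
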