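import Pool.Agent.H42M.Group

/-! # Two-descent on two elliptic curves of conductor 15: finiteness (helper42) -/

namespace Pool.Agent.H42M

open NumberField WeierstrassCurve WeierstrassCurve.Affine Height
open Pool.Agent.H7.Vojta

variable {F : Type*} [Field F] [NumberField F] [DecidableEq F]

theorem finite_of_step (W : WeierstrassCurve ℚ) [W.IsElliptic]
    (step : ∀ P : (W⁄F).Point, ∃ T ∈ G0 W F, ∃ Q, P + T = Q + Q) :
    Finite (W⁄F).Point ∧ ∀ P : (W⁄F).Point, ∃ n : ℕ, Odd n ∧ n • P ∈ G0 W F := by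
  obtain ⟨C, -, hC⟩ := exists_parallelogram W
  obtain ⟨q, hq, hq0, hqn⟩ := exists_canonical (G := (W⁄F).Point) (h := naive)
    (c := C * totalWeight F) (fun x y => hC F x y) (fun x => naive_nonneg x)
  refine finite_of_descent (G0 W F) (fun T hT => (mem_G0.mp hT).2) step hq hq0 fun c => ?_
  refine (finite_naive_le (W⁄F) (c + C * totalWeight F)).subset fun P hP => ?_
  have h1 := hqn P
  rw [abs_le] at h1
  have h2 : q P ≤ c := hP
  have h3 : naive P ≤ c + C * totalWeight F := by linarith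
  exact h3

instance : E1.IsElliptic := by
  rw [WeierstrassCurve.isElliptic_iff]
  rw [isUnit_iff_ne_zero]
  simp [E1, WeierstrassCurve.Δ, WeierstrassCurve.b₂, WeierstrassCurve.b₄, WeierstrassCurve.b₆,
    WeierstrassCurve.b₈]
  norm_num

instance : E2.IsElliptic := by
  rw [WeierstrassCurve.isElliptic_iff]
  rw [isUnit_iff_ne_zero]
  simp [E2, WeierstrassCurve.Δ, WeierstrassCurve.b₂, WeierstrassCurve.b₄, WeierstrassCurve.b₆,
    WeierstrassCurve.b₈]
  norm_num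

theorem main_E1 (H : Hyp F) : Finite (E1⁄F).Point ∧ ∀ P : (E1⁄F).Point, ∃ n : ℕ, Odd n ∧
    ∃ Q, n • P = Point.map (W' := E1) (Algebra.ofId ℚ F) Q := by
  obtain ⟨h1, h2⟩ := finite_of_step E1 (step_E1 H)
  refine ⟨h1, fun P => ?_⟩
  obtain ⟨n, hn, hP⟩ := h2 P
  obtain ⟨Q, hQ⟩ := (mem_G0.mp hP).1
  exact ⟨n, hn, Q, hQ.symm⟩

theorem main_E2 (H : Hyp F) : Finite (E2⁄F).Point ∧ ∀ P : (E2⁄F).Point, ∃ n : ℕ, Odd n ∧
    ∃ Q, n • P = Point.map (W' := E2) (Algebra.ofId ℚ F) Q := by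
  obtain ⟨h1, h2⟩ := finite_of_step E2 (step_E2 H)
  refine ⟨h1, fun P => ?_⟩
  obtain ⟨n, hn, hP⟩ := h2 P
  obtain ⟨Q, hQ⟩ := (mem_G0.mp hP).1
  exact ⟨n, hn, Q, hQ.symm⟩

end Pool.Agent.H42M
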