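import Mathlib

/-! # From elliptic curves with level structure to points of the two curves: algebra (helper42) -/

namespace Pool.Agent.H42M

/-- the affine points of `15a1` are the seven rational ones -/
def Seven1 (F : Type*) [Field F] : Prop :=
  ∀ x y : F, y ^ 2 + x * y + y = x ^ 3 + x ^ 2 - 10 * x - 10 →
    (x = -1 ∧ y = 0) ∨ (x = 3 ∧ y = -2) ∨ (x = -13 / 4 ∧ y = 9 / 8) ∨
      (x = 8 ∧ (y = 18 ∨ y = -27)) ∨ (x = -2 ∧ (y = 3 ∨ y = -2))

/-- the affine points of `15a3` are the seven rational ones -/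
def Seven2 (F : Type*) [Field F] : Prop :=
  ∀ x y : F, y ^ 2 + x * y + y = x ^ 3 + x ^ 2 - 5 * x + 2 →
    (x = 1 ∧ y = -1) ∨ (x = -3 ∧ y = 1) ∨ (x = 3 / 4 ∧ y = -7 / 8) ∨
      (x = 2 ∧ (y = 1 ∨ y = -4)) ∨ (x = 0 ∧ (y = 1 ∨ y = -2))

variable {F : Type*} [Field F] [CharZero F]

/-- the quartic model of `X₀(15)` -/
lemma quartic1 (hE : Seven1 F) {w Z : F} (hw : w ≠ 0)
    (hZ : Z ^ 2 = 45 * w ^ 4 + 150 * w ^ 3 + 191 * w ^ 2 + 110 * w + 25) :
    w = -1 ∨ w = -5 / 3 ∨ w = -2 / 3 := by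
  obtain ⟨X, hX⟩ : ∃ X : F, X * w ^ 2 = 10 * (Z + 5) + 110 * w :=
    ⟨(10 * (Z + 5) + 110 * w) / w ^ 2, by field_simp⟩
  obtain ⟨Y, hY⟩ : ∃ Y : F, Y * w = 10 * X + 700 := ⟨(10 * X + 700) / w, by field_simp⟩
  have hw2 : w ^ 2 ≠ 0 := pow_ne_zero 2 hw
  have hq : (X ^ 2 - 4500) * w ^ 2 - (220 * X + 15000) * w - (100 * X + 7000) = 0 := by
    apply (mul_eq_zero.mp _).resolve_left hw2
    have hZ' : Z = (X * w ^ 2 - 110 * w) / 10 - 5 := by
      linear_combination -hX / 10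
    rw [hZ'] at hZ
    linear_combination 100 * hZ
  have hcurve : (Y + 11 * X + 750) ^ 2 = (X + 50) * (X + 66) * (X + 75) := by
    rw [← sub_eq_zero]
    apply (mul_eq_zero.mp _).resolve_left hw2
    linear_combination -(X + 70) * hq + (Y * w + 10 * X + 700 + 2 * (11 * X + 750) * w) * hY
  have h1 := hE ((X + 62) / 4) (((Y + 11 * X + 750) / 4 - (X + 62) / 4 - 1) / 2) (by
    linear_combination hcurve / 64)
  have key : ∀ (X' Y' : F), (X + 62) / 4 = X' →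
      ((Y + 11 * X + 750) / 4 - (X + 62) / 4 - 1) / 2 = Y' →
      X = 4 * X' - 62 ∧ Y = 4 * (2 * Y' + X' + 1) - 11 * (4 * X' - 62) - 750 := by
    intro X' Y' h h'
    have hXX : X = 4 * X' - 62 := by linear_combination 4 * h
    refine ⟨hXX, ?_⟩
    rw [← hXX]
    linear_combination 8 * h' + 4 * h
  rcases h1 with ⟨h1, h2⟩ | ⟨h1, h2⟩ | ⟨h1, h2⟩ | ⟨h1, h2 | h2⟩ | ⟨h1, h2 | h2⟩
  · obtain ⟨hXv, hYv⟩ := key _ _ h1 h2
    rw [hXv, hYv] at hY
    right; left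
    linear_combination -hY / 24
  · obtain ⟨hXv, hYv⟩ := key _ _ h1 h2
    rw [hXv, hYv] at hY
    left
    linear_combination -hY / 200
  · obtain ⟨hXv, hYv⟩ := key _ _ h1 h2
    rw [hXv, hYv] at hY
    right; right
    linear_combination hY / 75
  · obtain ⟨hXv, hYv⟩ := key _ _ h1 h2
    rw [hXv, hYv] at hY
    right; left
    linear_combination -hY / 240
  · obtain ⟨hXv, hYv⟩ := key _ _ h1 h2
    rw [hXv, hYv] at hY
    right; right
    linear_combination -hY / 600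
  · obtain ⟨hXv, hYv⟩ := key _ _ h1 h2
    rw [hXv, hYv] at hY
    exfalso; apply hw
    linear_combination hY / 40
  · obtain ⟨hXv, hYv⟩ := key _ _ h1 h2
    rw [hXv] at hq
    left
    have h3 : w * (400 * (w + 1)) = 0 := by linear_combination hq
    rcases mul_eq_zero.mp h3 with h3 | h3
    · exact absurd h3 hw
    · linear_combination h3 / 400

/-- the quartic model of `X(s3, b5)` -/
lemma quartic2 (hE : Seven2 F) {r W : F} (hr : r ≠ 0)
    (hW : W ^ 2 = r ^ 4 + 2 * r ^ 3 - r ^ 2 + 10 * r + 25) : r = -2 ∨ r = -5 / 2 := by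
  obtain ⟨X, hX⟩ : ∃ X : F, X * r ^ 2 = 10 * (W + 5) + 10 * r :=
    ⟨(10 * (W + 5) + 10 * r) / r ^ 2, by field_simp⟩
  obtain ⟨Y, hY⟩ : ∃ Y : F, Y * r = 10 * X - 20 := ⟨(10 * X - 20) / r, by field_simp⟩
  have hr2 : r ^ 2 ≠ 0 := pow_ne_zero 2 hr
  have hq : (X ^ 2 - 100) * r ^ 2 - (20 * X + 200) * r - (100 * X - 200) = 0 := by
    apply (mul_eq_zero.mp _).resolve_left hr2
    have hW' : W = (X * r ^ 2 - 10 * r) / 10 - 5 := by
      linear_combination -hX / 10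
    rw [hW'] at hW
    linear_combination 100 * hW
  have hcurve : (Y + X + 10) ^ 2 = (X - 5) * (X + 10) * (X - 6) := by
    rw [← sub_eq_zero]
    apply (mul_eq_zero.mp _).resolve_left hr2
    linear_combination -(X - 2) * hq + (Y * r + 10 * X - 20 + 2 * (X + 10) * r) * hY
  have h1 := hE ((X - 2) / 4) (((Y + X + 10) / 4 - (X - 2) / 4 - 1) / 2) (by
    linear_combination hcurve / 64)
  have key : ∀ (X' Y' : F), (X - 2) / 4 = X' →
      ((Y + X + 10) / 4 - (X - 2) / 4 - 1) / 2 = Y' →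
      X = 4 * X' + 2 ∧ Y = 4 * (2 * Y' + X' + 1) - (4 * X' + 2) - 10 := by
    intro X' Y' h h'
    have hXX : X = 4 * X' + 2 := by linear_combination 4 * h
    refine ⟨hXX, ?_⟩
    rw [← hXX]
    linear_combination 8 * h' + 4 * h
  rcases h1 with ⟨h1, h2⟩ | ⟨h1, h2⟩ | ⟨h1, h2⟩ | ⟨h1, h2 | h2⟩ | ⟨h1, h2 | h2⟩
  · obtain ⟨hXv, hYv⟩ := key _ _ h1 h2
    rw [hXv, hYv] at hY
    right
    linear_combination -hY / 16
  · obtain ⟨hXv, hYv⟩ := key _ _ h1 h2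
    rw [hXv, hYv] at hY
    norm_num at hY
  · obtain ⟨hXv, hYv⟩ := key _ _ h1 h2
    rw [hXv, hYv] at hY
    left
    linear_combination -hY / 15
  · obtain ⟨hXv, hYv⟩ := key _ _ h1 h2
    rw [hXv, hYv] at hY
    norm_num at hY
  · obtain ⟨hXv, hYv⟩ := key _ _ h1 h2
    rw [hXv, hYv] at hY
    left
    linear_combination -hY / 40
  · obtain ⟨hXv, hYv⟩ := key _ _ h1 h2
    rw [hXv] at hq
    right
    have h3 : r * (2 * r + 5) = 0 := by linear_combination -hq / 48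
    rcases mul_eq_zero.mp h3 with h3 | h3
    · exact absurd h3 hr
    · linear_combination h3 / 2
  · obtain ⟨hXv, hYv⟩ := key _ _ h1 h2
    rw [hXv, hYv] at hY
    exfalso; apply hr
    linear_combination -hY / 24

/-- elliptic curves with subgroups of order 3 and 5 -/
lemma core1 (hE : Seven1 F) {S P δ : F}
    (hm : S ^ 3 - 6 * P * S = 4 * δ * (S + 1 + P))
    (hp : S ^ 4 - 8 * P * S ^ 2 + 10 * P ^ 2 = 4 * δ * (S ^ 2 + 2 * P + 3 * S + P * S))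
    (hD : S ^ 2 - 4 * P ≠ 0) (hδ : 4 * δ ≠ 27) :
    δ = -5 / 4 ∨ δ = 25 / 4 ∨ δ = 135 / 128 ∨ δ = -675 / 8 := by
  have hrel : S ^ 4 + 2 * P * S ^ 3 + P ^ 2 * S ^ 2 - 5 * P * S ^ 2 - 11 * P ^ 2 * S - 5 * P ^ 2 -
      5 * P ^ 3 = 0 := by
    linear_combination (S ^ 2 + 2 * P + 3 * S + P * S) / 2 * hm - (S + 1 + P) / 2 * hp
  have hP : P ≠ 0 := by
    rintro rfl
    have h1 : S = 0 := by
      have : S ^ 4 = 0 := by linear_combination hrel
      exact pow_eq_zero_iff (by norm_num) |>.mp this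
    apply hD
    rw [h1]; ring
  obtain ⟨w, hw⟩ : ∃ w : F, S = w * P := ⟨S / P, by field_simp⟩
  have hquad : w ^ 2 * (w + 1) ^ 2 * P ^ 2 - (5 * w ^ 2 + 11 * w + 5) * P - 5 = 0 := by
    apply (mul_eq_zero.mp _).resolve_left (pow_ne_zero 2 hP)
    rw [hw] at hrel
    linear_combination hrel
  subst hw
  by_cases hw0 : w = 0
  · subst hw0
    have hP1 : P = -1 := by linear_combination -hquad / 5
    subst hP1
    left
    linear_combination hp / 8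
  have h1 := quartic1 hE (Z := 2 * w ^ 2 * (w + 1) ^ 2 * P - (5 * w ^ 2 + 11 * w + 5)) hw0 (by
    linear_combination 4 * w ^ 2 * (w + 1) ^ 2 * hquad)
  rcases h1 with h1 | h1 | h1
  · subst h1
    have hP1 : P = 5 := by linear_combination hquad
    subst hP1
    right; left
    linear_combination -hm / 4
  · subst h1
    have h2 : (P - 9 / 4) * (P + 9 / 5) = 0 := by linear_combination 81 / 100 * hquad
    rcases mul_eq_zero.mp h2 with h2 | h2
    · have hP1 : P = 9 / 4 := by linear_combination h2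
      subst hP1
      right; right; left
      linear_combination hm / 2
    · have hP1 : P = -9 / 5 := by linear_combination h2
      subst hP1
      exfalso; apply hδ
      linear_combination -5 / 11 * hm
  · subst h1
    have h2 : (P - 9) * (P + 45 / 4) = 0 := by linear_combination 81 / 4 * hquad
    rcases mul_eq_zero.mp h2 with h2 | h2
    · have hP1 : P = 9 := by linear_combination h2
      subst hP1
      exfalso; apply hδ
      linear_combination -hm / 4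
    · have hP1 : P = -45 / 4 := by linear_combination h2
      subst hP1
      right; right; right
      linear_combination hm / 11

/-- the double cover `m² + 12m + 144 = □` with `m = (r⁶ + 10r³ + 5)/r` -/
lemma core2 (hE : Seven2 F) (hreal : ∀ m : F, m ^ 2 + 12 * m + 144 ≠ 0) {m r g : F} (hr : r ≠ 0)
    (hm : m * r = r ^ 6 + 10 * r ^ 3 + 5) (hg : g ^ 2 = m ^ 2 + 12 * m + 144) :
    r = -2 ∨ r = -5 / 2 := by
  have hfac : (m ^ 2 + 12 * m + 144) * r ^ 2 =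
      (r ^ 4 - r ^ 3 + 2 * r ^ 2 + r + 1) ^ 2 * (r ^ 4 + 2 * r ^ 3 - r ^ 2 + 10 * r + 25) := by
    linear_combination (m * r + (r ^ 6 + 10 * r ^ 3 + 5) + 12 * r) * hm
  have hQ : r ^ 4 - r ^ 3 + 2 * r ^ 2 + r + 1 ≠ 0 := by
    intro h0
    rw [h0] at hfac
    have h1 : (m ^ 2 + 12 * m + 144) * r ^ 2 = 0 := by rw [hfac]; ring
    rcases mul_eq_zero.mp h1 with h1 | h1
    · exact hreal m h1
    · exact pow_ne_zero 2 hr h1
  obtain ⟨W, hW⟩ : ∃ W : F, W * (r ^ 4 - r ^ 3 + 2 * r ^ 2 + r + 1) = g * r :=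
    ⟨g * r / (r ^ 4 - r ^ 3 + 2 * r ^ 2 + r + 1), div_mul_cancel₀ _ hQ⟩
  apply quartic2 hE hr (W := W)
  rw [← sub_eq_zero]
  apply (mul_eq_zero.mp _).resolve_left (pow_ne_zero 2 hQ)
  linear_combination (W * (r ^ 4 - r ^ 3 + 2 * r ^ 2 + r + 1) + g * r) * hW + r ^ 2 * hg + hfac

/-- case of a rational subgroup of order 3 -/
lemma borel (hE : Seven1 F) (h5 : ∀ t : F, t ^ 2 ≠ 5) {A B x₃ s p : F}
    (hdisc : 4 * A ^ 3 + 27 * B ^ 2 ≠ 0)
    (h3 : 3 * x₃ ^ 4 + 6 * A * x₃ ^ 2 + 12 * B * x₃ - A ^ 2 = 0)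
    (e1 : 4 * B = s ^ 3 - 6 * p * s - 2 * A * s)
    (e2 : A ^ 2 + 2 * A * s ^ 2 - 2 * A * p - s ^ 4 + 5 * s ^ 2 * p + 5 * p ^ 2 = 0)
    (hD : s ^ 2 - 4 * p ≠ 0) :
    6912 * A ^ 3 = -25 / 2 * (4 * A ^ 3 + 27 * B ^ 2) ∨
    6912 * A ^ 3 = -349938025 / 8 * (4 * A ^ 3 + 27 * B ^ 2) ∨
    6912 * A ^ 3 = -121945 / 32 * (4 * A ^ 3 + 27 * B ^ 2) ∨
    6912 * A ^ 3 = 46969655 / 32768 * (4 * A ^ 3 + 27 * B ^ 2) := by
  have hx : x₃ ≠ 0 := by
    rintro rfl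
    have hA : A = 0 := by
      have : A ^ 2 = 0 := by linear_combination -h3
      exact pow_eq_zero_iff (by norm_num) |>.mp this
    subst hA
    by_cases hs : s = 0
    · subst hs
      have : p = 0 := by
        have : p ^ 2 = 0 := by linear_combination e2 / 5
        exact pow_eq_zero_iff (by norm_num) |>.mp this
      apply hD; rw [this]; ring
    · apply h5 ((10 * p + 5 * s ^ 2) / (3 * s ^ 2))
      field_simp
      linear_combination 20 * e2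
  obtain ⟨β, hβ⟩ : ∃ β : F, 6 * x₃ * β = 3 * x₃ ^ 2 + A :=
    ⟨(3 * x₃ ^ 2 + A) / (6 * x₃), by field_simp⟩
  have hA : A = 6 * x₃ * β - 3 * x₃ ^ 2 := by linear_combination -hβ
  have hB : B = 3 * x₃ * β ^ 2 - 6 * x₃ ^ 2 * β + 2 * x₃ ^ 3 := by
    have : 12 * x₃ * (B - (3 * x₃ * β ^ 2 - 6 * x₃ ^ 2 * β + 2 * x₃ ^ 3)) = 0 := by
      rw [hA] at h3
      linear_combination h3
    exact sub_eq_zero.mp ((mul_eq_zero.mp this).resolve_left (mul_ne_zero (by norm_num) hx))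
  have hdisc' : 4 * A ^ 3 + 27 * B ^ 2 = 27 * x₃ ^ 2 * β ^ 3 * (9 * β - 4 * x₃) := by
    rw [hA, hB]; ring
  have hβ0 : β ≠ 0 := by
    rintro rfl
    apply hdisc; rw [hdisc']; ring
  have hlast : 9 * β - 4 * x₃ ≠ 0 := by
    intro h0
    apply hdisc; rw [hdisc', h0]; ring
  obtain ⟨δ, hδ⟩ : ∃ δ : F, x₃ = δ * β / 3 := ⟨3 * x₃ / β, by field_simp⟩
  obtain ⟨S, hS⟩ : ∃ S : F, s = β * (S + 2 * δ / 3) :=
    ⟨s / β - 2 * δ / 3, by field_simp; ring⟩
  obtain ⟨P, hP⟩ : ∃ P : F, p = β ^ 2 * (P + S * δ / 3 + δ ^ 2 / 9) :=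
    ⟨p / β ^ 2 - (S * δ / 3 + δ ^ 2 / 9), by field_simp; ring⟩
  subst hδ hS hP hA hB
  have hfin := core1 hE (S := S) (P := P) (δ := δ)
    (by
      rw [← sub_eq_zero]
      apply (mul_eq_zero.mp _).resolve_left (pow_ne_zero 3 hβ0)
      linear_combination -e1)
    (by
      rw [← sub_eq_zero]
      apply (mul_eq_zero.mp _).resolve_left (pow_ne_zero 4 hβ0)
      linear_combination 2 * e2 - 3 * (β * (S + 2 * δ / 3)) * e1)
    (by
      intro h0
      apply hD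
      linear_combination β ^ 2 * h0)
    (by
      intro h0
      apply hlast
      linear_combination -β / 3 * h0)
  rcases hfin with rfl | rfl | rfl | rfl
  · right; right; left
    ring
  · left
    ring
  · right; right; right
    ring
  · right; left
    ring

/-- case of a rational pair of subgroups of order 3 -/
lemma split (hE : Seven2 F) (hreal : ∀ m : F, m ^ 2 + 12 * m + 144 ≠ 0) (h5 : ∀ t : F, t ^ 2 ≠ 5)
    {A B u v s p : F} (hdisc : 4 * A ^ 3 + 27 * B ^ 2 ≠ 0)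
    (r1 : 4 * B = 2 * u * v - u ^ 3 - 2 * A * u)
    (r2 : A ^ 2 + 6 * A * v + 3 * u ^ 2 * v - 3 * v ^ 2 = 0)
    (e1 : 4 * B = s ^ 3 - 6 * p * s - 2 * A * s)
    (e2 : A ^ 2 + 2 * A * s ^ 2 - 2 * A * p - s ^ 4 + 5 * s ^ 2 * p + 5 * p ^ 2 = 0)
    (hD : s ^ 2 - 4 * p ≠ 0) :
    6912 * A ^ 3 = 1331 / 8 * (4 * A ^ 3 + 27 * B ^ 2) ∨
    6912 * A ^ 3 = -1680914269 / 32768 * (4 * A ^ 3 + 27 * B ^ 2) := by
  -- the 5-structure
  obtain ⟨σ, hσ⟩ : ∃ σ : F, σ * (s ^ 2 - 4 * p) = 3 * s ^ 2 + 4 * A - 10 * (s ^ 2 - 4 * p) :=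
    ⟨_, div_mul_cancel₀ _ hD⟩
  obtain ⟨D, hDD⟩ : ∃ D : F, p = (s ^ 2 - D) / 4 := ⟨s ^ 2 - 4 * p, by ring⟩
  have hD0 : D ≠ 0 := by
    rintro rfl
    apply hD
    rw [hDD]; ring
  subst hDD
  have hs2 : 36 * s ^ 2 = D * (σ ^ 2 + 22 * σ + 125) := by
    have h1 : D * (36 * s ^ 2 - D * (σ ^ 2 + 22 * σ + 125)) = 0 := by
      linear_combination -16 * e2 - ((σ + 12) * D + 3 * s ^ 2 + 4 * A) * hσ
    exact sub_eq_zero.mp ((mul_eq_zero.mp h1).resolve_left hD0)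
  have hA : A = -D * (σ ^ 2 + 10 * σ + 5) / 48 := by
    linear_combination -hσ / 4 - hs2 / 48
  have hB : B = s * D * (σ ^ 2 + 4 * σ - 1) / 144 := by
    rw [hA] at e1
    linear_combination e1 / 4 - s / 288 * hs2
  have hdisc1 : 4 * A ^ 3 + 27 * B ^ 2 = -D ^ 3 * σ / 16 := by
    rw [hA, hB]
    linear_combination 27 / 746496 * D ^ 2 * (σ ^ 2 + 4 * σ - 1) ^ 2 * hs2
  have hA3 : 6912 * A ^ 3 = -D ^ 3 * (σ ^ 2 + 10 * σ + 5) ^ 3 / 16 := by
    rw [hA]; ring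
  have hq : σ ^ 2 + 10 * σ + 5 ≠ 0 := by
    intro h0
    apply h5 ((σ + 5) / 2)
    linear_combination h0 / 4
  -- the 3-structure
  have hz3 : (3 * u ^ 2 + 4 * A) ^ 3 = 16 * (4 * A ^ 3 + 27 * B ^ 2) := by
    linear_combination 36 * u ^ 2 * r2 - 27 * (4 * B + (2 * u * v - u ^ 3 - 2 * A * u)) * r1
  have hz : 3 * u ^ 2 + 4 * A ≠ 0 := by
    intro h0
    rw [h0] at hz3
    apply hdisc
    linear_combination -hz3 / 16
  obtain ⟨m, hm⟩ : ∃ m : F, m * (3 * u ^ 2 + 4 * A) = 48 * A := ⟨_, div_mul_cancel₀ _ hz⟩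
  obtain ⟨g, hg⟩ : ∃ g : F, g * (3 * u ^ 2 + 4 * A) = 36 * (2 * v - 2 * A - u ^ 2) :=
    ⟨_, div_mul_cancel₀ _ hz⟩
  have hm3 : m ^ 3 * (4 * A ^ 3 + 27 * B ^ 2) = 6912 * A ^ 3 := by
    have h1 : (m * (3 * u ^ 2 + 4 * A)) ^ 3 = (48 * A) ^ 3 := by rw [hm]
    rw [mul_pow, hz3] at h1
    linear_combination h1 / 16
  have hmq : m ^ 3 * σ = (σ ^ 2 + 10 * σ + 5) ^ 3 := by
    have h1 : D ^ 3 * (m ^ 3 * σ - (σ ^ 2 + 10 * σ + 5) ^ 3) = 0 := by
      rw [hdisc1, hA3] at hm3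
      linear_combination -16 * hm3
    exact sub_eq_zero.mp ((mul_eq_zero.mp h1).resolve_left (pow_ne_zero 3 hD0))
  have hm0 : m ≠ 0 := by
    rintro rfl
    apply pow_ne_zero 3 hq
    rw [← hmq]; ring
  obtain ⟨r, hr⟩ : ∃ r : F, r * m = σ ^ 2 + 10 * σ + 5 := ⟨_, div_mul_cancel₀ _ hm0⟩
  have hr3 : r ^ 3 = σ := by
    have h1 : m ^ 3 * (r ^ 3 - σ) = 0 := by
      have h2 : (r * m) ^ 3 = (σ ^ 2 + 10 * σ + 5) ^ 3 := by rw [hr]
      linear_combination h2 - hmq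
    exact sub_eq_zero.mp ((mul_eq_zero.mp h1).resolve_left (pow_ne_zero 3 hm0))
  have hr0 : r ≠ 0 := by
    rintro rfl
    apply hq
    rw [← hr]; ring
  have hgg : g ^ 2 = m ^ 2 + 12 * m + 144 := by
    rw [← sub_eq_zero]
    apply (mul_eq_zero.mp _).resolve_left (pow_ne_zero 2 hz)
    linear_combination (g * (3 * u ^ 2 + 4 * A) + 36 * (2 * v - 2 * A - u ^ 2)) * hg -
      (m * (3 * u ^ 2 + 4 * A) + 48 * A + 12 * (3 * u ^ 2 + 4 * A)) * hm - 1728 * r2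
  subst hr3
  have hfin := core2 hE hreal hr0 (m := m) (g := g) (by linear_combination hr) hgg
  rcases hfin with h0 | h0
  · left
    have h1 : m = 11 / 2 := by
      rw [h0] at hr
      linear_combination -hr / 2
    rw [← hm3, h1]; ring
  · right
    have h1 : m = -1189 / 32 := by
      rw [h0] at hr
      linear_combination -2 / 5 * hr
    rw [← hm3, h1]; ring

end Pool.Agent.H42M
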