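import Mathlib

/-! # Galois stable subgroups of order 3 and 5 and their `x`-coordinates (helper42) -/

namespace Pool.Agent.H42M

open WeierstrassCurve WeierstrassCurve.Affine

section Dup

variable {K : Type*} [Field K] [DecidableEq K] {W : Affine K}

/-- the duplication formula -/
lemma dup {x y x' y' : K} {h : W.Nonsingular x y} {h' : W.Nonsingular x' y'}
    (hadd : Point.some x y h + Point.some x y h = Point.some x' y' h') :
    x' * (4 * x ^ 3 + W.b₂ * x ^ 2 + 2 * W.b₄ * x + W.b₆) =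
      x ^ 4 - W.b₄ * x ^ 2 - 2 * W.b₆ * x - W.b₈ := by
  by_cases hy : y = W.negY x y
  · rw [Point.add_self_of_Y_eq hy] at hadd
    exact absurd hadd.symm (Point.some_ne_zero _)
  rw [Point.add_self_of_Y_ne hy, Point.some.injEq] at hadd
  have hd : y - W.negY x y ≠ 0 := sub_ne_zero.mpr hy
  have hx' := hadd.1.symm
  rw [slope_of_Y_ne rfl hy, addX] at hx'
  have heq := (W.equation_iff x y).mp h.1
  set d := y - W.negY x y with hdd
  have hd2 : d = 2 * y + W.a₁ * x + W.a₃ := by
    rw [hdd, negY]; ring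
  set n := 3 * x ^ 2 + 2 * W.a₂ * x + W.a₄ - W.a₁ * y with hn
  have h1 : x' * d ^ 2 = n ^ 2 + W.a₁ * n * d - (W.a₂ + 2 * x) * d ^ 2 := by
    rw [hx']; field_simp; ring
  have h2 : d ^ 2 = 4 * x ^ 3 + W.b₂ * x ^ 2 + 2 * W.b₄ * x + W.b₆ := by
    rw [hd2, b₂, b₄, b₆]
    linear_combination 4 * heq
  rw [← h2, h1, hn, hd2, b₄, b₆, b₈]
  linear_combination -(8 * x + W.a₁ ^ 2 + 4 * W.a₂) * heq

/-- the duplication formula in short coordinates -/
lemma dup' {x y x' y' : K} {h : W.Nonsingular x y} {h' : W.Nonsingular x' y'}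
    (hadd : Point.some x y h + Point.some x y h = Point.some x' y' h') :
    4 * (36 * x' + 3 * W.b₂) * ((36 * x + 3 * W.b₂) ^ 3 + (-27 * W.c₄) * (36 * x + 3 * W.b₂) +
      (-54 * W.c₆)) = (36 * x + 3 * W.b₂) ^ 4 - 2 * (-27 * W.c₄) * (36 * x + 3 * W.b₂) ^ 2 -
      8 * (-54 * W.c₆) * (36 * x + 3 * W.b₂) + (-27 * W.c₄) ^ 2 := by
  have h1 := dup hadd
  have h2 := W.b_relation
  rw [c₄, c₆]
  linear_combination 36 ^ 4 * h1 - 419904 * h2

omit [DecidableEq K] in
lemma x_eq {x y x' y' : K} {h : W.Nonsingular x y} {h' : W.Nonsingular x' y'}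
    (he : Point.some x y h = Point.some x' y' h' ∨ Point.some x y h = -Point.some x' y' h') :
    x = x' := by
  rcases he with he | he
  · exact (Point.some.inj he).1
  · rw [Point.neg_some] at he
    exact (Point.some.inj he).1

omit [DecidableEq K] in
lemma exists_some {P : W.Point} (hP : P ≠ 0) : ∃ (x y : K) (h : W.Nonsingular x y),
    P = Point.some x y h := by
  rcases P with _ | ⟨x, y, h⟩
  · exact absurd rfl hP
  · exact ⟨x, y, h, rfl⟩

end Dup

section Group

variable {G : Type*} [AddCommGroup G]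

lemma exists_zsmul {C : AddSubgroup G} {p : ℕ} (hp : p.Prime) (hC : Nat.card C = p) {P Q : G}
    (hP : P ∈ C) (hP0 : P ≠ 0) (hQ : Q ∈ C) :
    ∃ r : ℤ, 0 ≤ r ∧ r < p ∧ Q = r • P ∧ (p : ℤ) • P = 0 := by
  have : Fact p.Prime := ⟨hp⟩
  have hz := mem_zmultiples_of_prime_card (G := C) (p := p) hC (g := ⟨P, hP⟩)
    (g' := ⟨Q, hQ⟩) (by simpa [Subtype.ext_iff] using hP0)
  obtain ⟨n, hn⟩ := AddSubgroup.mem_zmultiples_iff.mp hz
  have hn' : n • P = Q := by
    have := congrArg Subtype.val hn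
    simpa using this
  have h5 : (p : ℤ) • P = 0 := by
    have h1 := card_nsmul_eq_zero' (G := C) (x := ⟨P, hP⟩)
    rw [hC] at h1
    have h2 := congrArg Subtype.val h1
    have h' : p • P = 0 := by simpa using h2
    rw [← h']; norm_cast
  refine ⟨n % p, Int.emod_nonneg _ (by exact_mod_cast hp.ne_zero),
    Int.emod_lt_of_pos _ (by exact_mod_cast hp.pos), ?_, h5⟩
  rw [← hn']
  conv_lhs => rw [← Int.emod_add_mul_ediv n p]
  rw [add_zsmul, mul_comm, mul_zsmul, h5, zsmul_zero, add_zero]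

lemma mem_cases5 {C : AddSubgroup G} (hC : Nat.card C = 5) {P Q : G} (hP : P ∈ C) (hP0 : P ≠ 0)
    (hQ : Q ∈ C) : Q = 0 ∨ Q = P ∨ Q = -P ∨ Q = P + P ∨ Q = -(P + P) := by
  obtain ⟨r, h0, h1, h2, h5⟩ := exists_zsmul (by norm_num) hC hP hP0 hQ
  push_cast at h1 h5
  have h5' : P + P + (P + P) + P = 0 := by
    rw [← h5]; abel
  interval_cases r
  · left; rw [h2, zero_zsmul]
  · right; left; rw [h2, one_zsmul]
  · right; right; right; left; rw [h2, two_zsmul]
  · right; right; right; right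
    rw [h2, eq_neg_iff_add_eq_zero, ← h5]; abel
  · right; right; left
    rw [h2, eq_neg_iff_add_eq_zero, ← h5]; abel

lemma mem_cases3 {C : AddSubgroup G} (hC : Nat.card C = 3) {P Q : G} (hP : P ∈ C) (hP0 : P ≠ 0)
    (hQ : Q ∈ C) : Q = 0 ∨ Q = P ∨ Q = -P := by
  obtain ⟨r, h0, h1, h2, h5⟩ := exists_zsmul (by norm_num) hC hP hP0 hQ
  push_cast at h1 h5
  interval_cases r
  · left; rw [h2, zero_zsmul]
  · right; left; rw [h2, one_zsmul]
  · right; right
    rw [h2, eq_neg_iff_add_eq_zero, ← h5]; abel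

lemma exists_ne_zero {C : AddSubgroup G} {p : ℕ} (hp : 1 < p) (hC : Nat.card C = p) :
    ∃ P ∈ C, P ≠ 0 := by
  by_contra hcon
  push Not at hcon
  have : C = ⊥ := by
    rw [eq_bot_iff]
    intro P hP
    exact (AddSubgroup.mem_bot).mpr (hcon P hP)
  rw [this, AddSubgroup.card_bot] at hC
  omega

end Group

section Gal

variable {F K : Type*} [Field F] [Field K] [DecidableEq K] [Algebra F K] (W : WeierstrassCurve F)

/-- the action of `Gal(K/F)` on the points over `K` -/
noncomputable abbrev act (σ : K ≃ₐ[F] K) :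
    (WeierstrassCurve.Affine.baseChange W K).Point →+ (WeierstrassCurve.Affine.baseChange W K).Point :=
  Point.map (W' := W) (σ : K →ₐ[F] K)

variable {W}

omit [DecidableEq K] in
lemma act_x [DecidableEq K] {σ : K ≃ₐ[F] K} {x y x' y' : K}
    {h : (WeierstrassCurve.Affine.baseChange W K).Nonsingular x y}
    {h' : (WeierstrassCurve.Affine.baseChange W K).Nonsingular x' y'}
    (he : act W σ (Point.some x y h) = Point.some x' y' h' ∨
      act W σ (Point.some x y h) = -Point.some x' y' h') : σ x = x' := by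
  rw [act, Point.map_some] at he
  exact x_eq he

lemma five [CharZero K] [IsGalois F K] {C : AddSubgroup (WeierstrassCurve.Affine.baseChange W K).Point}
    (hC : Nat.card C = 5) (hst : ∀ σ : K ≃ₐ[F] K, C.map (act W σ) = C) :
    ∃ (x₁ x₂ : K) (s p : F), algebraMap F K s = x₁ + x₂ ∧ algebraMap F K p = x₁ * x₂ ∧ x₁ ≠ x₂ ∧
      4 * x₂ * (x₁ ^ 3 + (-27 * algebraMap F K W.c₄) * x₁ + (-54 * algebraMap F K W.c₆)) =
        x₁ ^ 4 - 2 * (-27 * algebraMap F K W.c₄) * x₁ ^ 2 - 8 * (-54 * algebraMap F K W.c₆) * x₁ +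
          (-27 * algebraMap F K W.c₄) ^ 2 ∧
      4 * x₁ * (x₂ ^ 3 + (-27 * algebraMap F K W.c₄) * x₂ + (-54 * algebraMap F K W.c₆)) =
        x₂ ^ 4 - 2 * (-27 * algebraMap F K W.c₄) * x₂ ^ 2 - 8 * (-54 * algebraMap F K W.c₆) * x₂ +
          (-27 * algebraMap F K W.c₄) ^ 2 := by
  obtain ⟨P, hPC, hP0⟩ := exists_ne_zero (by norm_num) hC
  obtain ⟨x, y, h, rfl⟩ := exists_some hP0
  set P := Point.some x y h with hP
  have h5 : P + P + (P + P) = -P := by
    obtain ⟨r, -, -, -, h5⟩ := exists_zsmul (by norm_num) hC hPC hP0 hPC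
    rw [eq_neg_iff_add_eq_zero, ← h5]
    push_cast
    abel
  have h2 : P + P ≠ 0 := by
    intro h0
    rw [h0, add_zero] at h5
    exact hP0 (neg_eq_zero.mp h5.symm)
  obtain ⟨x', y', h', hPP⟩ := exists_some h2
  have hPP' : Point.some x' y' h' + Point.some x' y' h' = -P := by rw [← hPP, h5]
  have hx : x ≠ x' := by
    rintro rfl
    have : P + P = P ∨ P + P = -P := by
      rw [hPP, hP]
      exact Point.X_eq_iff.mp rfl
    rcases this with h3 | h3
    · exact hP0 (add_eq_left.mp h3)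
    · rw [h3] at h5
      exact hP0 (neg_eq_zero.mp (add_eq_left.mp h5))
  have hgal : ∀ σ : K ≃ₐ[F] K, (σ x = x ∧ σ x' = x') ∨ (σ x = x' ∧ σ x' = x) := by
    intro σ
    have hQ : act W σ P ∈ C := by
      rw [← hst σ]
      exact AddSubgroup.mem_map_of_mem _ hPC
    have hQ2 : act W σ (Point.some x' y' h') = act W σ P + act W σ P := by
      rw [← hPP, map_add]
    rcases mem_cases5 hC hPC hP0 hQ with h0 | h0 | h0 | h0 | h0
    · rw [hP, act, Point.map_some] at h0
      exact absurd h0 (Point.some_ne_zero _)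
    · left
      refine ⟨act_x (Or.inl h0), act_x (h := h') (h' := h') (Or.inl ?_)⟩
      rw [hQ2, h0, hPP]
    · left
      refine ⟨act_x (Or.inr h0), act_x (h := h') (h' := h') (Or.inr ?_)⟩
      rw [hQ2, h0, ← hPP, neg_add]
    · right
      rw [hPP] at h0
      refine ⟨act_x (Or.inl h0), act_x (h := h') (h' := h) (Or.inr ?_)⟩
      rw [hQ2, h0, hPP']
    · right
      rw [hPP] at h0
      refine ⟨act_x (Or.inr h0), act_x (h := h') (h' := h) (Or.inl ?_)⟩
      rw [hQ2, h0, ← neg_add, hPP', neg_neg]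
  have hfix : ∀ z : K, (∀ σ : K ≃ₐ[F] K, σ z = z) → ∃ a : F, algebraMap F K a = z := fun z hz =>
    (InfiniteGalois.mem_range_algebraMap_iff_fixed z).mpr hz
  have hb : (WeierstrassCurve.Affine.baseChange W K).b₂ = algebraMap F K W.b₂ := W.map_b₂ _
  have hc4 : (WeierstrassCurve.Affine.baseChange W K).c₄ = algebraMap F K W.c₄ := W.map_c₄ _
  have hc6 : (WeierstrassCurve.Affine.baseChange W K).c₆ = algebraMap F K W.c₆ := W.map_c₆ _
  obtain ⟨s, hs⟩ := hfix ((36 * x + 3 * algebraMap F K W.b₂) + (36 * x' + 3 * algebraMap F K W.b₂))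
    (by
      intro σ
      rcases hgal σ with ⟨h1, h2⟩ | ⟨h1, h2⟩
      all_goals
        simp only [map_add, map_mul, map_ofNat, AlgEquiv.commutes, h1, h2]
        try ring)
  obtain ⟨p, hp⟩ := hfix ((36 * x + 3 * algebraMap F K W.b₂) * (36 * x' + 3 * algebraMap F K W.b₂))
    (by
      intro σ
      rcases hgal σ with ⟨h1, h2⟩ | ⟨h1, h2⟩
      all_goals
        simp only [map_add, map_mul, map_ofNat, AlgEquiv.commutes, h1, h2]
        try ring)
  refine ⟨36 * x + 3 * algebraMap F K W.b₂, 36 * x' + 3 * algebraMap F K W.b₂, s, p, hs, hp, ?_,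
    ?_, ?_⟩
  · intro h0
    apply hx
    linear_combination h0 / 36
  · have h1 := dup' hPP
    rw [hb, hc4, hc6] at h1
    exact h1
  · have h3 : Point.some x' y' h' + Point.some x' y' h' =
        Point.some _ _ ((nonsingular_neg _ _).mpr h) := by
      rw [hPP', hP, Point.neg_some]
    have h1 := dup' h3
    rw [hb, hc4, hc6] at h1
    exact h1

lemma three [CharZero K] [IsGalois F K]
    {C C' : AddSubgroup (WeierstrassCurve.Affine.baseChange W K).Point}
    (hC : Nat.card C = 3) (hC' : Nat.card C' = 3)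
    (hst : ∀ σ : K ≃ₐ[F] K, (C.map (act W σ) = C ∧ C'.map (act W σ) = C') ∨
      (C.map (act W σ) = C' ∧ C'.map (act W σ) = C)) :
    (∃ x : F, 3 * x ^ 4 + 6 * (-27 * W.c₄) * x ^ 2 + 12 * (-54 * W.c₆) * x -
      (-27 * W.c₄) ^ 2 = 0) ∨
    ∃ (x₁ x₂ : K) (u v : F), algebraMap F K u = x₁ + x₂ ∧ algebraMap F K v = x₁ * x₂ ∧ x₁ ≠ x₂ ∧
      3 * x₁ ^ 4 + 6 * (-27 * algebraMap F K W.c₄) * x₁ ^ 2 +
        12 * (-54 * algebraMap F K W.c₆) * x₁ - (-27 * algebraMap F K W.c₄) ^ 2 = 0 ∧
      3 * x₂ ^ 4 + 6 * (-27 * algebraMap F K W.c₄) * x₂ ^ 2 +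
        12 * (-54 * algebraMap F K W.c₆) * x₂ - (-27 * algebraMap F K W.c₄) ^ 2 = 0 := by
  obtain ⟨P, hPC, hP0⟩ := exists_ne_zero (by norm_num) hC
  obtain ⟨x, y, h, rfl⟩ := exists_some hP0
  obtain ⟨P', hPC', hP0'⟩ := exists_ne_zero (by norm_num) hC'
  obtain ⟨x', y', h', rfl⟩ := exists_some hP0'
  have hfix : ∀ z : K, (∀ σ : K ≃ₐ[F] K, σ z = z) → ∃ a : F, algebraMap F K a = z := fun z hz =>
    (InfiniteGalois.mem_range_algebraMap_iff_fixed z).mpr hz
  have hb : (WeierstrassCurve.Affine.baseChange W K).b₂ = algebraMap F K W.b₂ := W.map_b₂ _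
  have hc4 : (WeierstrassCurve.Affine.baseChange W K).c₄ = algebraMap F K W.c₄ := W.map_c₄ _
  have hc6 : (WeierstrassCurve.Affine.baseChange W K).c₆ = algebraMap F K W.c₆ := W.map_c₆ _
  -- the division polynomial
  have hpsi : ∀ (D : AddSubgroup (WeierstrassCurve.Affine.baseChange W K).Point) (x y : K)
      (h : (WeierstrassCurve.Affine.baseChange W K).Nonsingular x y), Nat.card D = 3 →
      Point.some x y h ∈ D →
      3 * (36 * x + 3 * algebraMap F K W.b₂) ^ 4 + 6 * (-27 * algebraMap F K W.c₄) *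
        (36 * x + 3 * algebraMap F K W.b₂) ^ 2 + 12 * (-54 * algebraMap F K W.c₆) *
        (36 * x + 3 * algebraMap F K W.b₂) - (-27 * algebraMap F K W.c₄) ^ 2 = 0 := by
    intro D x y h hD hP
    have h4 : Point.some x y h + Point.some x y h = -Point.some x y h := by
      rw [eq_neg_iff_add_eq_zero]
      obtain ⟨r, -, -, -, h5⟩ := exists_zsmul (by norm_num) hD hP (Point.some_ne_zero h) hP
      rw [← h5]
      push_cast
      abel
    have h3 : Point.some x y h + Point.some x y h =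
        Point.some _ _ ((nonsingular_neg _ _).mpr h) := by
      rw [h4, Point.neg_some]
    have h1 := dup' h3
    rw [hb, hc4, hc6] at h1
    linear_combination h1
  -- images
  have himg : ∀ (σ : K ≃ₐ[F] K) (D D' : AddSubgroup (WeierstrassCurve.Affine.baseChange W K).Point)
      (x y x' y' : K) (h : (WeierstrassCurve.Affine.baseChange W K).Nonsingular x y)
      (h' : (WeierstrassCurve.Affine.baseChange W K).Nonsingular x' y'), Nat.card D' = 3 →
      Point.some x y h ∈ D → Point.some x' y' h' ∈ D' → D.map (act W σ) = D' → σ x = x' := by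
    intro σ D D' x y x' y' h h' hD' hP hP' hmap
    have hQ : act W σ (Point.some x y h) ∈ D' := by
      rw [← hmap]
      exact AddSubgroup.mem_map_of_mem _ hP
    rcases mem_cases3 hD' hP' (Point.some_ne_zero h') hQ with h0 | h0 | h0
    · rw [act, Point.map_some] at h0
      exact absurd h0 (Point.some_ne_zero _)
    · exact act_x (Or.inl h0)
    · exact act_x (Or.inr h0)
  by_cases hxx : x = x'
  · left
    have hgal : ∀ σ : K ≃ₐ[F] K, σ x = x := by
      intro σ
      rcases hst σ with ⟨h1, h2⟩ | ⟨h1, h2⟩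
      · exact himg σ C C x y x y h h hC hPC hPC h1
      · rw [himg σ C C' x y x' y' h h' hC' hPC hPC' h1, hxx]
    obtain ⟨a, ha⟩ := hfix (36 * x + 3 * algebraMap F K W.b₂) (by
      intro σ
      simp only [map_add, map_mul, map_ofNat, AlgEquiv.commutes, hgal σ])
    refine ⟨a, ?_⟩
    have h1 := hpsi C x y h hC hPC
    rw [← ha] at h1
    apply (algebraMap F K).injective
    simp only [map_add, map_mul, map_sub, map_pow, map_neg, map_ofNat, map_zero]
    exact h1
  · right
    have hgal : ∀ σ : K ≃ₐ[F] K, (σ x = x ∧ σ x' = x') ∨ (σ x = x' ∧ σ x' = x) := by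
      intro σ
      rcases hst σ with ⟨h1, h2⟩ | ⟨h1, h2⟩
      · left
        exact ⟨himg σ C C x y x y h h hC hPC hPC h1, himg σ C' C' x' y' x' y' h' h' hC' hPC' hPC' h2⟩
      · right
        exact ⟨himg σ C C' x y x' y' h h' hC' hPC hPC' h1, himg σ C' C x' y' x y h' h hC hPC' hPC h2⟩
    obtain ⟨u, hu⟩ := hfix ((36 * x + 3 * algebraMap F K W.b₂) +
      (36 * x' + 3 * algebraMap F K W.b₂)) (by
        intro σ
        rcases hgal σ with ⟨h1, h2⟩ | ⟨h1, h2⟩
        all_goals
          simp only [map_add, map_mul, map_ofNat, AlgEquiv.commutes, h1, h2]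
          try ring)
    obtain ⟨v, hv⟩ := hfix ((36 * x + 3 * algebraMap F K W.b₂) *
      (36 * x' + 3 * algebraMap F K W.b₂)) (by
        intro σ
        rcases hgal σ with ⟨h1, h2⟩ | ⟨h1, h2⟩
        all_goals
          simp only [map_add, map_mul, map_ofNat, AlgEquiv.commutes, h1, h2]
          try ring)
    refine ⟨36 * x + 3 * algebraMap F K W.b₂, 36 * x' + 3 * algebraMap F K W.b₂, u, v, hu, hv, ?_,
      hpsi C x y h hC hPC, hpsi C' x' y' h' hC' hPC'⟩
    intro h0
    apply hxx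
    linear_combination h0 / 36

end Gal

end Pool.Agent.H42M
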