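import Mathlib

/-! # Abelian groups of automorphisms of a plane over the field with three elements (helper42) -/

namespace Pool.Agent.H42M

variable {M : Type*} [AddCommGroup M]

def Pm (n : ℤ) : Prop := n = 1 ∨ n = -1

def TD (P Q : M) (f : M →+ M) : Prop := ∃ e d : ℤ, Pm e ∧ Pm d ∧ f P = e • P ∧ f Q = d • Q
def TB (P Q : M) (f : M →+ M) : Prop := ∃ e n : ℤ, Pm e ∧ Pm n ∧ f P = e • P ∧ f Q = n • P + e • Q
def TC (P Q : M) (f : M →+ M) : Prop := ∃ e n : ℤ, Pm e ∧ Pm n ∧ f P = e • P + n • Q ∧ f Q = e • Q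
def TR (P Q : M) (f : M →+ M) : Prop := ∃ n : ℤ, Pm n ∧ f P = n • Q ∧ f Q = -(n • P)

lemma classify {P Q : M} {f g : M →+ M} {a b c d : ℤ}
    (hind : ∀ x y : ℤ, x • P + y • Q = 0 → 3 ∣ x ∧ 3 ∣ y)
    (hinj : ∀ x y : ℤ, f (x • P + y • Q) = 0 → 3 ∣ x ∧ 3 ∣ y)
    (ha : a = 0 ∨ Pm a) (hb : b = 0 ∨ Pm b) (hc : c = 0 ∨ Pm c) (hd : d = 0 ∨ Pm d)
    (hfP : f P = a • P + c • Q) (hfQ : f Q = b • P + d • Q)
    (hgP : g P = a • P - c • Q) (hgQ : g Q = -(b • P) + d • Q)
    (hcP : f (g P) = g (f P)) (hcQ : f (g Q) = g (f Q))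
    (hodd1 : ¬ ∃ n : ℤ, Pm n ∧ f P = n • Q ∧ f Q = n • P)
    (hodd2 : ¬ ∃ e n : ℤ, Pm e ∧ Pm n ∧ f P = e • P - n • Q ∧ f Q = n • P + e • Q) :
    TD P Q f ∨ TB P Q f ∨ TC P Q f ∨ TR P Q f := by
  have h1 : (0 : ℤ) • P + (2 * (c * (a - d))) • Q = 0 := by
    have h2 : f (g P) - g (f P) = (0 : ℤ) • P + (2 * (c * (a - d))) • Q := by
      rw [hgP, hfP, map_sub, map_add, map_zsmul, map_zsmul, map_zsmul, map_zsmul, hfP, hfQ, hgP,
        hgQ]
      module
    rw [← h2, hcP, sub_self]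
  have h2 : (2 * (b * (d - a))) • P + (0 : ℤ) • Q = 0 := by
    have h2 : f (g Q) - g (f Q) = (2 * (b * (d - a))) • P + (0 : ℤ) • Q := by
      rw [hgQ, hfQ, map_add, map_add, map_neg, map_zsmul, map_zsmul, map_zsmul, map_zsmul, hfP, hfQ,
        hgP, hgQ]
      module
    rw [← h2, hcQ, sub_self]
  have h1' := (hind _ _ h1).2
  have h2' := (hind _ _ h2).1
  have hca : c = 0 ∨ a = d := by
    rcases hc with rfl | rfl | rfl
    · exact Or.inl rfl
    all_goals
      right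
      rcases ha with rfl | rfl | rfl <;> rcases hd with rfl | rfl | rfl <;> omega
  have hba : b = 0 ∨ a = d := by
    rcases hb with rfl | rfl | rfl
    · exact Or.inl rfl
    all_goals
      right
      rcases ha with rfl | rfl | rfl <;> rcases hd with rfl | rfl | rfl <;> omega
  have hbc : (b = 0 ∧ c = 0) ∨ a = d := by tauto
  have hP0 : f P ≠ 0 := by
    intro h0
    have := (hinj 1 0 (by rw [one_zsmul, zero_zsmul, add_zero, h0])).1
    omega
  have hQ0 : f Q ≠ 0 := by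
    intro h0
    have := (hinj 0 1 (by rw [one_zsmul, zero_zsmul, zero_add, h0])).2
    omega
  rcases hbc with ⟨rfl, rfl⟩ | rfl
  · left
    rw [zero_zsmul, add_zero] at hfP
    rw [zero_zsmul, zero_add] at hfQ
    refine ⟨a, d, ha.resolve_left ?_, hd.resolve_left ?_, hfP, hfQ⟩
    · rintro rfl
      rw [zero_zsmul] at hfP
      exact hP0 hfP
    · rintro rfl
      rw [zero_zsmul] at hfQ
      exact hQ0 hfQ
  rcases hb with rfl | hb
  · rcases hc with rfl | hc
    · left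
      rw [zero_zsmul, add_zero] at hfP
      rw [zero_zsmul, zero_add] at hfQ
      refine ⟨a, a, ha.resolve_left ?_, ha.resolve_left ?_, hfP, hfQ⟩
      all_goals
        rintro rfl
        rw [zero_zsmul] at hfP
        exact hP0 hfP
    · right; right; left
      rw [zero_zsmul, zero_add] at hfQ
      refine ⟨a, c, ha.resolve_left ?_, hc, hfP, hfQ⟩
      rintro rfl
      rw [zero_zsmul] at hfQ
      exact hQ0 hfQ
  rcases hc with rfl | hc
  · right; left
    rw [zero_zsmul, add_zero] at hfP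
    refine ⟨a, b, ha.resolve_left ?_, hb, hfP, hfQ⟩
    rintro rfl
    rw [zero_zsmul] at hfP
    exact hP0 hfP
  rcases ha with rfl | ha
  · rw [zero_zsmul, zero_add] at hfP
    rw [zero_zsmul, add_zero] at hfQ
    have hbc : b = c ∨ b = -c := by
      rcases hb with rfl | rfl <;> rcases hc with rfl | rfl <;> norm_num
    rcases hbc with rfl | rfl
    · exact absurd ⟨b, hb, hfP, hfQ⟩ hodd1
    · right; right; right
      exact ⟨c, hc, hfP, by rw [hfQ, neg_zsmul]⟩
  · exfalso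
    have hbc : b = c ∨ b = -c := by
      rcases hb with rfl | rfl <;> rcases hc with rfl | rfl <;> norm_num
    rcases hbc with rfl | rfl
    · have h3 : f ((1 : ℤ) • P + (-(a * b)) • Q) = 0 := by
        rw [map_add, map_zsmul, map_zsmul, hfP, hfQ]
        have h4 : (1 : ℤ) • (a • P + b • Q) + (-(a * b)) • (b • P + a • Q) =
          (a * (1 - b ^ 2)) • P + (b * (1 - a ^ 2)) • Q := by module
        rw [h4]
        have hb2 : b ^ 2 = 1 := by rcases hb with rfl | rfl <;> norm_num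
        have ha2 : a ^ 2 = 1 := by rcases ha with rfl | rfl <;> norm_num
        rw [hb2, ha2, sub_self, mul_zero, mul_zero, zero_zsmul, zero_zsmul, add_zero]
      have := (hinj _ _ h3).1
      omega
    · apply hodd2
      refine ⟨a, -c, ha, ?_, ?_, ?_⟩
      · rcases hc with rfl | rfl
        · right; rfl
        · left; norm_num
      · rw [hfP, neg_zsmul, sub_neg_eq_add]
      · rw [hfQ]

/-- the types TB and TC do not commute -/
lemma not_TB_TC {P Q : M} {f k : M →+ M} (hind : ∀ x y : ℤ, x • P + y • Q = 0 → 3 ∣ x ∧ 3 ∣ y)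
    (hf : TB P Q f) (hk : TC P Q k) (hcomm : f (k P) = k (f P)) : False := by
  obtain ⟨e, n, he, hn, hfP, hfQ⟩ := hf
  obtain ⟨e', n', he', hn', hkP, hkQ⟩ := hk
  have h1 : f (k P) - k (f P) = (n * n') • P + (0 : ℤ) • Q := by
    rw [hkP, hfP, map_add, map_zsmul, map_zsmul, map_zsmul, hfP, hfQ, hkP]
    module
  rw [hcomm, sub_self] at h1
  have := (hind _ _ h1.symm).1
  rcases hn with rfl | rfl <;> rcases hn' with rfl | rfl <;> omega

lemma not_TR_TB {P Q : M} {f k : M →+ M} (hind : ∀ x y : ℤ, x • P + y • Q = 0 → 3 ∣ x ∧ 3 ∣ y)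
    (hf : TR P Q f) (hk : TB P Q k) (hcomm : f (k P) = k (f P)) : False := by
  obtain ⟨n, hn, hfP, hfQ⟩ := hf
  obtain ⟨e', n', he', hn', hkP, hkQ⟩ := hk
  have h1 : f (k P) - k (f P) = (-(n * n')) • P + (0 : ℤ) • Q := by
    rw [hkP, hfP, map_zsmul, map_zsmul, hfP, hkQ]
    module
  rw [hcomm, sub_self] at h1
  have := (hind _ _ h1.symm).1
  rcases hn with rfl | rfl <;> rcases hn' with rfl | rfl <;> omega

lemma not_TR_TC {P Q : M} {f k : M →+ M} (hind : ∀ x y : ℤ, x • P + y • Q = 0 → 3 ∣ x ∧ 3 ∣ y)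
    (hf : TR P Q f) (hk : TC P Q k) (hcomm : f (k Q) = k (f Q)) : False := by
  obtain ⟨n, hn, hfP, hfQ⟩ := hf
  obtain ⟨e', n', he', hn', hkP, hkQ⟩ := hk
  have h1 : f (k Q) - k (f Q) = (0 : ℤ) • P + (n * n') • Q := by
    rw [hkQ, hfQ, map_neg, map_zsmul, map_zsmul, hfQ, hkP]
    module
  rw [hcomm, sub_self] at h1
  have := (hind _ _ h1.symm).2
  rcases hn with rfl | rfl <;> rcases hn' with rfl | rfl <;> omega

end Pool.Agent.H42M
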