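import Pool.Agent.H42M.ModPts
import Pool.Agent.H42M.ModV

/-! # The 3-torsion of an elliptic curve (helper42) -/

namespace Pool.Agent.H42M

open WeierstrassCurve WeierstrassCurve.Affine

section Quartic

variable {K : Type*} [Field K]

/-- four distinct roots of the quartic `3X⁴ + 6AX² + 12BX - A²` -/
lemma vieta {A B X₁ X₂ X₃ X₄ : K} (h3 : (3 : K) ≠ 0)
    (h12 : X₁ ≠ X₂) (h13 : X₁ ≠ X₃) (h14 : X₁ ≠ X₄) (h23 : X₂ ≠ X₃) (h24 : X₂ ≠ X₄) (h34 : X₃ ≠ X₄)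
    (e1 : 3 * X₁ ^ 4 + 6 * A * X₁ ^ 2 + 12 * B * X₁ - A ^ 2 = 0)
    (e2 : 3 * X₂ ^ 4 + 6 * A * X₂ ^ 2 + 12 * B * X₂ - A ^ 2 = 0)
    (e3 : 3 * X₃ ^ 4 + 6 * A * X₃ ^ 2 + 12 * B * X₃ - A ^ 2 = 0)
    (e4 : 3 * X₄ ^ 4 + 6 * A * X₄ ^ 2 + 12 * B * X₄ - A ^ 2 = 0) :
    X₄ = -X₁ - X₂ - X₃ ∧
    2 * A = -(X₁ ^ 2 + X₂ ^ 2 + X₃ ^ 2 + X₁ * X₂ + X₁ * X₃ + X₂ * X₃) ∧
    4 * B = (X₁ + X₂) * (X₁ + X₃) * (X₂ + X₃) ∧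
    A ^ 2 = 3 * X₁ * X₂ * X₃ * (X₁ + X₂ + X₃) := by
  have s12 := sub_ne_zero.mpr h12
  have s13 := sub_ne_zero.mpr h13
  have s14 := sub_ne_zero.mpr h14
  have s23 := sub_ne_zero.mpr h23
  have s24 := sub_ne_zero.mpr h24
  have s34 := sub_ne_zero.mpr h34
  have d12 : X₁ ^ 3 + X₁ ^ 2 * X₂ + X₁ * X₂ ^ 2 + X₂ ^ 3 + 2 * A * (X₁ + X₂) + 4 * B = 0 := by
    apply (mul_eq_zero.mp _).resolve_left (mul_ne_zero h3 s12)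
    linear_combination e1 - e2
  have d13 : X₁ ^ 3 + X₁ ^ 2 * X₃ + X₁ * X₃ ^ 2 + X₃ ^ 3 + 2 * A * (X₁ + X₃) + 4 * B = 0 := by
    apply (mul_eq_zero.mp _).resolve_left (mul_ne_zero h3 s13)
    linear_combination e1 - e3
  have d14 : X₁ ^ 3 + X₁ ^ 2 * X₄ + X₁ * X₄ ^ 2 + X₄ ^ 3 + 2 * A * (X₁ + X₄) + 4 * B = 0 := by
    apply (mul_eq_zero.mp _).resolve_left (mul_ne_zero h3 s14)
    linear_combination e1 - e4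
  have d123 : X₁ ^ 2 + X₂ ^ 2 + X₃ ^ 2 + X₁ * X₂ + X₁ * X₃ + X₂ * X₃ + 2 * A = 0 := by
    apply (mul_eq_zero.mp _).resolve_left s23
    linear_combination d12 - d13
  have d124 : X₁ ^ 2 + X₂ ^ 2 + X₄ ^ 2 + X₁ * X₂ + X₁ * X₄ + X₂ * X₄ + 2 * A = 0 := by
    apply (mul_eq_zero.mp _).resolve_left s24
    linear_combination d12 - d14
  have d1234 : X₁ + X₂ + X₃ + X₄ = 0 := by
    apply (mul_eq_zero.mp _).resolve_left s34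
    linear_combination d123 - d124
  refine ⟨by linear_combination d1234, by linear_combination d123, ?_, ?_⟩
  · linear_combination d12 - (X₁ + X₂) * d123
  · linear_combination -e1 + 3 * X₁ * d12 - 3 * X₁ * X₂ * d123

/-- the square root of the discriminant of the quartic -/
def dlt (X₁ X₂ X₃ X₄ : K) : K :=
  (X₁ - X₂) * (X₁ - X₃) * (X₁ - X₄) * (X₂ - X₃) * (X₂ - X₄) * (X₃ - X₄)

lemma dlt_sq {A B X₁ X₂ X₃ X₄ : K} (hX : X₄ = -X₁ - X₂ - X₃)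
    (hA : 2 * A = -(X₁ ^ 2 + X₂ ^ 2 + X₃ ^ 2 + X₁ * X₂ + X₁ * X₃ + X₂ * X₃))
    (hB : 4 * B = (X₁ + X₂) * (X₁ + X₃) * (X₂ + X₃))
    (hA2 : A ^ 2 = 3 * X₁ * X₂ * X₃ * (X₁ + X₂ + X₃)) :
    27 * dlt X₁ X₂ X₃ X₄ ^ 2 = -256 * (4 * A ^ 3 + 27 * B ^ 2) ^ 2 := by
  have hd : dlt X₁ X₂ X₃ X₄ ^ 2 = 16 * (2 * A) ^ 4 * (-X₁ * X₂ * X₃ * (X₁ + X₂ + X₃)) -
      4 * (2 * A) ^ 3 * (4 * B) ^ 2 -
      128 * (2 * A) ^ 2 * (-X₁ * X₂ * X₃ * (X₁ + X₂ + X₃)) ^ 2 +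
      144 * (2 * A) * (4 * B) ^ 2 * (-X₁ * X₂ * X₃ * (X₁ + X₂ + X₃)) - 27 * (4 * B) ^ 4 +
      256 * (-X₁ * X₂ * X₃ * (X₁ + X₂ + X₃)) ^ 3 := by
    rw [hA, hB, hX, dlt]
    ring
  have hr : 3 * (-X₁ * X₂ * X₃ * (X₁ + X₂ + X₃)) = -A ^ 2 := by rw [hA2]; ring
  rw [hd]
  set r := -X₁ * X₂ * X₃ * (X₁ + X₂ + X₃)
  have h1 : 27 * (16 * (2 * A) ^ 4 * r - 4 * (2 * A) ^ 3 * (4 * B) ^ 2 - 128 * (2 * A) ^ 2 * r ^ 2 +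
      144 * (2 * A) * (4 * B) ^ 2 * r - 27 * (4 * B) ^ 4 + 256 * r ^ 3) =
      9 * 16 * (2 * A) ^ 4 * (3 * r) - 27 * 4 * (2 * A) ^ 3 * (4 * B) ^ 2 -
      3 * 128 * (2 * A) ^ 2 * (3 * r) ^ 2 +
      9 * 144 * (2 * A) * (4 * B) ^ 2 * (3 * r) - 27 * 27 * (4 * B) ^ 4 + 256 * (3 * r) ^ 3 := by
    ring
  rw [h1, hr]
  ring

lemma root_mem {A B X₁ X₂ X₃ X₄ X : K} (hX : X₄ = -X₁ - X₂ - X₃)
    (hA : 2 * A = -(X₁ ^ 2 + X₂ ^ 2 + X₃ ^ 2 + X₁ * X₂ + X₁ * X₃ + X₂ * X₃))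
    (hB : 4 * B = (X₁ + X₂) * (X₁ + X₃) * (X₂ + X₃))
    (hA2 : A ^ 2 = 3 * X₁ * X₂ * X₃ * (X₁ + X₂ + X₃)) (h3 : (3 : K) ≠ 0)
    (e : 3 * X ^ 4 + 6 * A * X ^ 2 + 12 * B * X - A ^ 2 = 0) :
    X = X₁ ∨ X = X₂ ∨ X = X₃ ∨ X = X₄ := by
  have h1 : (X - X₁) * ((X - X₂) * ((X - X₃) * (X - X₄))) = 0 := by
    apply (mul_eq_zero.mp _).resolve_left h3
    rw [hX]
    linear_combination e - 3 * X ^ 2 * hA - 3 * X * hB + hA2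
  rcases mul_eq_zero.mp h1 with h1 | h1
  · left; exact sub_eq_zero.mp h1
  rcases mul_eq_zero.mp h1 with h1 | h1
  · right; left; exact sub_eq_zero.mp h1
  rcases mul_eq_zero.mp h1 with h1 | h1
  · right; right; left; exact sub_eq_zero.mp h1
  · right; right; right; exact sub_eq_zero.mp h1

/-- the discriminant vanishes if the quartic and the cubic have a common root -/
lemma common_root {A B X : K} (h1 : X ^ 3 + A * X + B = 0)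
    (h2 : 3 * X ^ 4 + 6 * A * X ^ 2 + 12 * B * X - A ^ 2 = 0) :
    4 * A ^ 3 + 27 * B ^ 2 = 0 := by
  have h3 : (3 * X ^ 2 + A) ^ 2 = 0 := by
    linear_combination 12 * X * h1 - h2
  have h4 : 3 * X ^ 2 + A = 0 := pow_eq_zero_iff (two_ne_zero) |>.mp h3
  have hA : A = -3 * X ^ 2 := by linear_combination h4
  have hB : B = 2 * X ^ 3 := by
    rw [hA] at h1
    linear_combination h1
  rw [hA, hB]; ring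

end Quartic

end Pool.Agent.H42M
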