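import Pool.Agent.H42M.ModThree

/-! # Points of order 3 and Galois action (helper42) -/

namespace Pool.Agent.H42M

open WeierstrassCurve WeierstrassCurve.Affine

section Points

variable {K : Type*} [Field K] [DecidableEq K] {W : Affine K}

/-- `X` is the `x`-coordinate of `R` on the short model -/
def Xof (R : W.Point) (X : K) : Prop :=
  ∃ (x y : K) (h : W.Nonsingular x y), R = Point.some x y h ∧ X = 36 * x + 3 * W.b₂

/-- the 3-division polynomial vanishes at `X` -/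
def Psi (W : Affine K) (X : K) : Prop :=
  3 * X ^ 4 + 6 * (-27 * W.c₄) * X ^ 2 + 12 * (-54 * W.c₆) * X - (-27 * W.c₄) ^ 2 = 0

omit [DecidableEq K] in
lemma Xof.neg {R : W.Point} {X : K} (h : Xof R X) : Xof (-R) X := by
  obtain ⟨x, y, h, rfl, rfl⟩ := h
  exact ⟨x, _, _, Point.neg_some h, rfl⟩

omit [DecidableEq K] in
lemma Xof.ne_zero {R : W.Point} {X : K} (h : Xof R X) : R ≠ 0 := by
  obtain ⟨x, y, h, rfl, rfl⟩ := h
  exact Point.some_ne_zero _

omit [DecidableEq K] in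
lemma exists_Xof {R : W.Point} (hR : R ≠ 0) : ∃ X, Xof R X := by
  obtain ⟨x, y, h, rfl⟩ := exists_some hR
  exact ⟨_, x, y, h, rfl, rfl⟩

omit [DecidableEq K] in
lemma Xof.unique {R : W.Point} {X X' : K} (h : Xof R X) (h' : Xof R X') : X = X' := by
  obtain ⟨x, y, h, rfl, rfl⟩ := h
  obtain ⟨x', y', h', he, rfl⟩ := h'
  rw [(Point.some.inj he).1]

omit [DecidableEq K] in
lemma Xof.eq_or [CharZero K] {R R' : W.Point} {X : K} (h : Xof R X) (h' : Xof R' X) :
    R = R' ∨ R = -R' := by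
  obtain ⟨x, y, h, rfl, rfl⟩ := h
  obtain ⟨x', y', h', rfl, he⟩ := h'
  apply Point.X_eq_iff.mp
  linear_combination he / 36

lemma Xof.psi {R : W.Point} {X : K} (h : Xof R X) (h3 : R + R = -R) : Psi W X := by
  obtain ⟨x, y, h, rfl, rfl⟩ := h
  have h4 : Point.some x y h + Point.some x y h =
      Point.some _ _ ((nonsingular_neg _ _).mpr h) := by
    rw [h3, Point.neg_some]
  have h1 := dup' h4
  unfold Psi
  linear_combination h1

lemma Xof.three [CharZero K] {R : W.Point} {X : K} (h : Xof R X) (hpsi : Psi W X)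
    (hdisc : 4 * (-27 * W.c₄) ^ 3 + 27 * (-54 * W.c₆) ^ 2 ≠ 0) : R + R = -R := by
  obtain ⟨x, y, h, rfl, rfl⟩ := h
  have h2 : Point.some x y h + Point.some x y h ≠ 0 := by
    intro h0
    have hy : y = W.negY x y := by
      by_contra hy
      rw [Point.add_self_of_Y_ne hy] at h0
      exact Point.some_ne_zero _ h0
    apply hdisc
    apply common_root (X := 36 * x + 3 * W.b₂) _ hpsi
    have heq := (W.equation_iff x y).mp h.1
    have hy2 : 2 * y + W.a₁ * x + W.a₃ = 0 := by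
      rw [negY] at hy
      linear_combination hy
    rw [c₄, c₆, b₂, b₄, b₆]
    linear_combination 11664 * (2 * y + W.a₁ * x + W.a₃) * hy2 - 46656 * heq
  obtain ⟨X', hX'⟩ := exists_Xof h2
  have hX0 : Xof (Point.some x y h) (36 * x + 3 * W.b₂) := ⟨x, y, h, rfl, rfl⟩
  obtain ⟨x', y', h', he, hxx⟩ := hX'
  have h1 := dup' he
  have h3 : (36 * x + 3 * W.b₂) ^ 3 + (-27 * W.c₄) * (36 * x + 3 * W.b₂) + (-54 * W.c₆) ≠ 0 :=
    fun h0 => hdisc (common_root h0 hpsi)
  have h4 : X' = 36 * x + 3 * W.b₂ := by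
    rw [← sub_eq_zero]
    apply (mul_eq_zero.mp _).resolve_left (mul_ne_zero (show (4 : K) ≠ 0 by norm_num) h3)
    unfold Psi at hpsi
    rw [hxx]
    linear_combination h1 - hpsi
  have hX'2 : Xof (Point.some x y h + Point.some x y h) (36 * x + 3 * W.b₂) := by
    rw [← h4]
    exact ⟨x', y', h', he, hxx⟩
  rcases hX'2.eq_or hX0 with h5 | h5
  · exact absurd (add_eq_left.mp h5) (Point.some_ne_zero _)
  · exact h5

lemma frame [CharZero K] {P Q : W.Point} (hP : P ≠ 0) (hQ : Q ≠ 0) (hP3 : P + P = -P)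
    (hQ3 : Q + Q = -Q) (h1 : P ≠ Q) (h2 : P ≠ -Q) :
    ∃ X₁ X₂ X₃ X₄ : K, Xof P X₁ ∧ Xof Q X₂ ∧ Xof (P + Q) X₃ ∧ Xof (P - Q) X₄ ∧
      dlt X₁ X₂ X₃ X₄ ≠ 0 ∧
      27 * dlt X₁ X₂ X₃ X₄ ^ 2 = -256 * (4 * (-27 * W.c₄) ^ 3 + 27 * (-54 * W.c₆) ^ 2) ^ 2 ∧
      ∀ R : W.Point, R ≠ 0 → R + R = -R →
        R = P ∨ R = -P ∨ R = Q ∨ R = -Q ∨ R = P + Q ∨ R = -(P + Q) ∨ R = P - Q ∨
          R = -(P - Q) := by
  have h3 : P + Q ≠ 0 := fun h0 => h2 (eq_neg_of_add_eq_zero_left h0)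
  have h4 : P - Q ≠ 0 := fun h0 => h1 (sub_eq_zero.mp h0)
  obtain ⟨X₁, hX₁⟩ := exists_Xof hP
  obtain ⟨X₂, hX₂⟩ := exists_Xof hQ
  obtain ⟨X₃, hX₃⟩ := exists_Xof h3
  obtain ⟨X₄, hX₄⟩ := exists_Xof h4
  have h33 : (P + Q) + (P + Q) = -(P + Q) := by
    rw [neg_add, ← hP3, ← hQ3]; abel
  have h43 : (P - Q) + (P - Q) = -(P - Q) := by
    have : -(P - Q) = -P - (-Q) := by abel
    rw [this, ← hP3, ← hQ3]; abel
  have hP3' : P + P + P = 0 := by rw [hP3]; abel
  have hQ3' : Q + Q + Q = 0 := by rw [hQ3]; abel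
  have e12 : X₁ ≠ X₂ := by
    rintro rfl
    rcases hX₁.eq_or hX₂ with h | h
    · exact h1 h
    · exact h2 h
  have e13 : X₁ ≠ X₃ := by
    rintro rfl
    rcases hX₁.eq_or hX₃ with h | h
    · exact hQ (left_eq_add.mp h)
    · apply h1
      have h5 : P + P + Q = 0 := by
        nth_rewrite 1 [h]; abel
      rw [hP3] at h5
      exact (neg_add_eq_zero.mp h5)
  have e14 : X₁ ≠ X₄ := by
    rintro rfl
    rcases hX₁.eq_or hX₄ with h | h
    · apply hQ
      have h5 : Q = P - (P - Q) := by abel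
      rw [h5, ← h, sub_self]
    · apply h2
      have h5 : P + P = Q := by
        nth_rewrite 1 [h]; abel
      rw [← h5, hP3, neg_neg]
  have e23 : X₂ ≠ X₃ := by
    rintro rfl
    rcases hX₂.eq_or hX₃ with h | h
    · exact hP (right_eq_add.mp h)
    · apply h1
      have h5 : P + (Q + Q) = 0 := by
        nth_rewrite 1 [h]; abel
      rw [hQ3] at h5
      exact (add_neg_eq_zero.mp h5)
  have e24 : X₂ ≠ X₄ := by
    rintro rfl
    rcases hX₂.eq_or hX₄ with h | h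
    · apply h2
      have h5 : Q + Q = P := by
        nth_rewrite 1 [h]; abel
      rw [← h5, hQ3]
    · apply hP
      have h5 : P = (P - Q) + Q := by abel
      rw [h5]
      nth_rewrite 2 [h]
      abel
  have e34 : X₃ ≠ X₄ := by
    rintro rfl
    rcases hX₃.eq_or hX₄ with h | h
    · apply hQ
      have h5 : Q + Q = 0 := by
        have : Q + Q = (P + Q) - (P - Q) := by abel
        rw [this, h, sub_self]
      rw [hQ3] at h5
      exact neg_eq_zero.mp h5
    · apply hP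
      have h5 : P + P = 0 := by
        have : P + P = (P + Q) + (P - Q) := by abel
        rw [this, h, neg_add_cancel]
      rw [hP3] at h5
      exact neg_eq_zero.mp h5
  have ht : (3 : K) ≠ 0 := by norm_num
  obtain ⟨v1, v2, v3, v4⟩ := vieta ht e12 e13 e14 e23 e24 e34 (hX₁.psi hP3) (hX₂.psi hQ3)
    (hX₃.psi h33) (hX₄.psi h43)
  refine ⟨X₁, X₂, X₃, X₄, hX₁, hX₂, hX₃, hX₄, ?_, dlt_sq v1 v2 v3 v4, ?_⟩
  · unfold dlt
    exact mul_ne_zero (mul_ne_zero (mul_ne_zero (mul_ne_zero (mul_ne_zero (sub_ne_zero.mpr e12)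
      (sub_ne_zero.mpr e13)) (sub_ne_zero.mpr e14)) (sub_ne_zero.mpr e23)) (sub_ne_zero.mpr e24))
      (sub_ne_zero.mpr e34)
  · intro R hR hR3
    obtain ⟨X, hX⟩ := exists_Xof hR
    rcases root_mem v1 v2 v3 v4 ht (hX.psi hR3) with rfl | rfl | rfl | rfl
    · rcases hX.eq_or hX₁ with h | h <;> simp [h]
    · rcases hX.eq_or hX₂ with h | h <;> simp [h]
    · rcases hX.eq_or hX₃ with h | h <;> simp [h]
    · rcases hX.eq_or hX₄ with h | h <;> simp [h]

omit [DecidableEq K] in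
/-- over an algebraically closed field every `X` is the coordinate of a point -/
lemma exists_point [CharZero K] [IsAlgClosed K] [W.IsElliptic] (X : K) :
    ∃ R : W.Point, Xof R X := by
  set x : K := (X - 3 * W.b₂) / 36 with hx
  obtain ⟨t, ht⟩ := IsAlgClosed.exists_pow_nat_eq
    (4 * x ^ 3 + W.b₂ * x ^ 2 + 2 * W.b₄ * x + W.b₆) (n := 2) two_pos
  have heq : W.Equation x ((t - W.a₁ * x - W.a₃) / 2) := by
    rw [equation_iff]
    rw [b₂, b₄, b₆] at ht
    linear_combination ht / 4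
  refine ⟨Point.some x _ (equation_iff_nonsingular.mp heq), x, _, _, rfl, ?_⟩
  rw [hx]; ring

/-- two independent points of order 3 -/
lemma exists_pair [CharZero K] [IsAlgClosed K] [W.IsElliptic]
    (hdisc : 4 * (-27 * W.c₄) ^ 3 + 27 * (-54 * W.c₆) ^ 2 ≠ 0) :
    ∃ P Q : W.Point, P ≠ 0 ∧ Q ≠ 0 ∧ P + P = -P ∧ Q + Q = -Q ∧ P ≠ Q ∧ P ≠ -Q := by
  set A := -27 * W.c₄ with hA
  set B := -54 * W.c₆ with hB
  obtain ⟨X₁, hX₁⟩ : ∃ X : K, 3 * X ^ 4 + 6 * A * X ^ 2 + 12 * B * X - A ^ 2 = 0 := by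
    let p : Polynomial K := Polynomial.C 3 * Polynomial.X ^ 4 +
      (Polynomial.C (6 * A) * Polynomial.X ^ 2 + Polynomial.C (12 * B) * Polynomial.X +
        Polynomial.C (-A ^ 2))
    have hdeg : p.degree = 4 := by
      have h3 : (3 : K) ≠ 0 := by norm_num
      have h1 : (Polynomial.C (3 : K) * Polynomial.X ^ 4).degree = 4 :=
        Polynomial.degree_C_mul_X_pow 4 h3
      have h2 : (Polynomial.C (6 * A) * Polynomial.X ^ 2 + Polynomial.C (12 * B) * Polynomial.X +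
        Polynomial.C (-A ^ 2)).degree < 4 :=
        lt_of_le_of_lt Polynomial.degree_quadratic_le (by norm_num)
      rw [show p = _ + _ from rfl, Polynomial.degree_add_eq_left_of_degree_lt (by rw [h1]; exact h2), h1]
    obtain ⟨X, hX⟩ := IsAlgClosed.exists_root p (by rw [hdeg]; norm_num)
    refine ⟨X, ?_⟩
    have := hX
    simp only [p, Polynomial.IsRoot.def, Polynomial.eval_add, Polynomial.eval_mul,
      Polynomial.eval_C, Polynomial.eval_pow, Polynomial.eval_X] at this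
    linear_combination this
  obtain ⟨X₂, hX₂⟩ : ∃ X : K, 3 * X ^ 3 + 3 * X₁ * X ^ 2 + (3 * X₁ ^ 2 + 6 * A) * X +
      (3 * X₁ ^ 3 + 6 * A * X₁ + 12 * B) = 0 := by
    let p : Polynomial K := Polynomial.C 3 * Polynomial.X ^ 3 +
      Polynomial.C (3 * X₁) * Polynomial.X ^ 2 + Polynomial.C (3 * X₁ ^ 2 + 6 * A) * Polynomial.X +
        Polynomial.C (3 * X₁ ^ 3 + 6 * A * X₁ + 12 * B)
    have hdeg : p.degree = 3 := Polynomial.degree_cubic (by norm_num)
    obtain ⟨X, hX⟩ := IsAlgClosed.exists_root p (by rw [hdeg]; norm_num)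
    refine ⟨X, ?_⟩
    have := hX
    simp only [p, Polynomial.IsRoot.def, Polynomial.eval_add, Polynomial.eval_mul,
      Polynomial.eval_C, Polynomial.eval_pow, Polynomial.eval_X] at this
    linear_combination this
  have hpsi1 : Psi W X₁ := hX₁
  have hpsi2 : Psi W X₂ := by
    unfold Psi
    rw [← hA, ← hB]
    linear_combination hX₁ + (X₂ - X₁) * hX₂
  have hne : X₁ ≠ X₂ := by
    rintro rfl
    apply hdisc
    apply common_root (X := X₁) _ hX₁
    linear_combination hX₂ / 12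
  obtain ⟨P, hP⟩ := exists_point (W := W) X₁
  obtain ⟨Q, hQ⟩ := exists_point (W := W) X₂
  refine ⟨P, Q, hP.ne_zero, hQ.ne_zero, hP.three hpsi1 hdisc, hQ.three hpsi2 hdisc, ?_, ?_⟩
  · rintro rfl
    exact hne (hP.unique hQ)
  · rintro rfl
    exact hne (hP.unique hQ.neg)

end Points

end Pool.Agent.H42M
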