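import Pool.Agent.H42M.Count

/-! # Units of relative norm 1 in a quadratic extension (helper42) -/

namespace Pool.Agent.H42M

open NumberField Module

section

variable {F L : Type*} [Field F] [NumberField F] [Field L] [NumberField L] [Algebra F L]

/-- a quadratic extension `L = F(w)` with `w ^ 2 = u` a unit of `F` which is a square modulo 4 -/
structure QuadExt (F L : Type*) [Field F] [NumberField F] [Field L] [NumberField L]
    [Algebra F L] where
  u : (𝓞 F)ˣ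
  a : 𝓞 F
  h4 : (4 : 𝓞 F) ∣ (u : 𝓞 F) - a ^ 2
  w : L
  hw : w ^ 2 = algebraMap F L ((u : 𝓞 F) : F)
  σ : L ≃ₐ[F] L
  hσ : σ w = -w
  span : ∀ x : L, ∃ p q : F, x = algebraMap F L p + algebraMap F L q * w
  rank : finrank F L = 2

namespace QuadExt

variable (Q : QuadExt F L)

lemma uF_ne : (((Q.u : 𝓞 F) : F)) ≠ 0 := by
  simp

lemma w_ne : Q.w ≠ 0 := by
  intro h
  have h1 := Q.hw
  rw [h, zero_pow two_ne_zero] at h1
  exact Q.uF_ne ((map_eq_zero (algebraMap F L)).mp h1.symm)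

lemma conj_formula (p q : F) : Q.σ (algebraMap F L p + algebraMap F L q * Q.w) =
    algebraMap F L p - algebraMap F L q * Q.w := by
  rw [map_add, map_mul, Q.σ.commutes, Q.σ.commutes, Q.hσ]; ring

lemma conj_conj (x : L) : Q.σ (Q.σ x) = x := by
  obtain ⟨p, q, rfl⟩ := Q.span x
  rw [Q.conj_formula, map_sub, map_mul, Q.σ.commutes, Q.σ.commutes, Q.hσ]; ring

lemma fixed {x : L} (h : Q.σ x = x) : ∃ p : F, algebraMap F L p = x := by
  obtain ⟨p, q, rfl⟩ := Q.span x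
  rw [Q.conj_formula] at h
  have h1 : (2 : L) * (algebraMap F L q * Q.w) = 0 := by linear_combination -h
  have h2 : algebraMap F L q * Q.w = 0 := (mul_eq_zero.mp h1).resolve_left (by norm_num)
  exact ⟨p, by rw [h2, add_zero]⟩

lemma fixed_int {x : 𝓞 L} (h : Q.σ (algebraMap (𝓞 L) L x) = algebraMap (𝓞 L) L x) : ∃ p : 𝓞 F, algebraMap (𝓞 F) (𝓞 L) p = x := by
  obtain ⟨p, hp⟩ := Q.fixed h
  have hint : IsIntegral ℤ p := by
    have h1 : IsIntegral ℤ (algebraMap F L p) := by rw [hp]; exact x.2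
    exact (isIntegral_algebraMap_iff (algebraMap F L).injective).mp h1
  refine ⟨⟨p, hint⟩, ?_⟩
  apply RingOfIntegers.coe_injective
  exact hp

/-- the conjugation on the ring of integers -/
noncomputable def s : 𝓞 L ≃+* 𝓞 L := RingOfIntegers.mapRingEquiv Q.σ.toRingEquiv

lemma s_coe (x : 𝓞 L) : algebraMap (𝓞 L) L (Q.s x) = Q.σ (algebraMap (𝓞 L) L x) := rfl

lemma s_s (x : 𝓞 L) : Q.s (Q.s x) = x := by
  apply RingOfIntegers.coe_injective
  rw [Q.s_coe, Q.s_coe, Q.conj_conj]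

lemma s_alg (x : 𝓞 F) : Q.s (algebraMap (𝓞 F) (𝓞 L) x) = algebraMap (𝓞 F) (𝓞 L) x := by
  apply RingOfIntegers.coe_injective
  rw [Q.s_coe]
  exact Q.σ.commutes (x : F)

/-- `w` as an integer -/
noncomputable def wi : 𝓞 L := ⟨Q.w, by
  refine IsIntegral.of_pow (n := 2) (by norm_num) ?_
  rw [Q.hw]
  exact ((Q.u : 𝓞 F).2).algebraMap⟩

lemma wi_sq : Q.wi ^ 2 = algebraMap (𝓞 F) (𝓞 L) (Q.u : 𝓞 F) := by
  apply RingOfIntegers.coe_injective
  exact Q.hw

lemma s_wi : Q.s Q.wi = -Q.wi := by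
  apply RingOfIntegers.coe_injective
  exact Q.hσ

lemma wi_isUnit : IsUnit Q.wi := by
  have h1 : IsUnit (Q.wi ^ 2) := by
    rw [Q.wi_sq]; exact Q.u.isUnit.map _
  exact (isUnit_pow_iff two_ne_zero).mp h1

/-- `θ = (a + w) / 2` is integral -/
lemma exists_theta : ∃ θ : 𝓞 L, 2 * θ = algebraMap (𝓞 F) (𝓞 L) Q.a + Q.wi := by
  obtain ⟨b, hb⟩ := Q.h4
  set A : 𝓞 L := algebraMap (𝓞 F) (𝓞 L) Q.a with hA
  set B : 𝓞 L := algebraMap (𝓞 F) (𝓞 L) b with hB
  have hub : Q.wi ^ 2 - A ^ 2 = 4 * B := by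
    rw [Q.wi_sq, hA, hB, ← map_pow, ← map_sub, hb, map_mul, map_ofNat]
  set t : L := (algebraMap (𝓞 L) L A + algebraMap (𝓞 L) L Q.wi) / 2 with ht
  have htint : IsIntegral (𝓞 L) t := by
    refine ⟨Polynomial.X ^ 2 - Polynomial.C A * Polynomial.X - Polynomial.C B, ?_, ?_⟩
    · have : (Polynomial.X ^ 2 - Polynomial.C A * Polynomial.X - Polynomial.C B : Polynomial (𝓞 L))
          = Polynomial.X ^ 2 - (Polynomial.C A * Polynomial.X + Polynomial.C B) := by ring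
      rw [this]
      refine (Polynomial.monic_X_pow 2).sub_of_left ?_
      rw [Polynomial.degree_X_pow]
      exact lt_of_le_of_lt (Polynomial.degree_linear_le) (by norm_num)
    · rw [Polynomial.eval₂_sub, Polynomial.eval₂_sub, Polynomial.eval₂_mul, Polynomial.eval₂_pow,
        Polynomial.eval₂_X, Polynomial.eval₂_C, Polynomial.eval₂_C]
      have h1 : algebraMap (𝓞 L) L Q.wi ^ 2 - algebraMap (𝓞 L) L A ^ 2 =
          4 * algebraMap (𝓞 L) L B := by
        have := congrArg (algebraMap (𝓞 L) L) hub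
        rwa [map_sub, map_pow, map_pow, map_mul, map_ofNat] at this
      rw [ht]
      linear_combination h1 / 4
  obtain ⟨θ, hθ⟩ := (IsIntegrallyClosed.isIntegral_iff (R := 𝓞 L) (K := L)).mp htint
  refine ⟨θ, ?_⟩
  apply RingOfIntegers.coe_injective
  rw [map_mul, map_add, hθ, map_ofNat, ht]
  ring

/-- Hilbert 90 for units, if the class number of `F` is odd -/
lemma exists_unit (hodd : Odd (classNumber F)) {ε : (𝓞 L)ˣ}
    (hε : (ε : 𝓞 L) * Q.s (ε : 𝓞 L) = 1) : ∃ η : (𝓞 L)ˣ, Q.s (η : 𝓞 L) = ε * η := by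
  -- an element `α` with `s α = ε α`
  obtain ⟨α, hα0, hα⟩ : ∃ α : 𝓞 L, α ≠ 0 ∧ Q.s α = ε * α := by
    by_cases h1 : (ε : 𝓞 L) = -1
    · exact ⟨Q.wi, Q.wi_isUnit.ne_zero, by rw [Q.s_wi, h1]; ring⟩
    · refine ⟨1 + Q.s (ε : 𝓞 L), ?_, ?_⟩
      · intro h0
        apply h1
        have h2 : Q.s (ε : 𝓞 L) = -1 := by linear_combination h0
        have h3 := congrArg Q.s h2
        rw [Q.s_s, map_neg, map_one] at h3
        exact h3
      · rw [map_add, map_one, Q.s_s, mul_add, mul_one, hε]; ring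
  obtain ⟨θ, hθ⟩ := Q.exists_theta
  obtain ⟨t₁, ht₁⟩ := Q.fixed_int (x := α + Q.s α) (by
    rw [← Q.s_coe, map_add, Q.s_s, add_comm])
  obtain ⟨t₂, ht₂⟩ := Q.fixed_int (x := α * θ + Q.s (α * θ)) (by
    rw [← Q.s_coe, map_add, Q.s_s, add_comm])
  set 𝔞 : Ideal (𝓞 F) := Ideal.span {t₁, t₂} with h𝔞
  have hmap : 𝔞.map (algebraMap (𝓞 F) (𝓞 L)) = Ideal.span {α} := by
    rw [h𝔞, Ideal.map_span, Set.image_pair]
    apply le_antisymm
    · rw [Ideal.span_le]
      rintro x (rfl | rfl)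
      · rw [SetLike.mem_coe, Ideal.mem_span_singleton, ht₁, hα]
        exact ⟨1 + ε, by ring⟩
      · rw [SetLike.mem_coe, Ideal.mem_span_singleton, ht₂, map_mul, hα]
        exact ⟨θ + ε * Q.s θ, by ring⟩
    · rw [Ideal.span_singleton_le_iff_mem]
      have hw2 : θ - Q.s θ = Q.wi := by
        have h1 := congrArg Q.s hθ
        rw [map_add, Q.s_wi, Q.s_alg, map_mul, map_ofNat] at h1
        have h2 : (2 : 𝓞 L) * (θ - Q.s θ) = 2 * Q.wi := by linear_combination hθ - h1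
        exact mul_left_cancel₀ (by norm_num) h2
      have h1 : α * Q.wi = algebraMap (𝓞 F) (𝓞 L) t₂ - algebraMap (𝓞 F) (𝓞 L) t₁ * Q.s θ := by
        rw [ht₁, ht₂, map_mul, ← hw2]; ring
      have h2 : α * Q.wi ∈ Ideal.span {algebraMap (𝓞 F) (𝓞 L) t₁, algebraMap (𝓞 F) (𝓞 L) t₂} := by
        rw [h1]
        exact Ideal.sub_mem _ (Ideal.subset_span (by simp))
          (Ideal.mul_mem_right _ _ (Ideal.subset_span (by simp)))
      exact (Ideal.mul_unit_mem_iff_mem _ Q.wi_isUnit).mp h2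
  have h𝔞0 : 𝔞 ≠ ⊥ := by
    intro h0
    rw [h0, Ideal.map_bot] at hmap
    exact hα0 (Ideal.span_singleton_eq_bot.mp hmap.symm)
  have hpr2 : (𝔞 ^ 2).IsPrincipal := by
    have h1 := Ideal.relNorm_algebraMap (𝓞 L) 𝔞
    rw [hmap, Ideal.relNorm_singleton] at h1
    have h2 : finrank (𝓞 F) (𝓞 L) = 2 := by
      rw [← Q.rank]; exact (IsFractionRing.finrank_eq (𝓞 F) F (𝓞 L) L).symm
    rw [h2] at h1
    exact ⟨⟨_, h1.symm⟩⟩
  obtain ⟨k, hk⟩ := hodd
  have hpr : 𝔞.IsPrincipal := by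
    set c := ClassGroup.mk0 ⟨𝔞, mem_nonZeroDivisors_of_ne_zero h𝔞0⟩ with hc
    have h1 : c ^ 2 = 1 := by
      rw [hc, ← map_pow, ClassGroup.mk0_eq_one_iff]
      exact hpr2
    have h2 : c ^ (2 * k + 1) = 1 := by
      rw [← hk]; exact pow_card_eq_one
    rw [pow_succ, pow_mul, h1, one_pow, one_mul, hc, ClassGroup.mk0_eq_one_iff] at h2
    exact h2
  obtain ⟨b, hb⟩ := hpr
  rw [Ideal.submodule_span_eq] at hb
  rw [hb, Ideal.map_span, Set.image_singleton, Ideal.span_singleton_eq_span_singleton] at hmap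
  obtain ⟨η, hη⟩ := hmap
  refine ⟨η, ?_⟩
  have hb0 : algebraMap (𝓞 F) (𝓞 L) b ≠ 0 := by
    intro h0; rw [h0, zero_mul] at hη; exact hα0 hη.symm
  rw [← hη, map_mul, Q.s_alg] at hα
  have h1 : algebraMap (𝓞 F) (𝓞 L) b * Q.s (η : 𝓞 L) = algebraMap (𝓞 F) (𝓞 L) b * (ε * η) := by
    rw [hα]; ring
  exact mul_left_cancel₀ hb0 h1

end QuadExt

end

end Pool.Agent.H42M
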