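import Pool.Agent.H42M.Glob

/-! # Primes above 3 of even ramification index and odd residue degree (helper42)

The observation that these primes do not matter is due to helper57. -/

namespace Pool.Agent.H42M

open NumberField IsDedekindDomain WithZero

section local_

variable {K : Type*} [Field K] (V : Valuation K ℤᵐ⁰)

/-- if -1 is not a square in the residue field, `V 3` is even and `V 5 = 1` then `V (X + 16)` is
even on `Y ^ 2 = X (X + 1) (X + 16)` -/
lemma even_three_E2 {X Y : K} (hY : Y ≠ 0) (e : Y ^ 2 = X * (X + 1) * (X + 16))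
    (h3 : V (3 : K) < 1) (h3s : IsSquare (V (3 : K))) (h30 : V (3 : K) ≠ 0) (h5 : V (5 : K) = 1)
    (hN : ∀ z : K, ¬ V (z ^ 2 + 1) < 1) : IsSquare (V (X + 16)) := by
  have h2 : V (2 : K) = 1 := by
    have h1 : (2 : K) = 3 + -1 := by norm_num
    rw [h1]; exact add_left V (by rw [Valuation.map_neg, map_one]) h3
  have h16 : V (16 : K) = 1 := by rw [V_sixteen_eq, h2, one_pow]
  have h15 : V (15 : K) = V 3 := by
    rw [show (15 : K) = 3 * 5 by norm_num, map_mul, h5, mul_one]
  set c := X + 16 with hc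
  have hX : X = c + -16 := by rw [hc]; ring
  have hX1 : X + 1 = c + -15 := by rw [hc]; ring
  have hc0 : c ≠ 0 := by
    intro h; apply hY; rw [h] at e; simpa using e
  have hVc : V c ≠ 0 := (V.ne_zero_iff).mpr hc0
  have hV : V X * V (X + 1) * V c = V Y ^ 2 := by
    rw [← map_mul, ← map_mul, ← e, map_pow]
  rcases lt_trichotomy (V c) 1 with h | h | h
  · have hVX : V X = 1 := by
      rw [hX]; exact add_left V (by rw [Valuation.map_neg, h16]) h
    rw [hVX, one_mul] at hV
    rcases lt_trichotomy (V c) (V 3) with h4 | h4 | h4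
    · have h5' : V (X + 1) = V 3 := by
        rw [hX1]; exact add_left V (by rw [Valuation.map_neg, h15]) h4
      obtain ⟨t, ht⟩ := h3s
      rw [h5', ht] at hV
      have ht0 : t ≠ 0 := by
        rintro rfl; rw [mul_zero] at ht; exact h30 ht
      exact isSquare_of_mul (y := V Y) ht0 (by rw [pow_two t, mul_comm (V c), hV])
    · rw [h4]; exact h3s
    · exfalso
      apply hN (Y / (4 * c))
      have h160 : (16 : K) ≠ 0 := by
        intro h0; rw [h0, map_zero] at h16; exact zero_ne_one h16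
      have h40 : (4 : K) ≠ 0 := by
        intro h0; apply h160; rw [show (16 : K) = 4 * 4 by norm_num, h0, mul_zero]
      have h1 : (Y / (4 * c)) ^ 2 + 1 = (c + (-15 + 240 / c)) / 16 := by
        rw [div_pow, e, hX1, hX]
        field_simp
        ring
      rw [h1, map_div₀, h16, div_one]
      have h15' : V (15 : K) < 1 := by rw [h15]; exact h3
      refine (V.map_add _ _).trans_lt (max_lt h ((V.map_add _ _).trans_lt (max_lt ?_ ?_)))
      · rw [Valuation.map_neg]; exact h15'
      · rw [map_div₀, show (240 : K) = 16 * 15 by norm_num, map_mul, h16, one_mul, h15]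
        exact (div_lt_one₀ (zero_lt_iff.mpr hVc)).mpr h4
  · rw [h]; exact ⟨1, by simp⟩
  · have h4 : V X = V c := by
      rw [hX]; exact add_right V rfl (by rw [Valuation.map_neg, h16]; exact h)
    have h5' : V (X + 1) = V c := by
      rw [hX1]; exact add_right V rfl (by rw [Valuation.map_neg, h15]; exact h3.trans h)
    rw [h4, h5'] at hV
    exact isSquare_of_pow_three hVc (by rw [← hV, pow_succ, pow_two])

/-- the same for `V X` on `Y ^ 2 = X (X - 9) (X - 25)` -/
lemma even_three_E1 {X Y : K} (hY : Y ≠ 0) (e : Y ^ 2 = X * (X - 9) * (X - 25))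
    (h3 : V (3 : K) < 1) (h30 : V (3 : K) ≠ 0) (h5 : V (5 : K) = 1)
    (hN : ∀ z : K, ¬ V (z ^ 2 + 1) < 1) : IsSquare (V X) := by
  have h9 : V (9 : K) = V 3 * V 3 := by rw [← map_mul]; norm_num
  have h25 : V (25 : K) = 1 := by
    rw [show (25 : K) = 5 * 5 by norm_num, map_mul, h5, one_mul]
  have h9lt : V (9 : K) < 1 := by
    rw [h9]
    calc V (3 : K) * V 3 ≤ 1 * V 3 := by gcongr
      _ < 1 := by rwa [one_mul]
  have hX0 : X ≠ 0 := by rintro rfl; apply hY; simpa using e
  have hVX : V X ≠ 0 := (V.ne_zero_iff).mpr hX0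
  have hV : V X * V (X - 9) * V (X - 25) = V Y ^ 2 := by
    rw [← map_mul, ← map_mul, ← e, map_pow]
  rw [sub_eq_add_neg, sub_eq_add_neg] at hV
  rcases lt_trichotomy (V X) 1 with h | h | h
  · have h4 : V (X + -25) = 1 := add_left V (by rw [Valuation.map_neg, h25]) h
    rw [h4, mul_one] at hV
    rcases lt_trichotomy (V X) (V 9) with h6 | h6 | h6
    · have h7 : V (X + -9) = V 9 := add_left V (Valuation.map_neg _ _) h6
      rw [h7, h9] at hV
      exact isSquare_of_mul (y := V Y) h30 (by rw [pow_two (V (3 : K)), hV])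
    · rw [h6, h9]; exact ⟨V 3, rfl⟩
    · exfalso
      have h50 : (5 : K) ≠ 0 := by
        intro h0; rw [h0, map_zero] at h5; exact zero_ne_one h5
      apply hN (Y / (5 * X))
      have h1 : (Y / (5 * X)) ^ 2 + 1 = (X + (-9 + 225 / X)) / 25 := by
        have h25' : (25 : K) ≠ 0 := by
          rw [show (25 : K) = 5 * 5 by norm_num]; exact mul_ne_zero h50 h50
        rw [div_pow, e]
        field_simp
        ring
      rw [h1, map_div₀, h25, div_one]
      refine (V.map_add _ _).trans_lt (max_lt h ((V.map_add _ _).trans_lt (max_lt ?_ ?_)))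
      · rw [Valuation.map_neg]; exact h9lt
      · rw [map_div₀, show (225 : K) = 25 * 9 by norm_num, map_mul, h25, one_mul]
        exact (div_lt_one₀ (zero_lt_iff.mpr hVX)).mpr h6
  · rw [h]; exact ⟨1, by simp⟩
  · have h4 : V (X + -9) = V X :=
      add_right V rfl (by rw [Valuation.map_neg]; exact h9lt.trans h)
    have h5' : V (X + -25) = V X := add_right V rfl (by rw [Valuation.map_neg, h25]; exact h)
    rw [h4, h5'] at hV
    exact isSquare_of_pow_three hVX (by rw [← hV, pow_succ, pow_two])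

end local_

section global_

variable {F : Type*} [Field F] [NumberField F]

/-- `(3) = 𝔮 𝔧 ^ 2` with `𝔮` prime, where -1 is not a square modulo the primes other than `𝔮` that
divide `𝔧` -/
def Good3 (F : Type*) [Field F] [NumberField F] : Prop :=
  ∃ q J : Ideal (𝓞 F), q.IsPrime ∧ Ideal.span {(3 : 𝓞 F)} = q * J ^ 2 ∧
    ∀ P : Ideal (𝓞 F), P.IsPrime → J ≤ P → P ≠ q → ∀ a : 𝓞 F, a ^ 2 + 1 ∉ P

/-- the primes above 3 that do not matter -/
def Easy3 (v : HeightOneSpectrum (𝓞 F)) : Prop :=
  IsSquare (v.valuation F (3 : F)) ∧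
    (v.valuation F (3 : F) < 1 → ∀ z : F, ¬ v.valuation F (z ^ 2 + 1) < 1)

lemma residue_neg_one {v : HeightOneSpectrum (𝓞 F)} (h : ∀ a : 𝓞 F, a ^ 2 + 1 ∉ v.asIdeal) (z : F) :
    ¬ v.valuation F (z ^ 2 + 1) < 1 := by
  intro hz
  have hz1 : v.valuation F z ≤ 1 := by
    by_contra hgt
    push Not at hgt
    have h1 : v.valuation F (z ^ 2 + 1) = v.valuation F z ^ 2 :=
      add_right _ (map_pow _ _ _) (by rw [map_one]; exact one_lt_pow₀ hgt two_ne_zero)
    rw [h1] at hz
    exact absurd hz (not_lt.mpr (one_lt_pow₀ hgt two_ne_zero).le)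
  obtain ⟨a, ha⟩ := v.exists_valuation_sub_lt_of_integer (K := F) hz1 (1 : ℤᵐ⁰ˣ)
  rw [Units.val_one] at ha
  apply h a
  rw [← HeightOneSpectrum.intValuation_lt_one_iff_mem, ← v.valuation_of_algebraMap (K := F)]
  change v.valuation F (algebraMap (𝓞 F) F (a ^ 2 + 1)) < 1
  have h1 : algebraMap (𝓞 F) F (a ^ 2 + 1) = (z ^ 2 + 1) +
      (algebraMap (𝓞 F) F a - z) * (algebraMap (𝓞 F) F a + z) := by
    rw [map_add, map_pow, map_one]; ring
  rw [h1]
  refine (Valuation.map_add _ _ _).trans_lt (max_lt hz ?_)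
  rw [map_mul]
  have h2 : v.valuation F (algebraMap (𝓞 F) F a + z) ≤ 1 :=
    (Valuation.map_add _ _ _).trans (max_le (v.valuation_le_one a) hz1)
  calc v.valuation F (algebraMap (𝓞 F) F a - z) * v.valuation F (algebraMap (𝓞 F) F a + z)
      ≤ v.valuation F (algebraMap (𝓞 F) F a - z) * 1 := by gcongr
    _ < 1 := by rwa [mul_one]

lemma parity_three (H : Good3 F) {c : F} (hc : c ≠ 0) :
    ∃ δ : F, (δ = 1 ∨ δ = 3) ∧
      ∀ v : HeightOneSpectrum (𝓞 F),
        (Easy3 v ∧ IsSquare (v.valuation F δ)) ∨ IsSquare (v.valuation F (δ * c)) := by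
  classical
  obtain ⟨q, J, hq, hspan, hJ⟩ := H
  have h30 : (3 : 𝓞 F) ≠ 0 := by norm_num
  have hspan0 : (Ideal.span {(3 : 𝓞 F)} : Ideal (𝓞 F)) ≠ ⊥ := by
    rw [Ne, Ideal.span_singleton_eq_bot]; exact h30
  have hqb : q ≠ ⊥ := by
    rintro rfl
    rw [hspan, Ideal.bot_mul] at hspan0
    exact hspan0 rfl
  have hJb : J ≠ ⊥ := by
    rintro rfl
    rw [hspan, ← Ideal.zero_eq_bot, zero_pow two_ne_zero, mul_zero] at hspan0
    exact hspan0 rfl
  set w : HeightOneSpectrum (𝓞 F) := ⟨q, hq, hqb⟩ with hw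
  have hval : ∀ v : HeightOneSpectrum (𝓞 F), v.valuation F (3 : F) = v.intValuation (3 : 𝓞 F) := by
    intro v
    have h1 : (3 : F) = algebraMap (𝓞 F) F (3 : 𝓞 F) := (map_ofNat (algebraMap (𝓞 F) F) 3).symm
    rw [h1]; exact v.valuation_of_algebraMap (K := F) _
  have hcount : ∀ v : HeightOneSpectrum (𝓞 F), ∃ m : ℕ,
      v.valuation F (3 : F) = exp (-(((Associates.mk v.asIdeal).count
        (Associates.mk q).factors + 2 * m : ℕ) : ℤ)) := by
    intro v
    refine ⟨(Associates.mk v.asIdeal).count (Associates.mk J).factors, ?_⟩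
    rw [hval, v.intValuation_if_neg h30, hspan, ← Associates.mk_mul_mk, Associates.mk_pow,
      Associates.count_mul (Associates.mk_ne_zero.mpr hqb)
        (pow_ne_zero _ (Associates.mk_ne_zero.mpr hJb)) v.associates_irreducible,
      Associates.count_pow (Associates.mk_ne_zero.mpr hJb) v.associates_irreducible]
  have hother : ∀ v : HeightOneSpectrum (𝓞 F), v ≠ w →
      (Associates.mk v.asIdeal).count (Associates.mk q).factors = 0 := by
    intro v hv
    by_contra h0
    have h1 := (Associates.count_ne_zero_iff_dvd hqb v.irreducible).mp h0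
    have h2 : q = v.asIdeal :=
      (hq.isMaximal hqb).eq_of_le v.isPrime.ne_top (Ideal.dvd_iff_le.mp h1)
    exact hv (HeightOneSpectrum.ext h2.symm)
  have heasy : ∀ v : HeightOneSpectrum (𝓞 F), v ≠ w → Easy3 v := by
    intro v hv
    obtain ⟨m, hm⟩ := hcount v
    rw [hother v hv, zero_add] at hm
    refine ⟨⟨exp (-(m : ℤ)), ?_⟩, fun hlt => residue_neg_one ?_⟩
    · rw [hm, ← exp_add]; congr 1; push_cast; ring
    · rw [hval, HeightOneSpectrum.intValuation_lt_one_iff_dvd, hspan] at hlt
      have h1 : v.asIdeal ∣ J := by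
        rcases v.prime.dvd_or_dvd hlt with h2 | h2
        · exfalso
          have h3 : q = v.asIdeal :=
            (hq.isMaximal hqb).eq_of_le v.isPrime.ne_top (Ideal.dvd_iff_le.mp h2)
          exact hv (HeightOneSpectrum.ext h3.symm)
        · exact v.prime.dvd_of_dvd_pow h2
      refine hJ v.asIdeal v.isPrime (Ideal.dvd_iff_le.mp h1) ?_
      intro h2
      exact hv (HeightOneSpectrum.ext h2)
  by_cases h : IsSquare (w.valuation F c)
  · refine ⟨1, Or.inl rfl, fun v => ?_⟩
    by_cases hv : v = w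
    · right; rw [hv, one_mul]; exact h
    · left; exact ⟨heasy v hv, by rw [map_one]; exact ⟨1, by simp⟩⟩
  · refine ⟨3, Or.inr rfl, fun v => ?_⟩
    by_cases hv : v = w
    · right
      obtain ⟨m, hm⟩ := hcount w
      have h1 : (Associates.mk w.asIdeal).count (Associates.mk q).factors = 1 :=
        Associates.count_self w.associates_irreducible
      rw [h1] at hm
      rw [hv, map_mul, hm]
      have hc' : w.valuation F c ≠ 0 := (Valuation.ne_zero_iff _).mpr hc
      rw [← exp_log hc', ← exp_add]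
      have h1 : ¬ Even (log (w.valuation F c)) := by
        rintro ⟨m, hm⟩
        apply h
        rw [← exp_log hc', hm, exp_add]
        exact ⟨_, rfl⟩
      rw [Int.not_even_iff_odd] at h1
      obtain ⟨j, hj⟩ := h1
      refine ⟨exp (j - m), ?_⟩
      rw [← exp_add, hj]; congr 1; push_cast; ring
    · left; exact ⟨heasy v hv, (heasy v hv).1⟩

lemma class_fifteen' (h3 : Good3 F) (h5 : Nonsplit F 5) {c : F} (hc : c ≠ 0)
    (hev : ∀ v : HeightOneSpectrum (𝓞 F), Easy3 v → v.valuation F 5 = 1 →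
      IsSquare (v.valuation F c)) :
    ∃ δ : F, (δ = 1 ∨ δ = 3 ∨ δ = 5 ∨ δ = 15) ∧
      ∀ v : HeightOneSpectrum (𝓞 F), IsSquare (v.valuation F (δ * c)) := by
  obtain ⟨δ₃, hδ₃, h31⟩ := parity_three h3 hc
  obtain ⟨δ₅, hδ₅, h51, h52⟩ := parity_fix (n := 5) (by norm_num) h5 hc
  push_cast at hδ₅ h51 h52
  have hne : ∀ v : HeightOneSpectrum (𝓞 F), v.valuation F 5 < 1 → v.valuation F δ₃ = 1 := by
    intro v hv
    rcases hδ₃ with rfl | rfl
    · exact map_one _
    · by_contra h
      have h3' : v.valuation F (3 : F) < 1 := lt_of_le_of_ne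
        (by exact_mod_cast V_int_le (v.valuation F) 3) h
      have h1 : v.valuation F ((2 : F) * 3 - 5) < 1 := by
        refine lt_of_le_of_lt (Valuation.map_sub _ _ _) (max_lt ?_ hv)
        rw [map_mul]
        calc v.valuation F 2 * v.valuation F 3 ≤ 1 * v.valuation F 3 := by
              gcongr; exact_mod_cast V_int_le (v.valuation F) 2
          _ < 1 := by rwa [one_mul]
      norm_num at h1
  refine ⟨δ₃ * δ₅, ?_, fun v => ?_⟩
  · rcases hδ₃ with rfl | rfl <;> rcases hδ₅ with rfl | rfl <;> norm_num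
  · by_cases hv5 : v.valuation F 5 = 1
    · rw [mul_comm δ₃, mul_assoc, map_mul, h52 v hv5, one_mul]
      rcases h31 v with ⟨he, hs⟩ | hs
      · rw [map_mul]; exact hs.mul (hev v he hv5)
      · exact hs
    · have hv5' : v.valuation F (5 : F) < 1 := lt_of_le_of_ne
        (by exact_mod_cast V_int_le (v.valuation F) 5) hv5
      rw [mul_assoc, map_mul, hne v hv5', one_mul]
      exact h51 v hv5'

end global_

end Pool.Agent.H42M
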