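import Mathlib

/-! # Two-descent on two elliptic curves of conductor 15: local lemmas (helper42)

`V` is a valuation with values in `ℤᵐ⁰`; a value is *even* if it is a square. -/

namespace Pool.Agent.H42M

open WithZero

variable {K : Type*} [Field K] (V : Valuation K ℤᵐ⁰)

lemma isSquare_of_pow_three {g h : ℤᵐ⁰} (hg : g ≠ 0) (e : g ^ 3 = h ^ 2) : IsSquare g := by
  refine ⟨h / g, ?_⟩
  have h1 : (h / g) * (h / g) = h ^ 2 / g ^ 2 := by rw [div_mul_div_comm, pow_two, pow_two]
  rw [h1, ← e]
  field_simp

lemma isSquare_of_mul {a b y : ℤᵐ⁰} (hb : b ≠ 0) (e : a * b ^ 2 = y ^ 2) : IsSquare a := by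
  refine ⟨y / b, ?_⟩
  have h1 : (y / b) * (y / b) = y ^ 2 / b ^ 2 := by rw [div_mul_div_comm, pow_two, pow_two]
  rw [h1, ← e]
  field_simp

lemma add_left {a b : K} {g : ℤᵐ⁰} (hb : V b = g) (h : V a < g) : V (a + b) = g := by
  rw [← hb] at h
  rw [V.map_add_eq_of_lt_right h, hb]

lemma add_right {a b : K} {g : ℤᵐ⁰} (ha : V a = g) (h : V b < g) : V (a + b) = g := by
  rw [add_comm]; exact add_left V ha h

/-- parity of the valuation of `c` if `c (c + d₂) (c + d₃)` is a square and `d₂`, `d₃` are
units at `V`. -/
lemma even_of_units {c d₂ d₃ y : K} (h2 : V d₂ = 1) (h3 : V d₃ = 1)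
    (e : c * (c + d₂) * (c + d₃) = y ^ 2) : IsSquare (V c) := by
  have hV : V c * V (c + d₂) * V (c + d₃) = V y ^ 2 := by
    rw [← map_mul, ← map_mul, e, map_pow]
  rcases lt_trichotomy (V c) 1 with h | h | h
  · rw [add_left V h2 h, add_left V h3 h, mul_one, mul_one] at hV
    exact ⟨V y, by rw [hV, pow_two]⟩
  · rw [h]; exact ⟨1, by simp⟩
  · rw [add_right V rfl (h2 ▸ h), add_right V rfl (h3 ▸ h)] at hV
    refine isSquare_of_pow_three (g := V c) (h := V y) ?_ ?_
    · intro h0; rw [h0] at h; exact absurd h (by simp)
    · rw [← hV, pow_succ, pow_two]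

lemma V_four_eq : V (4 : K) = V 2 ^ 2 := by
  rw [← map_pow]; norm_num

lemma V_sixteen_eq : V (16 : K) = V 2 ^ 4 := by
  rw [← map_pow]; norm_num

lemma V_int_le (n : ℤ) : V (n : K) ≤ 1 := by
  induction n using Int.induction_on with
  | zero => simp
  | succ i hi =>
    push_cast at hi ⊢
    exact (V.map_add _ _).trans (max_le hi (by simp))
  | pred i hi =>
    push_cast at hi ⊢
    exact (V.map_sub _ _).trans (max_le hi (by simp))

/-- an odd integer is a unit at a place above 2 -/
lemma V_odd {n : ℤ} (hn : Odd n) (h2 : V (2 : K) < 1) : V (n : K) = 1 := by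
  obtain ⟨k, rfl⟩ := hn
  push_cast
  refine add_left V (map_one V) ?_
  rw [map_mul]
  calc V (2 : K) * V (k : K) ≤ V (2 : K) * 1 := by gcongr; exact V_int_le V k
    _ < 1 := by rwa [mul_one]

/-- the parity of `X + 16` above 2 on `Y ^ 2 = X (X + 1) (X + 16)` -/
lemma even_two {X Y : K} (hY : Y ≠ 0) (e : Y ^ 2 = X * (X + 1) * (X + 16))
    (h2 : V (2 : K) < 1) (h20 : V (2 : K) ≠ 0) : IsSquare (V (X + 16)) := by
  have h16 : V (16 : K) < 1 := by
    rw [V_sixteen_eq]; exact pow_lt_one₀ zero_le h2 (by norm_num)
  have h4 : V (4 : K) < 1 := by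
    rw [V_four_eq]; exact pow_lt_one₀ zero_le h2 (by norm_num)
  have hX0 : X ≠ 0 := by rintro rfl; apply hY; simpa using e
  have hX1 : X + 1 ≠ 0 := by
    intro h; apply hY; rw [h] at e; simpa using e
  have hX16 : X + 16 ≠ 0 := by
    intro h; apply hY; rw [h] at e; simpa using e
  have hV : V X * V (X + 1) * V (X + 16) = V Y ^ 2 := by
    rw [← map_mul, ← map_mul, ← e, map_pow]
  have hX0' : V X ≠ 0 := (V.ne_zero_iff).mpr hX0
  have hX16' : V (X + 16) ≠ 0 := (V.ne_zero_iff).mpr hX16
  by_cases hc : V X ≤ V 16
  · -- then `V X` or `V (X+16)` is controlled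
    rcases hc.lt_or_eq with hc | hc
    · -- `V X < V 16` hence `V (X + 16) = V 16`
      rw [add_left V rfl hc, V_sixteen_eq]
      exact ⟨V 2 ^ 2, by rw [← pow_add]⟩
    · -- `V X = V 16`
      have h1 : V (X + 1) = 1 := add_left V (map_one V) (hc ▸ h16)
      rw [h1, mul_one, hc, V_sixteen_eq] at hV
      refine isSquare_of_mul (a := V (X + 16)) (b := V 2 ^ 2) (y := V Y) (pow_ne_zero _ h20) ?_
      rw [← hV, mul_comm, ← pow_mul]
  · push Not at hc
    have h1 : V (X + 16) = V X := add_right V rfl hc
    rw [h1]
    by_cases hc1 : V X < 1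
    swap
    · -- `1 ≤ V X`
      push Not at hc1
      rcases hc1.eq_or_lt with hc1 | hc1
      · rw [← hc1]; exact ⟨1, by simp⟩
      · have h3 : V (X + 1) = V X := add_right V rfl (by rwa [map_one])
        rw [h1, h3] at hV
        refine isSquare_of_pow_three (g := V X) (h := V Y) hX0' ?_
        rw [← hV, pow_succ, pow_two]
    · -- `V 16 < V X < 1`
      by_contra hns
      set b : K := 16 / X with hb
      have hab : X * b = 16 := by rw [hb]; field_simp
      have hb0 : b ≠ 0 := by
        intro h; rw [h, mul_zero] at hab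
        have : V (16 : K) = 0 := by rw [← hab, map_zero]
        rw [V_sixteen_eq] at this
        exact pow_ne_zero _ h20 this
      set g : K := Y / X with hg
      have hgg : (g - 1) * (g + 1) = X + b + 16 := by
        have : g ^ 2 = (X + 1) * (1 + b) := by
          rw [hg, hb, div_pow, e]; field_simp
        linear_combination this + hab
      -- symmetric statement
      have key : ∀ a c : K, V a ≠ 0 → V a * V c = V 16 → V c ≤ V a → ¬ IsSquare (V a) →
          V 16 < V a → V a < 1 → (g - 1) * (g + 1) = a + c + 16 → False := by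
        intro a c ha0 hac hle hnsa h16a _ hgac
        have hc0 : V c ≠ 0 := by
          intro h; rw [h, mul_zero] at hac; rw [V_sixteen_eq] at hac
          exact pow_ne_zero _ h20 hac.symm
        -- V 4 < V a
        have h4a : V 4 < V a := by
          by_contra hlt
          push Not at hlt
          rcases hlt.lt_or_eq with hlt | hlt
          · have h5 : V c < V 4 := hle.trans_lt hlt
            have h6 : V a * V c < V 4 * V 4 := mul_lt_mul'' hlt h5 zero_le zero_le
            rw [hac, V_sixteen_eq, V_four_eq, ← pow_add] at h6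
            exact lt_irrefl _ h6
          · apply hnsa
            rw [hlt, V_four_eq]
            exact ⟨V 2, pow_two _⟩
        have hca : V c < V a := by
          rcases hle.lt_or_eq with h | h
          · exact h
          · exfalso
            rw [h, V_sixteen_eq] at hac
            have h5 : V 4 * V 4 < V a * V a := mul_lt_mul'' h4a h4a zero_le zero_le
            rw [hac, V_four_eq, ← pow_add] at h5
            exact lt_irrefl _ h5
        have hs : V (a + c + 16) = V a := by
          refine add_right V (add_right V rfl hca) h16a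
        have hgV : V (g - 1) * V (g + 1) = V a := by rw [← map_mul, hgac, hs]
        by_cases ht : V 2 < V (g - 1)
        · have h7 : V (g + 1) = V (g - 1) := by
            have : g + 1 = (g - 1) + 2 := by ring
            rw [this]; exact add_right V rfl ht
          rw [h7] at hgV
          exact hnsa ⟨V (g - 1), hgV.symm⟩
        · push Not at ht
          have h7 : V (g + 1) ≤ V 2 := by
            have : g + 1 = (g - 1) + 2 := by ring
            rw [this]; exact (V.map_add _ _).trans (max_le ht le_rfl)
          have h8 : V (g - 1) * V (g + 1) ≤ V 2 * V 2 := mul_le_mul' ht h7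
          rw [hgV, ← pow_two, ← V_four_eq] at h8
          exact absurd h8 (not_le.mpr h4a)
      have hab' : V X * V b = V 16 := by rw [← map_mul, hab]
      have hb0' : V b ≠ 0 := (V.ne_zero_iff).mpr hb0
      have hb16 : V 16 < V b := by
        by_contra hlt
        push Not at hlt
        have : V X * V b < 1 * V 16 := by
          calc V X * V b ≤ V X * V 16 := by gcongr
            _ < 1 * V 16 := by
              gcongr
              rw [V_sixteen_eq]; exact pow_pos (zero_lt_iff.mpr h20) 4
        rw [hab', one_mul] at this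
        exact lt_irrefl _ this
      have hb1 : V b < 1 := by
        by_contra hlt
        push Not at hlt
        have : V X * 1 ≤ V X * V b := by gcongr
        rw [hab', mul_one] at this
        exact absurd this (not_le.mpr hc)
      rcases le_total (V b) (V X) with h | h
      · exact key X b hX0' hab' h hns hc hc1 hgg
      · refine key b X hb0' (by rw [mul_comm, hab']) h ?_ hb16 hb1 (by rw [hgg]; ring)
        rintro ⟨z, hz⟩
        apply hns
        refine isSquare_of_mul (a := V X) (b := z) (y := V 4) ?_ ?_
        · rintro rfl; rw [mul_zero] at hz; exact hb0' hz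
        · rw [pow_two, ← hz, hab', V_four_eq, V_sixteen_eq, ← pow_mul]

end Pool.Agent.H42M
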