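import Pool.Agent.H42M.Val

/-! # Two-descent on two elliptic curves of conductor 15: squares modulo 4 (helper42) -/

namespace Pool.Agent.H42M

open WithZero

variable {K : Type*} [Field K] (V : Valuation K ℤᵐ⁰)

/-- second step: `X + 16` and `X (X + 1)` are squares, then the valuation of `X` is even -/
lemma even_X {X r s : K} (hr : X + 16 = r ^ 2) (hs : X * (X + 1) = s ^ 2) :
    IsSquare (V X) := by
  rcases lt_trichotomy (V X) 1 with h | h | h
  · have h1 : V (X + 1) = 1 := add_left V (map_one V) h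
    refine ⟨V s, ?_⟩
    rw [← pow_two, ← map_pow, ← hs, map_mul, h1, mul_one]
  · rw [h]; exact ⟨1, by simp⟩
  · have h16 : V (16 : K) ≤ 1 := by exact_mod_cast V_int_le V 16
    have h1 : V (X + 16) = V X := add_right V rfl (h16.trans_lt h)
    refine ⟨V r, ?_⟩
    rw [← pow_two, ← map_pow, ← hr, h1]

/-- `c` is a square times a unit congruent to 1 modulo 4 at `V` -/
def SqModFour (c : K) : Prop := ∃ s : K, s ≠ 0 ∧ V (c / s ^ 2 - 1) ≤ V 4

lemma V_four_lt (h2 : V (2 : K) < 1) : V (4 : K) < 1 := by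
  rw [V_four_eq]; exact pow_lt_one₀ zero_le h2 (by norm_num)

lemma sqMod_E2 {X r s : K} (hX : X ≠ 0) (hX1 : X + 1 ≠ 0) (hr0 : r ≠ 0) (hr : X + 16 = r ^ 2)
    (hs : X * (X + 1) = s ^ 2) (h2 : V (2 : K) < 1) : SqModFour V X := by
  have hs0 : s ≠ 0 := by
    rintro rfl
    have : X * (X + 1) = 0 := by rw [hs]; ring
    rcases mul_eq_zero.mp this with h | h
    · exact hX h
    · exact hX1 h
  have hVr : V r ≠ 0 := (V.ne_zero_iff).mpr hr0
  by_cases h : V 2 < V r
  · refine ⟨r, hr0, ?_⟩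
    have h1 : X / r ^ 2 - 1 = -(16 / r ^ 2) := by
      have : X = r ^ 2 - 16 := by linear_combination hr
      rw [this]; field_simp; ring
    rw [h1, Valuation.map_neg, map_div₀, map_pow, V_sixteen_eq, V_four_eq]
    rw [div_le_iff₀ (pow_pos (zero_lt_iff.mpr hVr) 2)]
    calc V (2 : K) ^ 4 = V 2 ^ 2 * V 2 ^ 2 := by rw [← pow_add]
      _ ≤ V 2 ^ 2 * V r ^ 2 := by gcongr
  · push Not at h
    have hVX : V X ≤ V 4 := by
      have : X = r ^ 2 - 16 := by linear_combination hr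
      rw [this]
      refine (V.map_sub _ _).trans (max_le ?_ ?_)
      · rw [map_pow, V_four_eq]; gcongr
      · rw [V_sixteen_eq, V_four_eq]
        exact pow_le_pow_of_le_one zero_le h2.le (by norm_num)
    have hX1' : V (X + 1) = 1 := add_left V (map_one V) (hVX.trans_lt (V_four_lt V h2))
    refine ⟨s / (X + 1), div_ne_zero hs0 hX1, ?_⟩
    have h1 : X / (s / (X + 1)) ^ 2 - 1 = X := by
      rw [div_pow, ← hs]; field_simp; ring
    rwa [h1]

lemma sqMod_E1 {X Y : K} (hY : Y ≠ 0) (e : Y ^ 2 = X * (X - 9) * (X - 25))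
    (h2 : V (2 : K) < 1) (h20 : V (2 : K) ≠ 0) : SqModFour V X := by
  have hX : X ≠ 0 := by rintro rfl; apply hY; simpa using e
  have h4 := V_four_lt V h2
  by_cases h : V 4 ≤ V (X - 17)
  · have h17 : X - 17 ≠ 0 := by
      intro h0; rw [h0, map_zero, V_four_eq] at h
      exact pow_ne_zero 2 h20 (le_zero_iff.mp h)
    have hV17 : V (X - 17) ≠ 0 := (V.ne_zero_iff).mpr h17
    have hD : (X - 9) * (X - 25) ≠ 0 := by
      intro h0; apply hY
      have : Y ^ 2 = X * ((X - 9) * (X - 25)) := by rw [e]; ring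
      rw [h0, mul_zero] at this
      exact pow_eq_zero_iff (two_ne_zero) |>.mp this
    refine ⟨Y / (X - 17), div_ne_zero hY h17, ?_⟩
    set ε : K := 64 / (X - 17) ^ 2 with hε
    have hVε : V ε ≤ V 4 := by
      rw [hε, map_div₀, map_pow, div_le_iff₀ (pow_pos (zero_lt_iff.mpr hV17) 2)]
      have h64 : V (64 : K) = V 4 * V 4 ^ 2 := by rw [← map_pow, ← map_mul]; norm_num
      rw [h64]
      gcongr
    have hV1 : V (1 - ε) = 1 := by
      rw [sub_eq_add_neg]
      exact add_right V (map_one V) (by rw [Valuation.map_neg]; exact hVε.trans_lt h4)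
    have h1e : 1 - ε ≠ 0 := by
      intro h0; rw [h0, map_zero] at hV1; exact zero_ne_one hV1
    have h1 : X / (Y / (X - 17)) ^ 2 = 1 / (1 - ε) := by
      have h3 : (1 - ε) * (X - 17) ^ 2 = (X - 9) * (X - 25) := by
        rw [hε]; field_simp; ring
      have h5 : (1 - ε) = (X - 9) * (X - 25) / (X - 17) ^ 2 := by
        rw [← h3]; field_simp
      rw [div_pow, e, h5]
      have h6 : X - 9 ≠ 0 := left_ne_zero_of_mul hD
      have h7 : X - 25 ≠ 0 := right_ne_zero_of_mul hD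
      field_simp
    have h8 : 1 / (1 - ε) - 1 = ε / (1 - ε) := by field_simp; ring
    rw [h1, h8, map_div₀, hV1, div_one]
    exact hVε
  · push Not at h
    refine ⟨1, one_ne_zero, ?_⟩
    have h1 : X / 1 ^ 2 - 1 = (X - 17) + 16 := by ring
    rw [h1]
    refine (V.map_add _ _).trans (max_le h.le ?_)
    rw [V_sixteen_eq, V_four_eq]
    exact pow_le_pow_of_le_one zero_le h2.le (by norm_num)

lemma sqMod_neg_one {n : ℤ} (hn : (4 : ℤ) ∣ n + 1) {γ : K} (hγ : γ ≠ 0) (h2 : V (2 : K) < 1)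
    (h : SqModFour V ((n : K) * γ ^ 2)) : SqModFour V (-1) := by
  obtain ⟨s, hs, h⟩ := h
  obtain ⟨k, hk⟩ := hn
  have hodd : Odd n := by
    have : n = 2 * (2 * k - 1) + 1 := by omega
    rw [this]; exact odd_two_mul_add_one _
  have hVn : V (n : K) = 1 := V_odd V hodd h2
  have h4 := V_four_lt V h2
  have ht0 : s / γ ≠ 0 := div_ne_zero hs hγ
  refine ⟨s / γ, ht0, ?_⟩
  have h1 : (n : K) * γ ^ 2 / s ^ 2 = (n : K) / (s / γ) ^ 2 := by
    rw [div_pow]; field_simp
  rw [h1] at h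
  have hV1 : V ((n : K) / (s / γ) ^ 2) = 1 := by
    have : (n : K) / (s / γ) ^ 2 = ((n : K) / (s / γ) ^ 2 - 1) + 1 := by ring
    rw [this]
    exact add_left V (map_one V) (h.trans_lt h4)
  have hVt : V ((s / γ) ^ 2) = 1 := by
    rw [map_div₀, hVn, one_div] at hV1
    rw [← inv_inv (V ((s / γ) ^ 2)), hV1, inv_one]
  have h3 : -1 / (s / γ) ^ 2 - 1 = ((n : K) / (s / γ) ^ 2 - 1) + (-(4 * (k : K)) / (s / γ) ^ 2) := by
    have hk' : (n : K) + 1 = 4 * k := by exact_mod_cast congrArg (fun z : ℤ => (z : K)) hk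
    field_simp
    linear_combination (-1 : K) * hk' * γ ^ 2
  rw [h3]
  refine (V.map_add _ _).trans (max_le h ?_)
  rw [map_div₀, hVt, div_one, Valuation.map_neg, map_mul]
  calc V (4 : K) * V (k : K) ≤ V 4 * 1 := by gcongr; exact V_int_le V k
    _ = V 4 := mul_one _

end Pool.Agent.H42M
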